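import Pool.Agent.U360.AS.Plc

/-!
# Adding a prime ideal to `S`
-/

set_option autoImplicit false
set_option linter.unusedSectionVars false

open NumberField IsDedekindDomain Filter Topology

noncomputable section

namespace Pool.Agent.U360.AS

open Pool.Agent.K3h30.RS Pool.Agent.U360.RS Pool.Agent.K3h8.RS Pool.Agent.K3h25.RS

variable {F H G : Type} [Field F] [NumberField F] [Field H] [NumberField H] [Algebra F H]
  [CommGroup G] [Finite G] [MulSemiringAction G H]

theorem inS_mono {S S' : Set (HeightOneSpectrum (𝓞 F))} (h : S ⊆ S') {w : Place H}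
    (hw : InS S w) : InS S' w := by
  rcases w with w | w
  · trivial
  · obtain ⟨v, hv, h'⟩ := hw
    exact ⟨v, h hv, h'⟩

theorem inS_cons {S : Finset (HeightOneSpectrum (𝓞 F))} {v : HeightOneSpectrum (𝓞 F)}
    (hv : v ∉ S) {w : Place H}
    (hw : InS ((Finset.cons v S hv : Finset (HeightOneSpectrum (𝓞 F))) :
      Set (HeightOneSpectrum (𝓞 F))) w) :
    InS (S : Set (HeightOneSpectrum (𝓞 F))) w ∨
      ∃ P : HeightOneSpectrum (𝓞 H), Above {v} P ∧ w = Sum.inr P := by
  rcases w with w | w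
  · exact Or.inl trivial
  · obtain ⟨u, hu, h⟩ := hw
    rcases Finset.mem_cons.1 (Finset.mem_coe.1 hu) with rfl | hu
    · exact Or.inr ⟨w, ⟨u, Set.mem_singleton u, h⟩, rfl⟩
    · exact Or.inl ⟨u, Finset.mem_coe.2 hu, h⟩

theorem conj_symm {w w' : Place H} (h : Conj G w w') : Conj G w' w := by
  obtain ⟨γ, hγ⟩ := h
  refine ⟨γ⁻¹, fun x => ?_⟩
  rw [hγ, smul_inv_smul]

theorem conj_trans {w w' w'' : Place H} (h : Conj G w w') (h' : Conj G w' w'') :
    Conj G w w'' := by
  obtain ⟨γ, hγ⟩ := h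
  obtain ⟨γ', hγ'⟩ := h'
  refine ⟨γ' * γ, fun x => ?_⟩
  rw [hγ, hγ', mul_smul]

theorem conj_inr [hG : IsGaloisGroup G F H] {S : Set (HeightOneSpectrum (𝓞 F))}
    {v : HeightOneSpectrum (𝓞 F)} {P : HeightOneSpectrum (𝓞 H)} (hP : Above {v} P) {w : Place H}
    (hw : InS S w) (h : Conj G w (Sum.inr P)) : v ∈ S := by
  obtain ⟨g, hg⟩ := h
  have := hG.commutes
  exact conj_above hP hw g (fun x => smul_algebraMap g x) hg

/-- the function `L_{S ∪ {v}}(χ, s)` -/
def addL (D : RubinData F H G) (v : HeightOneSpectrum (𝓞 F)) (χ : G →* ℂˣ) (s : ℂ) : ℂ :=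
  (1 - (χ (D.σ v) : ℂ) * (Ideal.absNorm v.asIdeal : ℂ) ^ (-s)) * D.L χ s

theorem norm_chi (χ : G →* ℂˣ) (g : G) : ‖(χ g : ℂ)‖ = 1 := by
  apply Complex.norm_eq_one_of_pow_eq_one (n := orderOf g)
  · rw [← Units.val_pow_eq_pow_val, ← map_pow, pow_orderOf_eq_one, map_one, Units.val_one]
  · exact (orderOf_pos g).ne'

theorem addL_analytic (D : RubinData F H G) (v : HeightOneSpectrum (𝓞 F)) (χ : G →* ℂˣ) :
    DifferentiableOn ℂ (addL D v χ) {1}ᶜ := by
  have hN : (Ideal.absNorm v.asIdeal : ℂ) ≠ 0 := by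
    have := Pool.Agent.K3h62.RS.two_le_absNorm v
    exact_mod_cast (show Ideal.absNorm v.asIdeal ≠ 0 by omega)
  refine DifferentiableOn.mul (fun s _ => DifferentiableAt.differentiableWithinAt ?_)
    (D.analytic χ)
  refine DifferentiableAt.const_sub (DifferentiableAt.const_mul ?_ _) 1
  exact DifferentiableAt.const_cpow differentiableAt_id.neg (Or.inl hN)

theorem addL_euler (D : RubinData F H G) (v : HeightOneSpectrum (𝓞 F)) (hv : v ∉ D.S)
    (χ : G →* ℂˣ) (s : ℂ) (hs : 1 < s.re) :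
    HasProd (fun u : {u : HeightOneSpectrum (𝓞 F) // u ∉ Finset.cons v D.S hv} =>
      (1 - (χ (D.σ u) : ℂ) * (Ideal.absNorm (u : HeightOneSpectrum (𝓞 F)).asIdeal : ℂ) ^ (-s))⁻¹)
      (addL D v χ s) := by
  classical
  have h1 := D.euler χ s hs
  set f : {u : HeightOneSpectrum (𝓞 F) // u ∉ D.S} → ℂ := fun u =>
    (1 - (χ (D.σ u) : ℂ) * (Ideal.absNorm (u : HeightOneSpectrum (𝓞 F)).asIdeal : ℂ) ^ (-s))⁻¹
    with hf
  have hN := Pool.Agent.K3h62.RS.two_le_absNorm v
  have hne : (1 - (χ (D.σ v) : ℂ) * (Ideal.absNorm v.asIdeal : ℂ) ^ (-s)) ≠ 0 := by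
    intro h0
    have h2 : (χ (D.σ v) : ℂ) * (Ideal.absNorm v.asIdeal : ℂ) ^ (-s) = 1 := (sub_eq_zero.1 h0).symm
    have h3 := congrArg norm h2
    rw [norm_mul, norm_chi, one_mul, norm_one,
      Complex.norm_natCast_cpow_of_pos (by omega : 0 < Ideal.absNorm v.asIdeal), Complex.neg_re]
      at h3
    have h4 : (Ideal.absNorm v.asIdeal : ℝ) ^ (-s.re) < 1 :=
      Real.rpow_lt_one_of_one_lt_of_neg (by exact_mod_cast (by omega : 1 < _)) (by linarith)
    linarith
  have h2 : HasProd (fun u => if u = (⟨v, hv⟩ : {u : HeightOneSpectrum (𝓞 F) // u ∉ D.S}) then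
      (f ⟨v, hv⟩)⁻¹ else 1) (f ⟨v, hv⟩)⁻¹ := hasProd_ite_eq _ _
  have h3 := h1.mul h2
  have h4 : D.L χ s * (f ⟨v, hv⟩)⁻¹ = addL D v χ s := by
    rw [hf]
    dsimp only
    rw [inv_inv, addL]
    ring
  rw [h4] at h3
  let i : {u : HeightOneSpectrum (𝓞 F) // u ∉ Finset.cons v D.S hv} →
      {u : HeightOneSpectrum (𝓞 F) // u ∉ D.S} := fun u =>
    ⟨u.1, fun h => u.2 (Finset.mem_cons_of_mem h)⟩
  have hi : Function.Injective i := fun a b h =>
    Subtype.ext (congrArg (fun z : {u : HeightOneSpectrum (𝓞 F) // u ∉ D.S} => z.1) h)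
  have h5 : ∀ x, x ∉ Set.range i → f x * (if x = (⟨v, hv⟩ :
      {u : HeightOneSpectrum (𝓞 F) // u ∉ D.S}) then (f ⟨v, hv⟩)⁻¹ else 1) = 1 := by
    intro x hx
    have hxv : x = ⟨v, hv⟩ := by
      by_contra hne'
      apply hx
      refine ⟨⟨x.1, fun h => ?_⟩, Subtype.ext rfl⟩
      rcases Finset.mem_cons.1 h with h | h
      · exact hne' (Subtype.ext h)
      · exact x.2 h
    rw [if_pos hxv, hxv]
    apply mul_inv_cancel₀
    rw [hf]
    exact inv_ne_zero hne
  have h6 := (hi.hasProd_iff h5).2 h3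
  have h7 : (fun u : {u : HeightOneSpectrum (𝓞 F) // u ∉ Finset.cons v D.S hv} =>
      (1 - (χ (D.σ u) : ℂ) * (Ideal.absNorm (u : HeightOneSpectrum (𝓞 F)).asIdeal : ℂ) ^ (-s))⁻¹) =
      (fun x => f x * (if x = (⟨v, hv⟩ : {u : HeightOneSpectrum (𝓞 F) // u ∉ D.S}) then
        (f ⟨v, hv⟩)⁻¹ else 1)) ∘ i := by
    funext u
    change f (i u) = f (i u) * (if i u = (⟨v, hv⟩ : {u : HeightOneSpectrum (𝓞 F) // u ∉ D.S}) then
        (f ⟨v, hv⟩)⁻¹ else 1)
    rw [if_neg, mul_one]
    intro h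
    apply u.2
    have h8 : u.1 = v := congrArg (fun z : {u : HeightOneSpectrum (𝓞 F) // u ∉ D.S} => z.1) h
    rw [h8]
    exact Finset.mem_cons_self v D.S
  rw [h7]
  exact h6

/-- the data for `S ∪ {v}`, where `v` does not split completely -/
def addN [hG : IsGaloisGroup G F H] (D : RubinData F H G) (v : HeightOneSpectrum (𝓞 F))
    (hv : v ∉ D.S) (hσ : D.σ v ≠ 1) : RubinData F H G where
  S := Finset.cons v D.S hv
  unramified u hu := D.unramified u fun h => hu (Finset.mem_cons_of_mem h)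
  r := D.r
  w := D.w
  inS i := inS_mono (fun u hu => Finset.mem_coe.2 (Finset.mem_cons_of_mem hu)) (D.inS i)
  splits := D.splits
  distinct := D.distinct
  all u hu hs := by
    rcases inS_cons hv hu with h | ⟨P, hP, rfl⟩
    · exact D.all u h hs
    · exact absurd (hs _ (fixes_of_frob (D.frob v hv) hP)) hσ
  more := by
    obtain ⟨u, hu, h⟩ := D.more
    exact ⟨u, inS_mono (fun u hu => Finset.mem_coe.2 (Finset.mem_cons_of_mem hu)) hu, h⟩
  σ := D.σ
  frob u hu := D.frob u fun h => hu (Finset.mem_cons_of_mem h)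
  L := addL D v
  analytic := addL_analytic D v
  euler := addL_euler D v hv

/-- the data for `S ∪ {v}`, where `v` splits completely and `P` lies over `v` -/
def addS [hG : IsGaloisGroup G F H] (D : RubinData F H G) (v : HeightOneSpectrum (𝓞 F))
    (hv : v ∉ D.S) (hσ : D.σ v = 1) (P : HeightOneSpectrum (𝓞 H)) (hP : Above {v} P) :
    RubinData F H G where
  S := Finset.cons v D.S hv
  unramified u hu := D.unramified u fun h => hu (Finset.mem_cons_of_mem h)
  r := D.r + 1
  w := Fin.snoc (α := fun _ => Place H) D.w (Sum.inr P)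
  inS i := by
    refine Fin.lastCases ?_ (fun i => ?_) i
    · rw [Fin.snoc_last]
      obtain ⟨u, hu, h⟩ := hP
      rw [Set.mem_singleton_iff] at hu
      subst hu
      exact ⟨u, Finset.mem_coe.2 (Finset.mem_cons_self _ _), h⟩
    · rw [Fin.snoc_castSucc]
      exact inS_mono (fun u hu => Finset.mem_coe.2 (Finset.mem_cons_of_mem hu)) (D.inS i)
  splits i := by
    refine Fin.lastCases ?_ (fun i => ?_) i
    · rw [Fin.snoc_last]
      intro γ hγ
      exact dec_trivial (D.unramified v hv) (hσ ▸ D.frob v hv) hP γ hγ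
    · rw [Fin.snoc_castSucc]
      exact D.splits i
  distinct i j := by
    refine Fin.lastCases ?_ (fun i => ?_) i
    · refine Fin.lastCases ?_ (fun j => ?_) j
      · intro _; rfl
      · rw [Fin.snoc_last, Fin.snoc_castSucc]
        intro h
        exact absurd (conj_inr hP (D.inS j) (conj_symm h)) fun h => hv (Finset.mem_coe.1 h)
    · refine Fin.lastCases ?_ (fun j => ?_) j
      · rw [Fin.snoc_last, Fin.snoc_castSucc]
        intro h
        exact absurd (conj_inr hP (D.inS i) h) fun h => hv (Finset.mem_coe.1 h)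
      · rw [Fin.snoc_castSucc, Fin.snoc_castSucc]
        intro h
        rw [D.distinct i j h]
  all u hu hs := by
    rcases inS_cons hv hu with h | ⟨P', hP', rfl⟩
    · obtain ⟨i, hi⟩ := D.all u h hs
      exact ⟨i.castSucc, by rw [Fin.snoc_castSucc]; exact hi⟩
    · exact ⟨Fin.last _, by
        rw [Fin.snoc_last]; exact conj_of_split (hσ ▸ D.frob v hv) hP hP'⟩
  more := by
    obtain ⟨u, hu, h⟩ := D.more
    refine ⟨u, inS_mono (fun u hu => Finset.mem_coe.2 (Finset.mem_cons_of_mem hu)) hu, fun i => ?_⟩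
    refine Fin.lastCases ?_ (fun i => ?_) i
    · rw [Fin.snoc_last]
      intro h'
      exact absurd (conj_inr hP hu h') fun h => hv (Finset.mem_coe.1 h)
    · rw [Fin.snoc_castSucc]
      exact h i
  σ := D.σ
  frob u hu := D.frob u fun h => hu (Finset.mem_cons_of_mem h)
  L := addL D v
  analytic := addL_analytic D v
  euler := addL_euler D v hv

end Pool.Agent.U360.AS
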