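import Mathlib

/-!
# Determinants with one more column
-/

set_option autoImplicit false

noncomputable section

namespace Pool.Agent.U360.AS

variable {R A : Type} [CommRing R]

/-- the row attached to the points `x` and a pair `(f, a)` -/
def row {r : ℕ} (x : Fin r → A) : ((A → R) × R) →ₗ[R] (Fin (r + 1) → R) where
  toFun p := Fin.snoc (α := fun _ => R) (fun j => p.1 (x j)) p.2
  map_add' := by
    intro p q
    funext j
    refine Fin.lastCases ?_ (fun j => ?_) j
    · simp
    · simp
  map_smul' := by
    intro t p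
    funext j
    refine Fin.lastCases ?_ (fun j => ?_) j
    · simp
    · simp

theorem row_last {r : ℕ} (x : Fin r → A) (p : (A → R) × R) : row x p (Fin.last r) = p.2 := by
  simp [row]

theorem row_castSucc {r : ℕ} (x : Fin r → A) (p : (A → R) × R) (j : Fin r) :
    row x p j.castSucc = p.1 (x j) := by
  simp [row]

/-- the sum of the determinants -/
def Y {r n : ℕ} (c : Fin n → R) (x : Fin n → Fin r → A) :
    MultilinearMap R (fun _ : Fin (r + 1) => (A → R) × R) R :=
  ∑ k, c k • ((Matrix.detRowAlternating (n := Fin (r + 1)) (R := R)).toMultilinearMap.compLinearMap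
    (fun _ => row (x k)))

theorem Y_apply {r n : ℕ} (c : Fin n → R) (x : Fin n → Fin r → A)
    (p : Fin (r + 1) → (A → R) × R) :
    Y c x p = ∑ k, c k * Matrix.det (Matrix.of fun i j => row (x k) (p i) j) := by
  unfold Y
  rw [sum_apply]
  rfl

/-- expansion along the last column -/
theorem Y_col {r n : ℕ} (c : Fin n → R) (x : Fin n → Fin r → A)
    (p : Fin (r + 1) → (A → R) × R) :
    Y c x p = ∑ i : Fin (r + 1), (-1) ^ ((i : ℕ) + ((Fin.last r : Fin (r + 1)) : ℕ)) * (p i).2 *
      ∑ k, c k * Matrix.det (Matrix.of fun a j => (p (i.succAbove a)).1 (x k j)) := by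
  rw [Y_apply]
  simp only [Finset.mul_sum]
  rw [Finset.sum_comm]
  refine Finset.sum_congr rfl fun k _ => ?_
  rw [Matrix.det_succ_column _ (Fin.last r), Finset.mul_sum]
  refine Finset.sum_congr rfl fun i _ => ?_
  rw [Matrix.of_apply, row_last]
  have h : (Matrix.of fun i j => row (x k) (p i) j).submatrix i.succAbove (Fin.last r).succAbove =
      Matrix.of fun a j => (p (i.succAbove a)).1 (x k j) := by
    ext a j
    rw [Matrix.submatrix_apply, Matrix.of_apply, Matrix.of_apply, Fin.succAbove_last,
      row_castSucc]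
  rw [h]
  ring

/-- a special row -/
theorem special {r n : ℕ} (c : Fin n → R) (x : Fin n → Fin r → A) (Z : Subring R) (δ : R)
    (lam : A → R) (p : Fin (r + 1) → (A → R) × R) (i₀ : Fin (r + 1)) (a : Fin (r + 1) → R)
    (ρ : Fin (r + 1) → A → R) (h0 : p i₀ = (fun u => δ * lam u, δ))
    (h : ∀ i, i ≠ i₀ → p i = (fun u => a i * lam u + ρ i u, a i))
    (hint : δ * ∑ k, c k * Matrix.det (Matrix.of fun (i j : Fin r) =>
      ρ (i₀.succAbove i) (x k j)) ∈ Z) : Y c x p ∈ Z := by
  classical
  let q : Fin (r + 1) → (A → R) × R := fun i => if i = i₀ then (lam, 1) else (ρ i, 0)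
  have h1 : Y c x p = δ * Y c x q := by
    rw [Y_apply, Y_apply, Finset.mul_sum]
    refine Finset.sum_congr rfl fun k _ => ?_
    let N : Matrix (Fin (r + 1)) (Fin (r + 1)) R := Matrix.of fun i j => row (x k) (q i) j
    let N' : Matrix (Fin (r + 1)) (Fin (r + 1)) R :=
      Matrix.of fun i j => N i j + (if i = i₀ then 0 else a i) * N i₀ j
    have e1 : N'.det = N.det :=
      Matrix.det_eq_of_forall_row_eq_smul_add_const (fun i => if i = i₀ then 0 else a i) i₀
        (by simp) fun i j => rfl
    have e2 : (Matrix.of fun i j => row (x k) (p i) j) = N'.updateRow i₀ (δ • N' i₀) := by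
      ext i j
      by_cases hi : i = i₀
      · subst hi
        rw [Matrix.updateRow_self, Matrix.of_apply, h0]
        have : N' i j = row (x k) (lam, 1) j := by
          change N i j + (if i = i then 0 else a i) * N i j = _
          rw [if_pos rfl, zero_mul, add_zero]
          change row (x k) (if i = i then (lam, 1) else (ρ i, 0)) j = _
          rw [if_pos rfl]
        have e5 : ((fun u => δ * lam u, δ) : (A → R) × R) = δ • ((lam, 1) : (A → R) × R) := by
          apply Prod.ext
          · funext u; simp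
          · simp
        rw [e5, map_smul, Pi.smul_apply, Pi.smul_apply, this]
      · rw [Matrix.updateRow_ne hi, Matrix.of_apply, h i hi]
        change _ = N i j + (if i = i₀ then 0 else a i) * N i₀ j
        rw [if_neg hi]
        have e3 : N i j = row (x k) (ρ i, 0) j := by
          change row (x k) (if i = i₀ then (lam, 1) else (ρ i, 0)) j = _
          rw [if_neg hi]
        have e4 : N i₀ j = row (x k) (lam, 1) j := by
          change row (x k) (if i₀ = i₀ then (lam, 1) else (ρ i₀, 0)) j = _
          rw [if_pos rfl]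
        have e5 : ((fun u => a i * lam u + ρ i u, a i) : (A → R) × R) =
            (ρ i, 0) + a i • ((lam, 1) : (A → R) × R) := by
          apply Prod.ext
          · funext u; simp [add_comm]
          · simp
        rw [e3, e4, e5, map_add, map_smul, Pi.add_apply, Pi.smul_apply, smul_eq_mul]
    rw [e2, Matrix.det_updateRow_smul, Matrix.updateRow_eq_self, e1]
    ring
  have h2 : Y c x q = (-1) ^ ((i₀ : ℕ) + ((Fin.last r : Fin (r + 1)) : ℕ)) *
      ∑ k, c k * Matrix.det (Matrix.of fun (i j : Fin r) => ρ (i₀.succAbove i) (x k j)) := by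
    rw [Y_col, Finset.sum_eq_single i₀]
    · have e1 : (q i₀).2 = 1 := by
        change (if i₀ = i₀ then ((lam, 1) : (A → R) × R) else (ρ i₀, 0)).2 = 1
        rw [if_pos rfl]
      rw [e1, mul_one]
      congr 1
      refine Finset.sum_congr rfl fun k _ => ?_
      congr 2
      ext i j
      rw [Matrix.of_apply, Matrix.of_apply]
      change (if i₀.succAbove i = i₀ then ((lam, 1) : (A → R) × R) else
        (ρ (i₀.succAbove i), 0)).1 (x k j) = _
      rw [if_neg (Fin.succAbove_ne i₀ i)]
    · intro i _ hi
      have e1 : (q i).2 = 0 := by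
        change (if i = i₀ then ((lam, 1) : (A → R) × R) else (ρ i, 0)).2 = 0
        rw [if_neg hi]
      rw [e1, mul_zero, zero_mul]
    · intro h; exact absurd (Finset.mem_univ _) h
  rw [h1, h2]
  have h3 : δ * ((-1) ^ ((i₀ : ℕ) + ((Fin.last r : Fin (r + 1)) : ℕ)) *
      ∑ k, c k * Matrix.det (Matrix.of fun (i j : Fin r) => ρ (i₀.succAbove i) (x k j))) =
      (-1) ^ ((i₀ : ℕ) + ((Fin.last r : Fin (r + 1)) : ℕ)) *
      (δ * ∑ k, c k * Matrix.det (Matrix.of fun (i j : Fin r) =>
        ρ (i₀.succAbove i) (x k j))) := by ring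
  rw [h3]
  exact Z.mul_mem (Z.pow_mem (Z.neg_mem Z.one_mem) _) hint

/-- **Reduction to special rows.** -/
theorem reduce {r n : ℕ} (c : Fin n → R) (x : Fin n → Fin r → A) (Z : Subring R)
    (P S : Set ((A → R) × R))
    (hspec : ∀ s ∈ S, ∀ (p : Fin (r + 1) → (A → R) × R) (i : Fin (r + 1)),
      (∀ j, j ≠ i → p j ∈ P) → p i = s → Y c x p ∈ Z)
    (hdec : ∀ p ∈ P, ∃ (m : ℕ) (s : Fin m → (A → R) × R) (d : Fin m → R), (∀ l, s l ∈ S) ∧
      (∀ l, d l ∈ Z) ∧ ∃ ψ : A → R, (ψ, (0 : R)) ∈ P ∧ p = ∑ l, d l • s l + (ψ, 0))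
    (p : Fin (r + 1) → (A → R) × R) (hp : ∀ i, p i ∈ P) : Y c x p ∈ Z := by
  classical
  have key : ∀ (s : Finset (Fin (r + 1))) (p : Fin (r + 1) → (A → R) × R), (∀ i, p i ∈ P) →
      (∀ i, i ∉ s → (p i).2 = 0) → Y c x p ∈ Z := by
    intro s
    induction s using Finset.induction_on with
    | empty =>
      intro p _ h0
      rw [Y_col, Finset.sum_eq_zero]
      · exact Z.zero_mem
      · intro i _
        rw [h0 i (Finset.notMem_empty i), mul_zero, zero_mul]
    | insert i s his ih =>
      intro p hp h0
      obtain ⟨m, t, d, ht, hd, ψ, hψ, e⟩ := hdec (p i) (hp i)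
      have h1 : Y c x p = ∑ l, d l * Y c x (Function.update p i (t l)) +
          Y c x (Function.update p i (ψ, 0)) := by
        conv_lhs => rw [← Function.update_eq_self i p, e]
        rw [MultilinearMap.map_update_add, MultilinearMap.map_update_sum]
        congr 1
        refine Finset.sum_congr rfl fun l _ => ?_
        rw [MultilinearMap.map_update_smul, smul_eq_mul]
      rw [h1]
      refine Z.add_mem (Z.sum_mem fun l _ => Z.mul_mem (hd l) ?_) ?_
      · refine hspec (t l) (ht l) _ i (fun j hj => ?_) (Function.update_self ..)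
        rw [Function.update_of_ne hj]
        exact hp j
      · refine ih _ (fun j => ?_) (fun j hj => ?_)
        · by_cases hji : j = i
          · subst hji; rw [Function.update_self]; exact hψ
          · rw [Function.update_of_ne hji]; exact hp j
        · by_cases hji : j = i
          · subst hji; rw [Function.update_self]
          · rw [Function.update_of_ne hji]
            exact h0 j fun h => hji ((Finset.mem_insert.1 h).resolve_right hj)
  exact key Finset.univ p hp fun i hi => absurd (Finset.mem_univ i) hi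

/-- the last column `a e + z` -/
theorem target {r n : ℕ} (c : Fin n → R) (x : Fin n → Fin r → A) (Z : Subring R) (δ e : R)
    (f : Fin (r + 1) → A → R) (a z : Fin (r + 1) → R) (hδe : δ * e ∈ Z) (hz : ∀ i, z i ∈ Z)
    (hY : Y c x (fun i => (f i, a i)) ∈ Z)
    (hm : ∀ i : Fin (r + 1), δ * ∑ k, c k * Matrix.det (Matrix.of fun (b j : Fin r) =>
      f (i.succAbove b) (x k j)) ∈ Z) :
    δ * Y c x (fun i => (f i, a i * e + z i)) ∈ Z := by
  have h : δ * Y c x (fun i => (f i, a i * e + z i)) = δ * e * Y c x (fun i => (f i, a i)) +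
      ∑ i : Fin (r + 1), (-1) ^ ((i : ℕ) + ((Fin.last r : Fin (r + 1)) : ℕ)) * z i *
        (δ * ∑ k, c k * Matrix.det (Matrix.of fun (b j : Fin r) =>
          f (i.succAbove b) (x k j))) := by
    rw [Y_col, Y_col, Finset.mul_sum, Finset.mul_sum, ← Finset.sum_add_distrib]
    refine Finset.sum_congr rfl fun i _ => ?_
    dsimp only
    ring
  rw [h]
  refine Z.add_mem (Z.mul_mem hδe hY) (Z.sum_mem fun i _ => Z.mul_mem (Z.mul_mem
    (Z.pow_mem (Z.neg_mem Z.one_mem) _) (hz i)) (hm i))

end Pool.Agent.U360.AS
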