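import Pool.Agent.U360.AS.Alg1
import Pool.Agent.U360.RS.Alg

/-!
# The algebra of the passage from `S` to `S ∪ {v}`
-/

set_option autoImplicit false
set_option linter.unusedSectionVars false

noncomputable section

namespace Pool.Agent.U360.AS

open Pool.Agent.K3h30.RS Pool.Agent.U360.RS

section

variable {G A : Type} [CommGroup G] [Finite G] [AddCommGroup A] [DistribMulAction G A]

/-- the integral elements of `ℚ[G]` -/
abbrev ZG (G : Type) [CommGroup G] [Finite G] : Subring (MonoidAlgebra ℚ G) :=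
  (toQ (G := G)).range

theorem mem_ZG (z : MonoidAlgebra ℚ G) :
    z ∈ ZG G ↔ ∀ γ, ((z.coeff γ : ℚ) : QZ) = 0 := by
  rw [mem_range_toQ]
  exact forall_congr' fun γ => (QZ_zero _).symm

theorem sub_mem_ZG (z z' : MonoidAlgebra ℚ G) :
    z - z' ∈ ZG G ↔ ∀ γ, ((z.coeff γ : ℚ) : QZ) = ((z'.coeff γ : ℚ) : QZ) := by
  rw [mem_ZG]
  refine forall_congr' fun γ => ?_
  rw [MonoidAlgebra.coeff_sub, Finsupp.sub_apply, AddCircle.coe_sub, sub_eq_zero]

theorem coeff_toQ_mul [Fintype G] (b : MonoidAlgebra ℤ G) (z : MonoidAlgebra ℚ G) (γ : G) :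
    (toQ b * z).coeff γ = ∑ g : G, (b.coeff g : ℚ) * z.coeff (g⁻¹ * γ) := by
  classical
  have hb : b = ∑ g : G, MonoidAlgebra.single g (b.coeff g) := by
    ext γ'
    rw [MonoidAlgebra.coeff_sum, Finsupp.finsetSum_apply, Finset.sum_eq_single γ']
    · rw [MonoidAlgebra.coeff_single, Finsupp.single_eq_same]
    · intro g _ hg
      rw [MonoidAlgebra.coeff_single, Finsupp.single_apply, if_neg hg]
    · intro h; exact absurd (Finset.mem_univ _) h
  conv_lhs => rw [hb]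
  rw [map_sum, Finset.sum_mul, MonoidAlgebra.coeff_sum, Finsupp.finsetSum_apply]
  refine Finset.sum_congr rfl fun g _ => ?_
  rw [toQ, MonoidAlgebra.mapRingHom_single, MonoidAlgebra.coeff_single_mul_apply]
  rfl

/-- the function `e` lifts the values of `χ` -/
def IsLift (χ : A →+ QZ) (e : A → MonoidAlgebra ℚ G) : Prop :=
  ∀ (u : A) (γ : G), (((e u).coeff γ : ℚ) : QZ) = χ (γ⁻¹ • u)

theorem exists_isLift (χ : A →+ QZ) : ∃ e : A → MonoidAlgebra ℚ G, IsLift χ e := by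
  classical
  have h : ∀ (u : A) (γ : G), ∃ q : ℚ, ((q : ℚ) : QZ) = χ (γ⁻¹ • u) := fun u γ =>
    QuotientAddGroup.mk_surjective _
  choose q hq using h
  refine ⟨fun u => MonoidAlgebra.ofCoeff (Finsupp.equivFunOnFinite.symm (q u)), fun u γ => ?_⟩
  rw [← hq]
  rfl

/-- equivariance -/
def IsEq (f : A →+ MonoidAlgebra ℚ G) : Prop :=
  ∀ (γ : G) (a : A), f (γ • a) = MonoidAlgebra.single γ 1 * f a

theorem IsEq.coeff {f : A →+ MonoidAlgebra ℚ G} (hf : IsEq f) (a : A) (γ : G) :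
    (f a).coeff γ = (f (γ⁻¹ • a)).coeff 1 := coeff_equiv f hf a γ

/-- the combination of characters -/
theorem exists_comb (χ : A →+ QZ) (e : A → MonoidAlgebra ℚ G) (he : IsLift χ e) (m : ℕ)
    (hm0 : 0 < m) (hm : ∀ a, m • χ a = 0) (f : A →+ MonoidAlgebra ℚ G) (hf : IsEq f)
    (hi : ∀ a, (∀ γ : G, χ (γ • a) = 0) → f a ∈ ZG G) :
    ∃ b : MonoidAlgebra ℤ G, ∀ u, f u - toQ b * e u ∈ ZG G := by
  classical
  have := Fintype.ofFinite G
  let κ : A →+ QZ :=
    { toFun := fun a => (((f a).coeff 1 : ℚ) : QZ)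
      map_zero' := by simp
      map_add' := fun a b => by
        rw [map_add, MonoidAlgebra.coeff_add, Finsupp.add_apply, AddCircle.coe_add] }
  obtain ⟨n, hn⟩ := Pool.Agent.K3h12.RSE.comb (J := G) m hm0
    (fun j => χ.comp (DistribSMul.toAddMonoidHom A j)) (fun j a => hm _) κ (by
      intro a ha
      exact (mem_ZG _).1 (hi a fun γ => ha γ) 1)
  refine ⟨MonoidAlgebra.ofCoeff (Finsupp.equivFunOnFinite.symm n), fun u => ?_⟩
  rw [sub_mem_ZG]
  intro γ
  rw [hf.coeff, coeff_toQ_mul]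
  have h1 : (((f (γ⁻¹ • u)).coeff 1 : ℚ) : QZ) = ∑ j, n j • χ (j • (γ⁻¹ • u)) := hn _
  rw [h1]
  have h2 : ((∑ g : G, (((MonoidAlgebra.ofCoeff (Finsupp.equivFunOnFinite.symm n) :
      MonoidAlgebra ℤ G).coeff g : ℤ) : ℚ) * (e u).coeff (g⁻¹ * γ) : ℚ) : QZ) =
      ∑ g : G, n g • (((e u).coeff (g⁻¹ * γ) : ℚ) : QZ) := by
    rw [← QuotientAddGroup.mk'_apply, map_sum]
    refine Finset.sum_congr rfl fun g _ => ?_
    rw [QuotientAddGroup.mk'_apply]
    have : ((((MonoidAlgebra.ofCoeff (Finsupp.equivFunOnFinite.symm n) :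
      MonoidAlgebra ℤ G).coeff g : ℤ) : ℚ) * (e u).coeff (g⁻¹ * γ) : ℚ) =
        n g • (e u).coeff (g⁻¹ * γ) := by
      rw [zsmul_eq_mul]; rfl
    rw [this]
    rfl
  rw [h2]
  refine Finset.sum_congr rfl fun g _ => ?_
  rw [he, smul_smul, mul_inv_rev, inv_inv, mul_comm g]

/-- the Frobenius relation -/
theorem frob_e (χ : A →+ QZ) (e : A → MonoidAlgebra ℚ G) (he : IsLift χ e) (q : ℕ) (σ : G)
    (hfr : ∀ a, χ (σ • a) = q • χ a) (u : A) :
    (1 - MonoidAlgebra.single σ⁻¹ (q : ℚ)) * e u ∈ ZG G := by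
  rw [mem_ZG]
  intro γ
  rw [coeff_delta_mul, AddCircle.coe_sub, ← nsmul_eq_mul, AddCircle.coe_nsmul, he, he,
    ← hfr, smul_smul, mul_inv_rev, ← mul_assoc, mul_comm σ, mul_assoc, mul_inv_cancel, mul_one,
    sub_self]

/-- `δ e` and `e` at `δ u` -/
theorem delta_e (χ : A →+ QZ) (e : A → MonoidAlgebra ℚ G) (he : IsLift χ e) (q : ℕ) (σ : G)
    (lam : A →+ MonoidAlgebra ℚ G) (hlam : IsEq lam) (B : AddSubgroup A)
    (hB : ∀ u ∈ B, lam u - e u ∈ ZG G) (hδ : ∀ u, u - q • (σ⁻¹ • u) ∈ B) (u : A) :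
    (1 - MonoidAlgebra.single σ⁻¹ (q : ℚ)) * lam u -
      (1 - MonoidAlgebra.single σ⁻¹ (q : ℚ)) * e u ∈ ZG G := by
  have h1 : (1 - MonoidAlgebra.single σ⁻¹ (q : ℚ)) * lam u = lam (u - q • (σ⁻¹ • u)) := by
    rw [map_sub, map_nsmul, hlam, sub_mul, one_mul]
    congr 1
    rw [← smul_mul_assoc, MonoidAlgebra.smul_single, nsmul_eq_mul, mul_one]
  have h2 := hB _ (hδ u)
  rw [sub_mem_ZG] at h2 ⊢
  intro γ
  rw [h1, h2, he, coeff_delta_mul, AddCircle.coe_sub, ← nsmul_eq_mul, AddCircle.coe_nsmul, he, he,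
    smul_sub, map_sub, mul_inv_rev, mul_smul, smul_comm γ⁻¹ q, map_nsmul]

/-- lifting the character on a torsion free subgroup -/
theorem lift_on [AddGroup.FG A] (χ : A →+ QZ) (e : A → MonoidAlgebra ℚ G) (he : IsLift χ e)
    (B : AddSubgroup A) (hst : ∀ (γ : G), ∀ u ∈ B, γ • u ∈ B)
    (htor : ∀ b ∈ B, IsOfFinAddOrder b → b = 0) :
    ∃ lam : A →+ MonoidAlgebra ℚ G, IsEq lam ∧ ∀ u ∈ B, lam u - e u ∈ ZG G := by
  classical
  let T : AddSubgroup A := AddCommGroup.torsion A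
  let i : (B × T) →+ A := (B.subtype).coprod T.subtype
  have hinj : Function.Injective i := by
    rw [injective_iff_map_eq_zero]
    rintro ⟨b, t⟩ h
    have h1 : (b : A) + (t : A) = 0 := h
    have h2 : (b : A) = -(t : A) := eq_neg_of_add_eq_zero_left h1
    have h3 : IsOfFinAddOrder (b : A) := by
      rw [h2]
      exact IsOfFinAddOrder.neg (t.2 : IsOfFinAddOrder (t : A))
    have h4 := htor _ b.2 h3
    have h5 : (t : A) = 0 := by rw [h4, zero_add] at h1; exact h1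
    exact Prod.ext (Subtype.ext h4) (Subtype.ext h5)
  obtain ⟨χ', hχ'⟩ := (Module.Baer.of_divisible QZ).extension_property_addMonoidHom i hinj
    ((χ.comp B.subtype).comp (AddMonoidHom.fst B T))
  have h1 : ∀ b : B, χ' b = χ b := by
    intro b
    have h := DFunLike.congr_fun hχ' (b, (0 : T))
    have e1 : i (b, (0 : T)) = (b : A) := by
      change (b : A) + ((0 : T) : A) = b
      rw [AddSubgroup.coe_zero, add_zero]
    rw [AddMonoidHom.comp_apply, e1] at h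
    exact h
  have h2 : ∀ a : A, IsOfFinAddOrder a → χ' a = 0 := by
    intro a ha
    have h := DFunLike.congr_fun hχ' ((0 : B), (⟨a, ha⟩ : T))
    have e1 : i ((0 : B), (⟨a, ha⟩ : T)) = a := by
      change ((0 : B) : A) + a = a
      rw [AddSubgroup.coe_zero, zero_add]
    rw [AddMonoidHom.comp_apply, e1] at h
    rw [h]
    change χ ((0 : B) : A) = 0
    rw [AddSubgroup.coe_zero, map_zero]
  obtain ⟨g, hg⟩ := lift_tors χ' h2
  refine ⟨toGQ g, fun γ a => toGQ_smul g γ a, fun u hu => ?_⟩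
  rw [sub_mem_ZG]
  intro γ
  rw [coeff_toGQ, hg, he]
  exact h1 ⟨γ⁻¹ • u, hst γ⁻¹ u hu⟩

/-- **The key integrality.** -/
theorem up_alg [AddGroup.FG A] {r n : ℕ} (c : Fin n → MonoidAlgebra ℚ G) (x : Fin n → Fin r → A)
    (χ : A →+ QZ) (e : A → MonoidAlgebra ℚ G) (he : IsLift χ e) (I : Type) (q : I → ℕ)
    (σ : I → G) (B : I → AddSubgroup A) (hst : ∀ l (γ : G), ∀ u ∈ B l, γ • u ∈ B l)
    (htor : ∀ l, ∀ b ∈ B l, IsOfFinAddOrder b → b = 0)
    (hδ : ∀ l u, u - q l • ((σ l)⁻¹ • u) ∈ B l)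
    (hP : ∀ l (ρ : Fin r → A →+ MonoidAlgebra ℚ G), (∀ i, IsEq (ρ i)) →
      (∀ i, ∀ u ∈ B l, ρ i u ∈ ZG G) →
      (1 - MonoidAlgebra.single (σ l)⁻¹ (q l : ℚ)) *
        ∑ k, c k * Matrix.det (Matrix.of fun i j => ρ i (x k j)) ∈ ZG G)
    (hid : ∀ a : MonoidAlgebra ℤ G, (∀ u : A, IsOfFinAddOrder u → toQ a * e u ∈ ZG G) →
      ∃ (m : ℕ) (l : Fin m → I) (d : Fin m → MonoidAlgebra ℤ G),
        toQ a = ∑ j, toQ (d j) * (1 - MonoidAlgebra.single (σ (l j))⁻¹ (q (l j) : ℚ)))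
    (f : Fin (r + 1) → A →+ MonoidAlgebra ℚ G) (hf : ∀ i, IsEq (f i))
    (a : Fin (r + 1) → MonoidAlgebra ℤ G) (hfa : ∀ i u, f i u - toQ (a i) * e u ∈ ZG G) :
    Y c x (fun i => (⇑(f i), toQ (a i))) ∈ ZG G := by
  classical
  choose lam hlam1 hlam2 using fun l => lift_on χ e he (B l) (hst l) (htor l)
  have hlam3 := fun l => delta_e χ e he (q l) (σ l) (lam l) (hlam1 l) (B l) (hlam2 l) (hδ l)
  let P : Set ((A → MonoidAlgebra ℚ G) × MonoidAlgebra ℚ G) :=
    {p | ∃ (g : A →+ MonoidAlgebra ℚ G) (b : MonoidAlgebra ℤ G), IsEq g ∧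
      (∀ u, g u - toQ b * e u ∈ ZG G) ∧ p = (⇑g, toQ b)}
  let S : Set ((A → MonoidAlgebra ℚ G) × MonoidAlgebra ℚ G) :=
    {p | ∃ l, p = (fun u => (1 - MonoidAlgebra.single (σ l)⁻¹ (q l : ℚ)) * lam l u,
      1 - MonoidAlgebra.single (σ l)⁻¹ (q l : ℚ))}
  refine reduce c x (ZG G) P S ?_ ?_ _ fun i => ⟨f i, a i, hf i, hfa i, rfl⟩
  · rintro s ⟨l, rfl⟩ p i hp hpi
    choose! g b hg1 hg2 hg3 using hp
    refine special c x (ZG G) _ (lam l) p i (fun j => toQ (b j))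
      (fun j u => g j u - toQ (b j) * lam l u) hpi (fun j hj => ?_) ?_
    · rw [hg3 j hj]
      apply Prod.ext
      · funext u
        dsimp only
        ring
      · rfl
    · have h1 := hP l (fun j => g (i.succAbove j) -
          (AddMonoidHom.mulLeft (toQ (b (i.succAbove j)))).comp (lam l)) (fun j => ?_)
        (fun j u hu => ?_)
      · exact h1
      · intro γ u
        rw [AddMonoidHom.sub_apply, AddMonoidHom.sub_apply, AddMonoidHom.comp_apply,
          AddMonoidHom.comp_apply, AddMonoidHom.coe_mulLeft,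
          hg1 _ (Fin.succAbove_ne i j) γ u, hlam1 l γ u]
        ring
      · rw [AddMonoidHom.sub_apply, AddMonoidHom.comp_apply, AddMonoidHom.coe_mulLeft]
        have h2 := hg2 _ (Fin.succAbove_ne i j) u
        have h3 := hlam2 l u hu
        have h4 : g (i.succAbove j) u - toQ (b (i.succAbove j)) * lam l u =
            (g (i.succAbove j) u - toQ (b (i.succAbove j)) * e u) -
              toQ (b (i.succAbove j)) * (lam l u - e u) := by ring
        rw [h4]
        exact (ZG G).sub_mem h2 ((ZG G).mul_mem ⟨_, rfl⟩ h3)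
  · rintro p ⟨g, b, hg1, hg2, rfl⟩
    obtain ⟨m, l, d, hd⟩ := hid b fun u hu => by
      have h1 : g u = 0 := by
        obtain ⟨n, hn, h2⟩ := isOfFinAddOrder_iff_nsmul_eq_zero.1 hu
        have h3 : n • g u = 0 := by rw [← map_nsmul, h2, map_zero]
        rw [nsmul_eq_mul] at h3
        exact natCast_cancel hn (h3.trans (mul_zero _).symm)
      have h2 := hg2 u
      rw [h1, zero_sub] at h2
      simpa using (ZG G).neg_mem h2
    let ψ : A →+ MonoidAlgebra ℚ G := g - ∑ j, (AddMonoidHom.mulLeft (toQ (d j) *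
      (1 - MonoidAlgebra.single (σ (l j))⁻¹ (q (l j) : ℚ)))).comp (lam (l j))
    have hψ : ∀ u, ψ u = g u - ∑ j, (toQ (d j) *
        (1 - MonoidAlgebra.single (σ (l j))⁻¹ (q (l j) : ℚ))) * lam (l j) u := by
      intro u
      change (g - ∑ j, (AddMonoidHom.mulLeft (toQ (d j) *
        (1 - MonoidAlgebra.single (σ (l j))⁻¹ (q (l j) : ℚ)))).comp (lam (l j))) u = _
      rw [AddMonoidHom.sub_apply, AddMonoidHom.finsetSum_apply]
      rfl
    refine ⟨m, fun j => (fun u => (1 - MonoidAlgebra.single (σ (l j))⁻¹ (q (l j) : ℚ)) *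
        lam (l j) u, 1 - MonoidAlgebra.single (σ (l j))⁻¹ (q (l j) : ℚ)), fun j => toQ (d j),
      fun j => ⟨l j, rfl⟩, fun j => ⟨_, rfl⟩, ⇑ψ, ⟨ψ, 0, ?_, ?_, by rw [map_zero]⟩, ?_⟩
    · intro γ u
      rw [hψ, hψ, hg1 γ u, mul_sub, Finset.mul_sum]
      congr 1
      refine Finset.sum_congr rfl fun j _ => ?_
      rw [hlam1 (l j) γ u]
      ring
    · intro u
      rw [map_zero, zero_mul, sub_zero, hψ]
      have h1 : g u - ∑ j, (toQ (d j) *
          (1 - MonoidAlgebra.single (σ (l j))⁻¹ (q (l j) : ℚ))) * lam (l j) u =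
          (g u - toQ b * e u) - ∑ j, toQ (d j) *
            ((1 - MonoidAlgebra.single (σ (l j))⁻¹ (q (l j) : ℚ)) * lam (l j) u -
              (1 - MonoidAlgebra.single (σ (l j))⁻¹ (q (l j) : ℚ)) * e u) := by
        have e1 : ∑ j, toQ (d j) *
            ((1 - MonoidAlgebra.single (σ (l j))⁻¹ (q (l j) : ℚ)) * lam (l j) u -
              (1 - MonoidAlgebra.single (σ (l j))⁻¹ (q (l j) : ℚ)) * e u) =
            ∑ j, (toQ (d j) * (1 - MonoidAlgebra.single (σ (l j))⁻¹ (q (l j) : ℚ))) *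
              lam (l j) u - toQ b * e u := by
          rw [hd, Finset.sum_mul, ← Finset.sum_sub_distrib]
          exact Finset.sum_congr rfl fun j _ => by ring
        rw [e1]
        ring
      rw [h1]
      exact (ZG G).sub_mem (hg2 u) ((ZG G).sum_mem fun j _ =>
        (ZG G).mul_mem ⟨_, rfl⟩ (hlam3 (l j) u))
    · apply Prod.ext
      · funext u
        rw [Prod.fst_add, Pi.add_apply, Prod.fst_sum, Finset.sum_apply]
        dsimp only
        rw [hψ]
        simp only [Prod.smul_fst, Pi.smul_apply, smul_eq_mul, mul_assoc]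
        ring
      · rw [Prod.snd_add, Prod.snd_sum]
        dsimp only
        rw [hd, add_zero]
        rfl

end

end Pool.Agent.U360.AS
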