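import Pool.Agent.U360.RS.Main

/-!
# The annihilator of the roots of unity
-/

set_option autoImplicit false
set_option linter.unusedSectionVars false

open NumberField IsDedekindDomain Filter Topology

noncomputable section

namespace Pool.Agent.U360.AS

open Pool.Agent.K3h30.RS Pool.Agent.U360.RS Pool.Agent.K3h43.RS Pool.Agent.K3h8.RS

variable {F H G : Type} [Field F] [NumberField F] [Field H] [NumberField H] [Algebra F H]
  [CommGroup G] [Finite G] [MulSemiringAction G H]

/-- the element `1 - N v σ_v⁻¹` of `ℤ[G]` -/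
def dZ (D : RubinData F H G) (v : HeightOneSpectrum (𝓞 F)) : MonoidAlgebra ℤ G :=
  1 - MonoidAlgebra.single (D.σ v)⁻¹ (Ideal.absNorm v.asIdeal : ℤ)

theorem toQ_dZ (D : RubinData F H G) (v : HeightOneSpectrum (𝓞 F)) :
    toQ (dZ D v) = 1 - MonoidAlgebra.single (D.σ v)⁻¹ (Ideal.absNorm v.asIdeal : ℚ) := by
  rw [dZ, map_sub, map_one, toQ, MonoidAlgebra.mapRingHom_single]
  congr 2

/-- the ideal generated by the `1 - N v σ_v⁻¹`, `v ∉ bad` -/
def annI (D : RubinData F H G) (bad : Finset (HeightOneSpectrum (𝓞 F))) :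
    Ideal (MonoidAlgebra ℤ G) :=
  Ideal.span {z | ∃ v, v ∉ bad ∧ z = dZ D v}

theorem dZ_mem (D : RubinData F H G) {bad : Finset (HeightOneSpectrum (𝓞 F))}
    {v : HeightOneSpectrum (𝓞 F)} (hv : v ∉ bad) : dZ D v ∈ annI D bad :=
  Ideal.subset_span ⟨v, hv, rfl⟩

theorem mem_annI (D : RubinData F H G) {bad : Finset (HeightOneSpectrum (𝓞 F))}
    {a : MonoidAlgebra ℤ G} (h : a ∈ annI D bad) :
    ∃ (m : ℕ) (l : Fin m → {v // v ∉ bad}) (d : Fin m → MonoidAlgebra ℤ G),
      a = ∑ j, d j * dZ D (l j).1 := by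
  obtain ⟨m, d, g, hg⟩ := Submodule.mem_span_set'.1 h
  choose v hv hv' using fun i => (g i).2
  refine ⟨m, fun j => ⟨v j, hv j⟩, d, ?_⟩
  rw [← hg]
  refine Finset.sum_congr rfl fun j _ => ?_
  rw [smul_eq_mul, hv' j]

/-- a prime ideal with given Frobenius automorphism in `G` -/
theorem exists_sigma [hG : IsGaloisGroup G F H] (D : RubinData F H G) (g : G)
    (bad : Finset (HeightOneSpectrum (𝓞 F))) : ∃ v, v ∉ bad ∧ v ∉ D.S ∧ D.σ v = g := by
  classical
  obtain ⟨L, i1, i2, i3, i4, i5, hgal, -, -⟩ := exists_field' F H 1 one_pos (∅ : Finset Hˣ)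
  -- an extension of `g` to `L`
  have hgalH : IsGalois F H := hG.isGalois
  let g' : H ≃ₐ[F] H := IsGaloisGroup.mulEquivAlgEquiv G F H g
  let Φ : L ≃ₐ[F] L := AlgEquiv.liftNormal g' L
  obtain ⟨v, hv, hΦ⟩ := exists_prime F L Φ (bad ∪ D.S)
  rw [Finset.mem_union, not_or] at hv
  refine ⟨v, hv.1, hv.2, ?_⟩
  obtain ⟨P, w, -, -, -, -, h⟩ := frob_data D Φ v hv.2 hΦ
  have : FaithfulSMul G H := hG.faithful
  apply FaithfulSMul.eq_of_smul_eq_smul (M := G) (α := H)
  intro x
  apply (algebraMap H L).injective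
  rw [← h x, AlgEquiv.liftNormal_commutes]
  rfl

/-- **The annihilator of the roots of unity is generated by the `1 - N v σ_v⁻¹`.** -/
theorem exists_root [hG : IsGaloisGroup G F H] (D : RubinData F H G)
    (bad : Finset (HeightOneSpectrum (𝓞 F))) :
    ∃ n : ℕ, 0 < n ∧ ((n : ℤ) : MonoidAlgebra ℤ G) ∈ annI D bad ∧
      (∃ τ : Hˣ, orderOf τ = n) ∧
      ∀ a : MonoidAlgebra ℤ G, ∃ k : ℤ, a - (k : MonoidAlgebra ℤ G) ∈ annI D bad := by
  classical
  let J : Ideal ℤ := Ideal.comap (Int.castRingHom (MonoidAlgebra ℤ G)) (annI D bad)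
  have hJ : ∀ k : ℤ, k ∈ J ↔ (k : MonoidAlgebra ℤ G) ∈ annI D bad := fun k => Iff.rfl
  obtain ⟨n, hn⟩ : ∃ n : ℕ, n = (Submodule.IsPrincipal.generator J).natAbs := ⟨_, rfl⟩
  have hgen : ∀ k : ℤ, k ∈ J ↔ (n : ℤ) ∣ k := by
    intro k
    rw [hn, Int.natAbs_dvd, ← Submodule.IsPrincipal.mem_iff_generator_dvd J]
  have hone : ∀ v, v ∉ bad → D.σ v = 1 → (n : ℤ) ∣ (Ideal.absNorm v.asIdeal : ℤ) - 1 := by
    intro v hv hσ
    rw [← hgen, hJ]
    have h1 := dZ_mem D hv
    have h2 : (((Ideal.absNorm v.asIdeal : ℤ) - 1 : ℤ) : MonoidAlgebra ℤ G) = -dZ D v := by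
      rw [dZ, hσ, inv_one]
      have : (MonoidAlgebra.single (1 : G) (Ideal.absNorm v.asIdeal : ℤ) : MonoidAlgebra ℤ G) =
          ((Ideal.absNorm v.asIdeal : ℤ) : MonoidAlgebra ℤ G) := by
        rw [← mul_one (Ideal.absNorm v.asIdeal : ℤ), ← smul_eq_mul, ← MonoidAlgebra.smul_single,
          ← MonoidAlgebra.one_def, zsmul_eq_mul]
        simp
      rw [this]
      push_cast
      ring
    rw [h2]
    exact (annI D bad).neg_mem h1
  have hn0 : 0 < n := by
    obtain ⟨v, hv, -, hσ⟩ := exists_sigma D (1 : G) bad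
    have h1 := hone v hv hσ
    have h2 := Pool.Agent.K3h62.RS.two_le_absNorm v
    rcases Nat.eq_zero_or_pos n with h | h
    · rw [h] at h1
      have h3 : (Ideal.absNorm v.asIdeal : ℤ) - 1 = 0 := by simpa using h1
      omega
    · exact h
  have hnI : ((n : ℤ) : MonoidAlgebra ℤ G) ∈ annI D bad := (hJ n).1 ((hgen n).2 dvd_rfl)
  refine ⟨n, hn0, hnI, ?_, ?_⟩
  · -- the root of unity
    obtain ⟨L, i1, i2, i3, i4, i5, hgal, ⟨ζ, hζ⟩, -⟩ := exists_field' F H n hn0 (∅ : Finset Hˣ)
    have hfin : {v : HeightOneSpectrum (𝓞 F) | v.valuation F ((n : ℕ) : F) < 1}.Finite :=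
      Pool.Agent.K3h43.RS.finite_lt (H := F) ((n : ℕ) : F) (Nat.cast_ne_zero.2 hn0.ne')
    have hfix : ∀ Φ : L ≃ₐ[F] L, (∀ x : H, Φ (algebraMap H L x) = algebraMap H L x) →
        Φ (ζ : L) = (ζ : L) := by
      intro Φ hΦH
      obtain ⟨v, hv, hΦ⟩ := exists_prime F L Φ (bad ∪ D.S ∪ hfin.toFinset)
      simp only [Finset.mem_union, not_or, Set.Finite.mem_toFinset, Set.mem_ofPred_eq,
        not_lt] at hv
      obtain ⟨⟨hv1, hv2⟩, hv3⟩ := hv
      obtain ⟨P, w, hPw, hwv, hPv, hΦP, h⟩ := frob_data D Φ v hv2 hΦ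
      have hσ : D.σ v = 1 := by
        have : FaithfulSMul G H := hG.faithful
        apply FaithfulSMul.eq_of_smul_eq_smul (M := G) (α := H)
        intro x
        apply (algebraMap H L).injective
        rw [← h x, hΦH, one_smul]
      obtain ⟨k, hk⟩ := hone v hv1 hσ
      have hvn : v.valuation F ((n : ℕ) : F) = 1 := by
        refine le_antisymm ?_ hv3
        have e : (((n : ℕ) : 𝓞 F) : F) = ((n : ℕ) : F) := map_natCast (algebraMap (𝓞 F) F) n
        rw [← e]
        exact v.valuation_le_one (K := F) ((n : ℕ) : 𝓞 F)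
      have hPn : P.valuation L ((n : ℕ) : L) = 1 := by
        have := val_eq v P hPv ((n : ℕ) : F) hvn
        rwa [map_natCast] at this
      have h1 := frob_root P Φ (Ideal.absNorm v.asIdeal) n hn0 hΦP hPn ζ (by
        rw [← hζ]; exact pow_orderOf_eq_one ζ)
      have h2 : ζ ^ Ideal.absNorm v.asIdeal = ζ := by
        have h3 : ζ ^ ((Ideal.absNorm v.asIdeal : ℤ) - 1) = 1 := by
          rw [hk, zpow_mul, zpow_natCast, ← hζ, pow_orderOf_eq_one, one_zpow]
        have h4 : ζ ^ ((Ideal.absNorm v.asIdeal : ℤ)) = ζ := by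
          rw [← sub_add_cancel (Ideal.absNorm v.asIdeal : ℤ) 1, zpow_add, h3, one_mul, zpow_one]
        rwa [zpow_natCast] at h4
      rw [h2] at h1
      exact congrArg Units.val h1
    have hgalHL : IsGalois H L := IsGalois.tower_top_of_isGalois F H L
    have h1 : (ζ : L) ∈ Set.range (algebraMap H L) := by
      rw [IsGalois.mem_range_algebraMap_iff_fixed]
      intro f
      exact hfix (f.restrictScalars F) fun x => f.commutes x
    obtain ⟨y, hy⟩ := h1
    have hy0 : y ≠ 0 := by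
      rintro rfl
      rw [map_zero] at hy
      exact ζ.ne_zero hy.symm
    refine ⟨Units.mk0 y hy0, ?_⟩
    rw [← hζ, ← orderOf_injective (Units.map (algebraMap H L : H →* L))
      (Units.map_injective (algebraMap H L).injective) (Units.mk0 y hy0)]
    congr 1
    exact Units.ext hy
  · -- every element is congruent to an integer
    have hg : ∀ g : G, ∃ k : ℤ, MonoidAlgebra.single g (1 : ℤ) - (k : MonoidAlgebra ℤ G) ∈
        annI D bad := by
      intro g
      obtain ⟨v, hv, -, hσ⟩ := exists_sigma D g⁻¹ bad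
      obtain ⟨q, hq⟩ : ∃ q : ℤ, q = (Ideal.absNorm v.asIdeal : ℤ) := ⟨_, rfl⟩
      have h1 : (1 : MonoidAlgebra ℤ G) - (q : MonoidAlgebra ℤ G) * MonoidAlgebra.single g 1 ∈
          annI D bad := by
        have h2 := dZ_mem D hv
        rw [dZ, hσ, inv_inv, ← hq] at h2
        have : (MonoidAlgebra.single g q : MonoidAlgebra ℤ G) =
            (q : MonoidAlgebra ℤ G) * MonoidAlgebra.single g 1 := by
          rw [← zsmul_eq_mul, MonoidAlgebra.smul_single, smul_eq_mul, mul_one]
        rwa [this] at h2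
      have h2 : (q : ℤ) ^ orderOf g - 1 ∈ J := by
        rw [hJ]
        have h3 : (1 : MonoidAlgebra ℤ G) -
            ((q : MonoidAlgebra ℤ G) * MonoidAlgebra.single g 1) ^ orderOf g ∈ annI D bad := by
          have h4 : (1 : MonoidAlgebra ℤ G) - (q : MonoidAlgebra ℤ G) * MonoidAlgebra.single g 1 ∣
              1 ^ orderOf g - ((q : MonoidAlgebra ℤ G) * MonoidAlgebra.single g 1) ^ orderOf g :=
            sub_dvd_pow_sub_pow _ _ _
          rw [one_pow] at h4
          exact (annI D bad).mem_of_dvd h4 h1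
        have h5 : (((q : ℤ) ^ orderOf g - 1 : ℤ) : MonoidAlgebra ℤ G) = -((1 : MonoidAlgebra ℤ G) -
            ((q : MonoidAlgebra ℤ G) * MonoidAlgebra.single g 1) ^ orderOf g) := by
          rw [mul_pow, MonoidAlgebra.single_pow, pow_orderOf_eq_one, one_pow,
            ← MonoidAlgebra.one_def, mul_one]
          push_cast
          ring
        rw [h5]
        exact (annI D bad).neg_mem h3
      obtain ⟨s, hs⟩ := (hgen _).1 h2
      have hpos : 0 < orderOf g := orderOf_pos g
      have hcop : IsCoprime q (n : ℤ) := by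
        refine ⟨q ^ (orderOf g - 1), -s, ?_⟩
        have : q ^ (orderOf g - 1) * q = q ^ orderOf g := by
          rw [← pow_succ, Nat.sub_add_cancel hpos]
        rw [this]
        linarith
      obtain ⟨k, t, hkt⟩ := hcop
      refine ⟨k, ?_⟩
      have e : MonoidAlgebra.single g (1 : ℤ) - (k : MonoidAlgebra ℤ G) =
          -((k : MonoidAlgebra ℤ G) * (1 - (q : MonoidAlgebra ℤ G) * MonoidAlgebra.single g 1)) +
          ((t : MonoidAlgebra ℤ G) * MonoidAlgebra.single g 1) * ((n : ℤ) : MonoidAlgebra ℤ G) := by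
        have h3 : (k : MonoidAlgebra ℤ G) * (q : MonoidAlgebra ℤ G) +
            (t : MonoidAlgebra ℤ G) * ((n : ℤ) : MonoidAlgebra ℤ G) = 1 := by
          rw [← Int.cast_mul, ← Int.cast_mul, ← Int.cast_add, hkt, Int.cast_one]
        linear_combination (-MonoidAlgebra.single g (1 : ℤ)) * h3
      rw [e]
      exact (annI D bad).add_mem ((annI D bad).neg_mem ((annI D bad).mul_mem_left _ h1))
        ((annI D bad).mul_mem_left _ hnI)
    choose kg hkg using hg
    intro a
    have := Fintype.ofFinite G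
    have ha : a = ∑ g : G, (a.coeff g : MonoidAlgebra ℤ G) * MonoidAlgebra.single g 1 := by
      ext γ'
      rw [MonoidAlgebra.coeff_sum, Finsupp.finsetSum_apply, Finset.sum_eq_single γ']
      · rw [← zsmul_eq_mul, MonoidAlgebra.smul_single, smul_eq_mul, mul_one,
          MonoidAlgebra.coeff_single, Finsupp.single_eq_same]
      · intro g _ hg
        rw [← zsmul_eq_mul, MonoidAlgebra.smul_single, smul_eq_mul, mul_one,
          MonoidAlgebra.coeff_single, Finsupp.single_apply, if_neg hg]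
      · intro h; exact absurd (Finset.mem_univ _) h
    refine ⟨∑ g : G, a.coeff g * kg g, ?_⟩
    have e : a - ((∑ g : G, a.coeff g * kg g : ℤ) : MonoidAlgebra ℤ G) =
        ∑ g : G, (a.coeff g : MonoidAlgebra ℤ G) *
          (MonoidAlgebra.single g 1 - (kg g : MonoidAlgebra ℤ G)) := by
      conv_lhs => rw [ha]
      rw [Int.cast_sum, ← Finset.sum_sub_distrib]
      refine Finset.sum_congr rfl fun g _ => ?_
      rw [← ha]
      push_cast
      ring
    rw [e]
    exact (annI D bad).sum_mem fun g _ => (annI D bad).mul_mem_left _ (hkg g)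

end Pool.Agent.U360.AS
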