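import Pool.Agent.U360.AS.Alg2
import Pool.Agent.U360.AS.Idl

/-!
# The groups `U_{S,{l}}` and the annihilator of the roots of unity
-/

set_option autoImplicit false
set_option linter.unusedSectionVars false

open NumberField IsDedekindDomain Filter Topology

noncomputable section

namespace Pool.Agent.U360.AS

open Pool.Agent.K3h30.RS Pool.Agent.U360.RS Pool.Agent.K3h8.RS Pool.Agent.K3h25.RS

variable {F H G : Type} [Field F] [NumberField F] [Field H] [NumberField H] [Algebra F H]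
  [CommGroup G] [Finite G] [MulSemiringAction G H]

/-- the action of `G` on the `S`-units -/
@[reducible] def instA [hG : IsGaloisGroup G F H] (S : Finset (HeightOneSpectrum (𝓞 F))) :
    DistribMulAction G (Additive (unitGroup (H := H) (S : Set (HeightOneSpectrum (𝓞 F))) ∅)) :=
  actionA (H := H) (G := G) t_TRANS (S : Set (HeightOneSpectrum (𝓞 F))) ∅

attribute [local instance] instA

variable [hG : IsGaloisGroup G F H] (D : RubinData F H G)

theorem isEq_of_isEquiv {f : Additive (US D) →+ MonoidAlgebra ℚ G} (hf : IsEquiv D f) :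
    IsEq f := by
  intro γ a
  exact hf γ (Additive.toMul a) (Additive.toMul (γ • a)) rfl

theorem isEquiv_of_isEq {f : Additive (US D) →+ MonoidAlgebra ℚ G} (hf : IsEq f) :
    IsEquiv D f := by
  intro γ x y hxy
  have h : Additive.ofMul y = γ • Additive.ofMul x := by
    apply Additive.toMul.injective
    exact Subtype.ext hxy
  rw [h]
  exact hf γ _

/-- `U_{S,{l}}` -/
def BL (l : HeightOneSpectrum (𝓞 F)) : AddSubgroup (Additive (US D)) where
  carrier := {a | ((Additive.toMul a : US D) : Hˣ) ∈ D.U {l}}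
  add_mem' := fun ha hb => (D.U {l}).mul_mem ha hb
  zero_mem' := (D.U {l}).one_mem
  neg_mem' := fun ha => (D.U {l}).inv_mem ha

theorem bl_smul (l : HeightOneSpectrum (𝓞 F)) (γ : G) (u : Additive (US D)) (hu : u ∈ BL D l) :
    γ • u ∈ BL D l :=
  act_mem (F := F) t_TRANS (D.S : Set (HeightOneSpectrum (𝓞 F)))
    (({l} : Finset (HeightOneSpectrum (𝓞 F))) : Set (HeightOneSpectrum (𝓞 F))) γ hu

theorem bl_delta (l : HeightOneSpectrum (𝓞 F)) (hl : l ∉ D.S) (u : Additive (US D)) :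
    u - (Ideal.absNorm l.asIdeal) • ((D.σ l)⁻¹ • u) ∈ BL D l := by
  obtain ⟨x, rfl⟩ : ∃ x, Additive.ofMul x = u := ⟨Additive.toMul u, rfl⟩
  obtain ⟨y, hy⟩ : ∃ y : Hˣ, y = act (D.σ l)⁻¹ (x : Hˣ) := ⟨_, rfl⟩
  have hyU : y ∈ US D := by
    rw [hy]
    exact act_mem (F := F) t_TRANS _ _ _ x.2
  change (x : Hˣ) / (act (D.σ l)⁻¹ (x : Hˣ)) ^ (Ideal.absNorm l.asIdeal) ∈ D.U {l}
  rw [← hy]
  refine ⟨((US D).div_mem x.2 ((US D).pow_mem hyU _)).1, ?_⟩
  intro w hw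
  have hw' : Above {l} w := by rwa [Finset.coe_singleton] at hw
  have hxw := unit_at D l hl x.2 w hw'
  have hyw := unit_at D l hl hyU w hw'
  have h3 := Pool.Agent.K3h44.RS.t_FROBU F H G l (D.σ l) (D.frob l hl) w hw' y hyw
  have h4 : D.σ l • (y : H) = ((x : Hˣ) : H) := by
    change ((act (D.σ l) y : Hˣ) : H) = _
    rw [hy, ← act_mul, mul_inv_cancel, act_one]
  rw [h4] at h3
  have hy0 : (y : H) ^ (Ideal.absNorm l.asIdeal) ≠ 0 := pow_ne_zero _ y.ne_zero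
  have h5 : (((x : Hˣ) / y ^ (Ideal.absNorm l.asIdeal) : Hˣ) : H) - 1 =
      (((x : Hˣ) : H) - (y : H) ^ (Ideal.absNorm l.asIdeal)) *
        ((y : H) ^ (Ideal.absNorm l.asIdeal))⁻¹ := by
    rw [Units.val_div_eq_div_val, Units.val_pow_eq_pow_val]
    field_simp
  rw [h5, map_mul, map_inv₀, map_pow, hyw, one_pow, inv_one, mul_one]
  exact h3

theorem bl_tors (l : HeightOneSpectrum (𝓞 F)) (hl : l ∉ D.S)
    (hc : Module.finrank ℚ F + 1 < ringChar (𝓞 F ⧸ l.asIdeal)) (b : Additive (US D))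
    (hb : b ∈ BL D l) (ho : IsOfFinAddOrder b) : b = 0 := by
  obtain ⟨x, rfl⟩ : ∃ x, Additive.ofMul x = b := ⟨Additive.toMul b, rfl⟩
  rw [isOfFinAddOrder_ofMul_iff] at ho
  have h1 : IsOfFinOrder ((x : US D) : Hˣ) := by
    obtain ⟨n, hn, h⟩ := isOfFinOrder_iff_pow_eq_one.1 ho
    exact isOfFinOrder_iff_pow_eq_one.2 ⟨n, hn, by
      rw [← Subgroup.coe_pow, h, Subgroup.coe_one]⟩
  have h2 := Pool.Agent.K3h23.RS.t_TORS Pool.Agent.K3h36.RS.t_NOZETA F H G D l hl hc _ hb h1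
  apply Additive.toMul.injective
  exact Subtype.ext h2

theorem root_mem (n : ℕ) (hn : 0 < n) (τ : Hˣ) (h : τ ^ n = 1) : τ ∈ US D := by
  refine ⟨fun w _ => root_unit w n hn τ h, fun w hw => ?_⟩
  obtain ⟨u, hu, -⟩ := hw
  exact absurd hu (by simp)

/-- the elements which kill the lifts of the characters of the roots of unity -/
theorem hid (bad : Finset (HeightOneSpectrum (𝓞 F)))
    (hbad : ∀ l, l ∉ bad → l ∉ D.S ∧ Module.finrank ℚ F + 1 < ringChar (𝓞 F ⧸ l.asIdeal))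
    (n : ℕ) (hn : 0 < n) (hnI : ((n : ℤ) : MonoidAlgebra ℤ G) ∈ annI D bad) (τ : Hˣ)
    (hτ : orderOf τ = n)
    (hk : ∀ a : MonoidAlgebra ℤ G, ∃ k : ℤ, a - (k : MonoidAlgebra ℤ G) ∈ annI D bad)
    (χ : Additive (US D) →+ QZ) (e : Additive (US D) → MonoidAlgebra ℚ G) (he : IsLift χ e)
    (hinj : ∀ x : US D, (∀ γ : G, χ (γ • Additive.ofMul x) = 0) → (x : Hˣ) ^ n = 1 →
      (x : Hˣ) = 1) (a : MonoidAlgebra ℤ G)
    (ha : ∀ u : Additive (US D), IsOfFinAddOrder u → toQ a * e u ∈ ZG G) :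
    ∃ (m : ℕ) (l : Fin m → {v // v ∉ bad}) (d : Fin m → MonoidAlgebra ℤ G),
      toQ a = ∑ j, toQ (d j) * (1 - MonoidAlgebra.single (D.σ (l j).1)⁻¹
        (Ideal.absNorm (l j).1.asIdeal : ℚ)) := by
  have hτn : τ ^ n = 1 := by rw [← hτ, pow_orderOf_eq_one]
  obtain ⟨x, hx⟩ : ∃ x : US D, x = ⟨τ, root_mem D n hn τ hτn⟩ := ⟨_, rfl⟩
  obtain ⟨u, hu⟩ : ∃ u : Additive (US D), u = Additive.ofMul x := ⟨_, rfl⟩
  have hux : n • u = 0 := by
    rw [hu, ← ofMul_pow]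
    apply Additive.toMul.injective
    apply Subtype.ext
    change ((x : US D) : Hˣ) ^ n = 1
    rw [hx]
    exact hτn
  have hufin : IsOfFinAddOrder u := isOfFinAddOrder_iff_nsmul_eq_zero.2 ⟨n, hn, hux⟩
  have key1 : ∀ l, l ∉ bad → toQ (dZ D l) * e u ∈ ZG G := by
    intro l hl
    have h1 : u - (Ideal.absNorm l.asIdeal) • ((D.σ l)⁻¹ • u) = 0 := by
      refine bl_tors D l (hbad l hl).1 (hbad l hl).2 _ (bl_delta D l (hbad l hl).1 u) ?_
      refine isOfFinAddOrder_iff_nsmul_eq_zero.2 ⟨n, hn, ?_⟩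
      have h2 := map_nsmul (DistribMulAction.toAddMonoidHom (Additive (US D)) (D.σ l)⁻¹) n u
      rw [hux, map_zero] at h2
      have h3 : n • ((D.σ l)⁻¹ • u) = 0 := h2.symm
      rw [nsmul_sub, hux, ← mul_nsmul, mul_comm, mul_nsmul, h3, nsmul_zero, sub_zero]
    rw [toQ_dZ, mem_ZG]
    intro γ
    rw [coeff_delta_mul, AddCircle.coe_sub, ← nsmul_eq_mul, AddCircle.coe_nsmul, he, he,
      mul_inv_rev, mul_smul, ← map_nsmul, ← smul_comm γ⁻¹ (Ideal.absNorm l.asIdeal),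
      ← sub_eq_zero.1 h1, sub_self]
  have key2 : ∀ b ∈ annI D bad, toQ b * e u ∈ ZG G := by
    intro b hb
    obtain ⟨m, l, d, rfl⟩ := mem_annI D hb
    rw [map_sum, Finset.sum_mul]
    refine (ZG G).sum_mem fun j _ => ?_
    rw [map_mul, mul_assoc]
    exact (ZG G).mul_mem ⟨_, rfl⟩ (key1 _ (l j).2)
  obtain ⟨k, hk⟩ := hk a
  have h1 : toQ (k : MonoidAlgebra ℤ G) * e u ∈ ZG G := by
    have h2 := (ZG G).sub_mem (ha u hufin) (key2 _ hk)
    rw [← sub_mul, ← map_sub, sub_sub_cancel] at h2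
    exact h2
  have h2 : ∀ γ : G, χ (γ • Additive.ofMul (x ^ k)) = 0 := by
    intro γ
    rw [mem_ZG] at h1
    have h3 := h1 γ⁻¹
    have h4 : (toQ (k : MonoidAlgebra ℤ G) * e u).coeff γ⁻¹ = k • (e u).coeff γ⁻¹ := by
      rw [map_intCast, ← zsmul_eq_mul]
      rfl
    rw [h4, AddCircle.coe_zsmul, he, inv_inv, ← map_zsmul, ← smul_comm γ k, hu] at h3
    rw [ofMul_zpow]
    exact h3
  have h3 : τ ^ k = 1 := by
    have h4 := hinj (x ^ k) h2 (by
      rw [Subgroup.coe_zpow, hx]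
      change (τ ^ k) ^ n = 1
      rw [← zpow_natCast, zpow_comm, zpow_natCast, hτn, one_zpow])
    rw [Subgroup.coe_zpow, hx] at h4
    exact h4
  have h4 : (n : ℤ) ∣ k := by
    rw [← hτ]
    exact orderOf_dvd_iff_zpow_eq_one.2 h3
  obtain ⟨t, rfl⟩ := h4
  have h5 : a ∈ annI D bad := by
    have h6 : a = (a - (((n : ℤ) * t : ℤ) : MonoidAlgebra ℤ G)) +
        (t : MonoidAlgebra ℤ G) * ((n : ℤ) : MonoidAlgebra ℤ G) := by
      push_cast
      ring
    rw [h6]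
    exact (annI D bad).add_mem hk ((annI D bad).mul_mem_left _ hnI)
  obtain ⟨m, l, d, h6⟩ := mem_annI D h5
  refine ⟨m, l, d, ?_⟩
  rw [h6, map_sum]
  refine Finset.sum_congr rfl fun j _ => ?_
  rw [map_mul, toQ_dZ]

end Pool.Agent.U360.AS
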