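import Pool.Agent.U360.AS.StepS

/-!
# Prime ideals which split completely and the class group
-/

set_option autoImplicit false
set_option linter.unusedSectionVars false

open NumberField IsDedekindDomain Filter Topology

noncomputable section

namespace Pool.Agent.U360.AS

open Pool.Agent.K3h30.RS Pool.Agent.U360.RS Pool.Agent.K3h8.RS Pool.Agent.K3h25.RS

section

variable {H : Type} [Field H] [NumberField H]

open scoped Classical in
/-- the exponent of `P` in the ideal `I` -/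
def cnt (P : HeightOneSpectrum (𝓞 H)) (I : Ideal (𝓞 H)) : ℕ :=
  (Associates.mk P.asIdeal).count (Associates.mk I).factors

theorem ordP_unit (P : HeightOneSpectrum (𝓞 H)) (a : 𝓞 H) (ha : a ≠ 0) (x : Hˣ)
    (hx : (x : H) = (a : H)) : ordP P x = (cnt P (Ideal.span {a}) : ℤ) := by
  classical
  have h1 : ((P.valuationOfNeZero x : Multiplicative ℤ) : WithZero (Multiplicative ℤ)) =
      WithZero.exp (-(cnt P (Ideal.span {a}) : ℤ)) := by
    rw [HeightOneSpectrum.valuationOfNeZero_eq, hx]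
    have h2 := HeightOneSpectrum.valuation_of_algebraMap (K := H) P a
    rw [h2, HeightOneSpectrum.intValuation_if_neg _ ha]
    unfold cnt
    congr!
  have h2 : P.valuationOfNeZero x = Multiplicative.ofAdd (-(cnt P (Ideal.span {a}) : ℤ)) := by
    rw [← WithZero.coe_inj, h1]
    rfl
  unfold ordP
  rw [h2, toAdd_ofAdd, neg_neg]

theorem cnt_mul (P : HeightOneSpectrum (𝓞 H)) {I J : Ideal (𝓞 H)} (hI : I ≠ ⊥) (hJ : J ≠ ⊥) :
    cnt P (I * J) = cnt P I + cnt P J := by
  classical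
  unfold cnt
  rw [← Associates.mk_mul_mk]
  exact Associates.count_mul (Associates.mk_ne_zero.2 hI) (Associates.mk_ne_zero.2 hJ)
    P.associates_irreducible

theorem cnt_self (P : HeightOneSpectrum (𝓞 H)) : cnt P P.asIdeal = 1 := by
  classical
  exact Associates.count_self P.associates_irreducible

theorem cnt_ne {P Q : HeightOneSpectrum (𝓞 H)} (h : P ≠ Q) : cnt P Q.asIdeal = 0 := by
  classical
  refine Associates.count_eq_zero_of_ne P.associates_irreducible Q.associates_irreducible ?_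
  intro h1
  rw [Associates.mk_eq_mk_iff_associated, associated_iff_eq] at h1
  exact h (HeightOneSpectrum.ext h1)

/-- an element with given divisor -/
theorem quot_elt {I J : nonZeroDivisors (Ideal (𝓞 H))}
    (h : ClassGroup.mk0 I = ClassGroup.mk0 J) : ∃ ε : Hˣ, ∀ P' : HeightOneSpectrum (𝓞 H),
      ordP P' ε + (cnt P' (J : Ideal (𝓞 H)) : ℤ) = cnt P' (I : Ideal (𝓞 H)) := by
  obtain ⟨x, y, hx, hy, h⟩ := ClassGroup.mk0_eq_mk0_iff.1 h
  have hx' : ((x : H)) ≠ 0 := by exact_mod_cast hx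
  have hy' : ((y : H)) ≠ 0 := by exact_mod_cast hy
  have hxI : Ideal.span {x} ≠ (⊥ : Ideal (𝓞 H)) := by
    rwa [Ne, Ideal.span_singleton_eq_bot]
  have hyI : Ideal.span {y} ≠ (⊥ : Ideal (𝓞 H)) := by
    rwa [Ne, Ideal.span_singleton_eq_bot]
  have hI : (I : Ideal (𝓞 H)) ≠ ⊥ := nonZeroDivisors.coe_ne_zero I
  have hJ : (J : Ideal (𝓞 H)) ≠ ⊥ := nonZeroDivisors.coe_ne_zero J
  obtain ⟨X, hX⟩ : ∃ X : Hˣ, X = Units.mk0 (x : H) hx' := ⟨_, rfl⟩
  obtain ⟨Y, hY⟩ : ∃ Y : Hˣ, Y = Units.mk0 (y : H) hy' := ⟨_, rfl⟩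
  refine ⟨Y * X⁻¹, fun P' => ?_⟩
  have h1 := congrArg (cnt P') h
  rw [cnt_mul P' hxI hI, cnt_mul P' hyI hJ] at h1
  have h2 := ordP_unit P' x hx X (by rw [hX]; rfl)
  have h3 := ordP_unit P' y hy Y (by rw [hY]; rfl)
  have h4 : ordP P' X + ordP P' X⁻¹ = 0 := by
    rw [← ordP_mul, mul_inv_cancel, ordP_one]
  rw [ordP_mul]
  have h5 : (cnt P' (Ideal.span {x}) : ℤ) + cnt P' (I : Ideal (𝓞 H)) =
    cnt P' (Ideal.span {y}) + cnt P' (J : Ideal (𝓞 H)) := by exact_mod_cast h1
  linarith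

theorem ordP_inv (P : HeightOneSpectrum (𝓞 H)) (x : Hˣ) : ordP P x⁻¹ = -ordP P x := by
  have h : ordP P x + ordP P x⁻¹ = 0 := by rw [← ordP_mul, mul_inv_cancel, ordP_one]
  linarith

theorem cnt_one (P : HeightOneSpectrum (𝓞 H)) : cnt P (1 : Ideal (𝓞 H)) = 0 := by
  have h := cnt_mul P (I := P.asIdeal) (J := 1) P.ne_bot (by
    rw [Ideal.one_eq_top]; exact top_ne_bot)
  rw [mul_one] at h
  omega

/-- the class of a prime ideal -/
def cls (P : HeightOneSpectrum (𝓞 H)) : ClassGroup (𝓞 H) :=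
  ClassGroup.mk0 ⟨P.asIdeal, mem_nonZeroDivisors_of_ne_zero P.ne_bot⟩

/-- elements with given divisor outside a set of prime ideals which generates the class -/
theorem closure_elt (Z : Set (HeightOneSpectrum (𝓞 H))) {C : ClassGroup (𝓞 H)}
    (hC : C ∈ Subgroup.closure (cls '' Z)) : ∀ I : nonZeroDivisors (Ideal (𝓞 H)),
      ClassGroup.mk0 I = C → ∃ x : Hˣ, ∀ P' : HeightOneSpectrum (𝓞 H), P' ∉ Z →
        ordP P' x = (cnt P' (I : Ideal (𝓞 H)) : ℤ) := by
  induction hC using Subgroup.closure_induction with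
  | mem C hC =>
    obtain ⟨Q, hQ, rfl⟩ := hC
    intro I hI
    obtain ⟨x, hx⟩ := quot_elt hI
    refine ⟨x, fun P' hP' => ?_⟩
    have h := hx P'
    change ordP P' x + (cnt P' Q.asIdeal : ℤ) = _ at h
    rw [cnt_ne fun h' => hP' (by rw [h']; exact hQ)] at h
    simpa using h
  | one =>
    intro I hI
    rw [← map_one ClassGroup.mk0] at hI
    obtain ⟨x, hx⟩ := quot_elt hI
    refine ⟨x, fun P' _ => ?_⟩
    have h := hx P'
    rw [Submonoid.coe_one, cnt_one] at h
    simpa using h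
  | mul C₁ C₂ _ _ ih₁ ih₂ =>
    intro I hI
    obtain ⟨I₁, hI₁⟩ := ClassGroup.mk0_surjective C₁
    obtain ⟨I₂, hI₂⟩ := ClassGroup.mk0_surjective C₂
    obtain ⟨x₁, hx₁⟩ := ih₁ I₁ hI₁
    obtain ⟨x₂, hx₂⟩ := ih₂ I₂ hI₂
    rw [← hI₁, ← hI₂, ← map_mul] at hI
    obtain ⟨x, hx⟩ := quot_elt hI
    refine ⟨x * (x₁ * x₂), fun P' hP' => ?_⟩
    have h := hx P'
    rw [Submonoid.coe_mul, cnt_mul P' (nonZeroDivisors.coe_ne_zero I₁)
      (nonZeroDivisors.coe_ne_zero I₂)] at h
    rw [ordP_mul, ordP_mul, hx₁ P' hP', hx₂ P' hP', ← h]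
    push_cast
    ring
  | inv C₁ _ ih₁ =>
    intro I hI
    obtain ⟨I₁, hI₁⟩ := ClassGroup.mk0_surjective C₁
    obtain ⟨x₁, hx₁⟩ := ih₁ I₁ hI₁
    have hI' : ClassGroup.mk0 (I * I₁) = ClassGroup.mk0 1 := by
      rw [map_mul, map_one, hI, hI₁, inv_mul_cancel]
    obtain ⟨x, hx⟩ := quot_elt hI'
    refine ⟨x * x₁⁻¹, fun P' hP' => ?_⟩
    have h := hx P'
    rw [Submonoid.coe_one, cnt_one, Submonoid.coe_mul, cnt_mul P'
      (nonZeroDivisors.coe_ne_zero I) (nonZeroDivisors.coe_ne_zero I₁)] at h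
    rw [ordP_mul, ordP_inv, hx₁ P' hP']
    push_cast at h
    linarith

end

variable {F H G : Type} [Field F] [NumberField F] [Field H] [NumberField H] [Algebra F H]
  [CommGroup G] [Finite G] [MulSemiringAction G H]

variable (H G) in
/-- `v` splits completely in `H` -/
def Spl (v : HeightOneSpectrum (𝓞 F)) : Prop :=
  Squarefree (v.asIdeal.map (algebraMap (𝓞 F) (𝓞 H))) ∧ IsFrob (H := H) v (1 : G)

theorem spl_iff [hG : IsGaloisGroup G F H] (D : RubinData F H G) {v : HeightOneSpectrum (𝓞 F)}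
    (hv : v ∉ D.S) : D.σ v = 1 ↔ Spl H G v := by
  constructor
  · intro h
    exact ⟨D.unramified v hv, h ▸ D.frob v hv⟩
  · intro h
    exact Pool.Agent.K3h23.RS.t_FROBUNIQ F H G v h.1 (D.σ v) 1 (D.frob v hv) h.2

/-- the classes of the prime ideals over `V₀` generate a group which contains the classes of all
prime ideals of degree one over the prime ideals which split completely -/
def Good (H G : Type) [Field H] [NumberField H] [Algebra F H] [CommGroup G] [Finite G]
    [MulSemiringAction G H] (V₀ : Finset (HeightOneSpectrum (𝓞 F))) : Prop :=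
  ∀ v : HeightOneSpectrum (𝓞 F), Spl H G v → ∀ P : HeightOneSpectrum (𝓞 H), Above {v} P →
    cls P ∈ Subgroup.closure (cls '' {Q : HeightOneSpectrum (𝓞 H) |
      Above (V₀ : Set (HeightOneSpectrum (𝓞 F))) Q})

variable (F H G) in
/-- a small set with this property -/
theorem exists_V0 : ∃ V₀ : Finset (HeightOneSpectrum (𝓞 F)), (∀ v ∈ V₀, Spl H G v) ∧
    2 ^ V₀.card ≤ Nat.card (ClassGroup (𝓞 H)) ∧ Good (F := F) H G V₀ := by
  classical
  let C : Finset (HeightOneSpectrum (𝓞 F)) → Subgroup (ClassGroup (𝓞 H)) := fun V =>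
    Subgroup.closure (cls '' {Q : HeightOneSpectrum (𝓞 H) |
      Above (V : Set (HeightOneSpectrum (𝓞 F))) Q})
  let p : ℕ → Prop := fun n => ∃ V : Finset (HeightOneSpectrum (𝓞 F)),
    (∀ v ∈ V, Spl H G v) ∧ V.card = n ∧ 2 ^ n ≤ Nat.card (C V)
  have hle : ∀ V, Nat.card (C V) ≤ Nat.card (ClassGroup (𝓞 H)) := fun V =>
    Subgroup.card_le_card_group (C V)
  have h0 : p 0 := ⟨∅, by simp, rfl, by
    rw [pow_zero]
    exact Nat.card_pos⟩
  have hspec := Nat.findGreatest_spec (P := p) (Nat.zero_le (Nat.card (ClassGroup (𝓞 H)))) h0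
  obtain ⟨V₀, hV1, hV2, hV3⟩ := hspec
  refine ⟨V₀, hV1, ?_, ?_⟩
  · rw [hV2]
    exact hV3.trans (hle V₀)
  · intro v hv P hP
    by_contra hne
    have hvV : v ∉ V₀ := by
      intro h
      apply hne
      refine Subgroup.subset_closure ⟨P, ?_, rfl⟩
      exact (above_iff hP).2 (Finset.mem_coe.2 h)
    have hmono : C V₀ ≤ C (insert v V₀) := by
      refine Subgroup.closure_mono (Set.image_mono ?_)
      rintro Q ⟨u, hu, h⟩
      exact ⟨u, by rw [Finset.coe_insert]; exact Set.mem_insert_of_mem _ hu, h⟩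
    have hPin : cls P ∈ C (insert v V₀) := by
      refine Subgroup.subset_closure ⟨P, ?_, rfl⟩
      exact (above_iff hP).2 (Finset.mem_coe.2 (Finset.mem_insert_self v V₀))
    have hdvd : Nat.card (C V₀) ∣ Nat.card (C (insert v V₀)) := Subgroup.card_dvd_of_le hmono
    have hneq : Nat.card (C V₀) ≠ Nat.card (C (insert v V₀)) := by
      intro h
      have := Subgroup.eq_of_le_of_card_ge hmono h.ge
      apply hne
      change cls P ∈ C V₀
      rw [this]
      exact hPin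
    have h2 : 2 * Nat.card (C V₀) ≤ Nat.card (C (insert v V₀)) := by
      obtain ⟨k, hk⟩ := hdvd
      have hk0 : k ≠ 0 := by
        rintro rfl
        rw [mul_zero] at hk
        exact Nat.card_pos.ne' hk
      have hk1 : k ≠ 1 := by
        rintro rfl
        rw [mul_one] at hk
        exact hneq hk.symm
      rw [hk, mul_comm]
      exact Nat.mul_le_mul_left _ (by omega)
    have h3 : p (V₀.card + 1) := by
      refine ⟨insert v V₀, ?_, Finset.card_insert_of_notMem hvV, ?_⟩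
      · intro u hu
        rcases Finset.mem_insert.1 hu with rfl | hu
        · exact hv
        · exact hV1 u hu
      · rw [pow_succ, mul_comm]
        rw [← hV2] at hV3
        exact (Nat.mul_le_mul_left 2 hV3).trans h2
    have h4 : V₀.card + 1 ≤ Nat.card (ClassGroup (𝓞 H)) := by
      obtain ⟨V, -, -, h5⟩ := h3
      exact (Nat.lt_two_pow_self).le.trans (h5.trans (hle V))
    exact Nat.findGreatest_is_greatest (P := p) (by rw [← hV2]; exact Nat.lt_succ_self _) h4 h3

/-- the generator `ε` -/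
theorem exists_gen_eps [hG : IsGaloisGroup G F H] (D : RubinData F H G)
    (V₀ : Finset (HeightOneSpectrum (𝓞 F))) (hV : Good (F := F) H G V₀)
    (hVS : V₀ ⊆ D.S) (v : HeightOneSpectrum (𝓞 F)) (hv : v ∉ D.S) (hσ : D.σ v = 1)
    (P : HeightOneSpectrum (𝓞 H)) (hP : Above {v} P) :
    ∃ ε : Hˣ, ε ∈ US (addS D v hv hσ P hP) ∧ OG G P ε = 1 := by
  classical
  have hspl := (spl_iff D hv).1 hσ
  obtain ⟨ε, hε⟩ := closure_elt _ (hV v hspl P hP) _ rfl
  have hne : ∀ w : HeightOneSpectrum (𝓞 H), Above {v} w →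
      ¬ Above (V₀ : Set (HeightOneSpectrum (𝓞 F))) w := by
    intro w hw h
    exact hv (hVS (Finset.mem_coe.1 ((above_iff hw).1 h)))
  have h1 : ordP P ε = 1 := by
    rw [hε P (hne P hP)]
    change ((cnt P P.asIdeal : ℕ) : ℤ) = 1
    rw [cnt_self, Nat.cast_one]
  have h2 : ∀ w : HeightOneSpectrum (𝓞 H), w ≠ P →
      ¬ Above (V₀ : Set (HeightOneSpectrum (𝓞 F))) w → ordP w ε = 0 := by
    intro w hw hwV
    rw [hε w hwV]
    change ((cnt w P.asIdeal : ℕ) : ℤ) = 0
    rw [cnt_ne hw, Nat.cast_zero]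
  refine ⟨ε, ⟨fun w hw => ?_, fun w hw => ?_⟩, ?_⟩
  · rw [← ordP_eq_zero_iff]
    refine h2 w ?_ ?_
    · rintro rfl
      apply hw
      rw [above_iff hP]
      exact Finset.mem_coe.2 (Finset.mem_cons_self (h := hv) v D.S)
    · rintro ⟨u, hu, h⟩
      exact hw ⟨u, Finset.mem_coe.2 (subset_cons' hv (hVS (Finset.mem_coe.1 hu))), h⟩
  · obtain ⟨u, hu, -⟩ := hw
    exact absurd hu (by simp)
  · ext γ
    rw [coeff_OG, MonoidAlgebra.one_def, MonoidAlgebra.coeff_single, Finsupp.single_apply]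
    by_cases hγ : (1 : G) = γ
    · rw [if_pos hγ, ← hγ, inv_one, act_one]
      exact h1
    · rw [if_neg hγ]
      obtain ⟨w', hw', h3⟩ := (t_TRANS F H G v P hP).1 γ⁻¹
      have h4 : ordP P (act γ⁻¹ ε) = ordP w' ε := by
        apply ordP_eq_of_val
        rw [h3, act_val]
      rw [h4]
      refine h2 w' ?_ (hne w' hw')
      rintro rfl
      apply hγ
      have h5 := dec_trivial (D.unramified v hv) (hσ ▸ D.frob v hv) hP γ⁻¹ fun z => by
        exact (av_eq_of_val (h3 z)).symm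
      rw [inv_eq_one] at h5
      exact h5.symm

end Pool.Agent.U360.AS
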