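import Pool.Agent.U360.AS.StepN
import Pool.Agent.U360.RS.Main

/-!
# Rubin's conjecture does not depend on the choices in the data
-/

set_option autoImplicit false
set_option linter.unusedSectionVars false

open NumberField IsDedekindDomain Filter Topology

noncomputable section

namespace Pool.Agent.U360.AS

open Pool.Agent.K3h30.RS Pool.Agent.U360.RS Pool.Agent.K3h8.RS Pool.Agent.K3h25.RS
  Pool.Agent.K3h62.RS Pool.Agent.K3h3.RS

variable {F H G : Type} [Field F] [NumberField F] [Field H] [NumberField H] [Algebra F H]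
  [CommGroup G] [Finite G] [MulSemiringAction G H]

theorem reg_conj {w w' : Place H} {g : G} (h : ∀ x : H, av w x = av w' (g • x)) (x : Hˣ) :
    reg G w x = MonoidAlgebra.single g 1 * reg G w' x := by
  letI := Fintype.ofFinite G
  unfold reg
  rw [Finset.mul_sum]
  symm
  refine Fintype.sum_equiv (Equiv.mulLeft g) _ _ fun δ => ?_
  rw [MonoidAlgebra.single_mul_single, one_mul]
  change MonoidAlgebra.single (g * δ) _ = MonoidAlgebra.single (g * δ) _
  congr 2
  rw [h, act_val, act_val, ← mul_smul, Equiv.coe_mulLeft, mul_inv_rev, mul_comm δ⁻¹, ← mul_assoc, mul_inv_cancel,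
    one_mul]

variable [hG : IsGaloisGroup G F H] (D D' : RubinData F H G) (hS : D.S = D'.S)

include hS in
theorem exists_pi : ∃ (π : Fin D'.r ≃ Fin D.r) (g : Fin D'.r → G),
    ∀ a, ∀ x : H, av (D'.w a) x = av (D.w (π a)) (g a • x) := by
  have h1 : ∀ a, ∃ i, Conj G (D'.w a) (D.w i) := fun a =>
    D.all (D'.w a) (by rw [hS]; exact D'.inS a) (D'.splits a)
  choose π hπ using h1
  have h2 : Function.Bijective π := by
    constructor
    · intro a b hab
      refine D'.distinct a b (conj_trans (hπ a) ?_)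
      rw [hab]
      exact conj_symm (hπ b)
    · intro i
      obtain ⟨j, hj⟩ := D'.all (D.w i) (by rw [← hS]; exact D.inS i) (D.splits i)
      exact ⟨j, (D.distinct i (π j) (conj_trans hj (hπ j))).symm⟩
  choose g hg using hπ
  exact ⟨Equiv.ofBijective π h2, g, hg⟩

include hS in
theorem active_indep (χ : G →* ℂˣ) (h : D.Active χ) : D'.Active χ := by
  obtain ⟨π, g, hg⟩ := exists_pi D D' hS
  have h1 : ∀ w : Place H, (∀ j, ¬ Conj G w (D'.w j)) → ∀ i, ¬ Conj G w (D.w i) := by
    intro w hw i hi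
    apply hw (π.symm i)
    refine conj_trans hi (conj_symm ⟨g (π.symm i), fun x => ?_⟩)
    rw [hg, Equiv.apply_symm_apply]
  rcases h with h | ⟨h2, h⟩
  · exact Or.inl fun w hw hw' => h w (by rw [hS]; exact hw) (h1 w hw')
  · exact Or.inr ⟨h2, fun w w' hw hw' hc hc' =>
      h w w' (by rw [hS]; exact hw) (by rw [hS]; exact hw') (h1 w hc) (h1 w' hc')⟩

include hS in
theorem sigma_indep {v : HeightOneSpectrum (𝓞 F)} (hv : v ∉ D.S) : D.σ v = D'.σ v :=
  Pool.Agent.K3h23.RS.t_FROBUNIQ F H G v (D.unramified v hv) _ _ (D.frob v hv)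
    (D'.frob v (by rw [← hS]; exact hv))

include hS in
theorem L_indep (χ : G →* ℂˣ) (s : ℂ) (hs : s ≠ 1) : D.L χ s = D'.L χ s := by
  have hopen : IsOpen ({1}ᶜ : Set ℂ) := isOpen_compl_singleton
  have hconn : IsPreconnected ({1}ᶜ : Set ℂ) :=
    (isConnected_compl_singleton_of_one_lt_rank (by
      rw [Complex.rank_real_complex]; exact Nat.one_lt_ofNat) 1).isPreconnected
  have h1 : ∀ s : ℂ, 1 < s.re → D.L χ s = D'.L χ s := by
    intro s hs
    have e1 := D.euler χ s hs
    have e2 := D'.euler χ s hs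
    let e : {v : HeightOneSpectrum (𝓞 F) // v ∉ D.S} ≃
        {v : HeightOneSpectrum (𝓞 F) // v ∉ D'.S} :=
      Equiv.subtypeEquivRight (by intro v; rw [hS])
    have e3 := (Equiv.hasProd_iff e).2 e2
    refine e1.unique ?_
    convert e3 using 1
    funext v
    change (1 - (χ (D.σ v.1) : ℂ) * _)⁻¹ = (1 - (χ (D'.σ v.1) : ℂ) * _)⁻¹
    rw [sigma_indep D D' hS v.2]
    rfl
  have h2 : (fun s => D.L χ s) =ᶠ[𝓝 (2 : ℂ)] fun s => D'.L χ s := by
    have h3 : ∀ᶠ s : ℂ in 𝓝 (2 : ℂ), 1 < s.re :=
      (isOpen_lt continuous_const Complex.continuous_re).eventually_mem (by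
        change (1 : ℝ) < (2 : ℂ).re
        norm_num)
    filter_upwards [h3] with s hs
    exact h1 s hs
  exact AnalyticOnNhd.eqOn_of_preconnected_of_eventuallyEq
    ((D.analytic χ).analyticOnNhd hopen) ((D'.analytic χ).analyticOnNhd hopen) hconn
    (by norm_num : (2 : ℂ) ∈ ({1}ᶜ : Set ℂ)) h2 hs

include hS in
theorem rubin_indep (T : Finset (HeightOneSpectrum (𝓞 F))) (hT : Disjoint D.S T)
    (h : D.Rubin T) : D'.Rubin T := by
  obtain ⟨u, hE, hI, hSt⟩ := h
  obtain ⟨π, g, hg⟩ := exists_pi D D' hS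
  have hle : D.U T ≤ D'.U T := U_mono (by rw [hS]) _
  obtain ⟨γ, hγ⟩ : ∃ γ : G, γ = ∏ a, g a := ⟨_, rfl⟩
  let u' : Wedge G D'.r (D'.U T) :=
    { n := u.n
      c := fun k => MonoidAlgebra.single γ⁻¹ 1 * u.c k
      x := fun k a => ⟨(u.x k (π a) : Hˣ), hle (u.x k (π a)).2⟩ }
  refine ⟨u', ?_, ?_, ?_⟩
  · intro χ hχ k
    change charValue χ (toR (MonoidAlgebra.single γ⁻¹ 1 * u.c k)) = 0
    rw [charValue_toR_mul, hE χ (fun h => hχ (active_indep D D' hS χ h)) k, mul_zero]
  · intro ψ
    obtain ⟨z, hz⟩ := hI fun i => GHom.restr hle (ψ (π.symm i))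
    refine ⟨MonoidAlgebra.single γ⁻¹ 1 * z, ?_⟩
    have e1 : u'.value ψ = MonoidAlgebra.single γ⁻¹ 1 *
        u.value (fun i => GHom.restr hle (ψ (π.symm i))) := by
      unfold Wedge.value
      rw [Finset.mul_sum]
      refine Finset.sum_congr rfl fun k _ => ?_
      rw [← mul_assoc]
      refine congrArg (fun z => MonoidAlgebra.single γ⁻¹ 1 * u.c k * toQ z) ?_
      rw [← Matrix.det_submatrix_equiv_self π]
      congr 1
      ext a b : 1
      rw [Matrix.submatrix_apply, Matrix.of_apply, Matrix.of_apply]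
      change (ψ a).f _ = (GHom.restr hle (ψ (π.symm (π a)))).f _
      rw [Equiv.symm_apply_apply]
      rfl
    rw [e1, hz, map_mul]
    congr 1
    simp [toQ]
  · intro χ
    have h1 := hSt χ
    have hreg : u'.regulator D'.w = u.regulator D.w := by
      unfold Wedge.regulator
      refine Finset.sum_congr rfl fun k _ => ?_
      have e2 : Matrix.det (Matrix.of fun a b => reg G (D'.w a) (u.x k (π b) : Hˣ)) =
          MonoidAlgebra.single γ 1 *
            Matrix.det (Matrix.of fun i j => reg G (D.w i) (u.x k j : Hˣ)) := by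
        rw [← Matrix.det_submatrix_equiv_self π (Matrix.of fun i j => reg G (D.w i)
          (u.x k j : Hˣ))]
        have e3 : MonoidAlgebra.single γ (1 : ℝ) =
            ∏ a, (MonoidAlgebra.single (g a) (1 : ℝ) : MonoidAlgebra ℝ G) := by
          rw [hγ]
          have := map_prod (MonoidAlgebra.of ℝ G) g Finset.univ
          simpa only [MonoidAlgebra.of_apply] using this
        rw [e3, ← Matrix.det_mul_column]
        congr 1
        ext a b : 1
        rw [Matrix.of_apply, Matrix.of_apply, Matrix.submatrix_apply, Matrix.of_apply]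
        exact reg_conj (hg a) _
      change toR (MonoidAlgebra.single γ⁻¹ 1 * u.c k) *
        Matrix.det (Matrix.of fun a b => reg G (D'.w a) (u.x k (π b) : Hˣ)) = _
      rw [e2, map_mul, toR_single]
      have e4 : (MonoidAlgebra.single γ⁻¹ ((1 : ℚ) : ℝ) : MonoidAlgebra ℝ G) *
          MonoidAlgebra.single γ 1 = 1 := by
        rw [MonoidAlgebra.single_mul_single, inv_mul_cancel, Rat.cast_one, one_mul,
          MonoidAlgebra.one_def]
      linear_combination (toR (u.c k) * Matrix.det (Matrix.of fun i j =>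
        reg G (D.w i) (u.x k j : Hˣ))) * e4
    rw [hreg]
    have hr : D'.r = D.r := by simpa using Fintype.card_congr π
    refine h1.congr' ?_
    have h2 : ∀ᶠ s : ℂ in 𝓝[≠] 0, s ≠ 1 :=
      eventually_nhdsWithin_of_eventually_nhds (isOpen_ne.eventually_mem (by
        change (0 : ℂ) ≠ 1
        norm_num))
    filter_upwards [h2] with s hs
    rw [hr]
    congr 1
    unfold RubinData.LT
    rw [L_indep D D' hS _ s hs]
    congr 1
    refine Finset.prod_congr rfl fun v hv => ?_
    rw [sigma_indep D D' hS fun h => Finset.disjoint_left.1 hT h hv]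

end Pool.Agent.U360.AS
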