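import Pool.Agent.U360.AS.Cl
import Pool.Agent.U360.AS.Indep

/-!
# Removing a prime ideal which splits completely: the Stark element
-/

set_option autoImplicit false
set_option linter.unusedSectionVars false

open NumberField IsDedekindDomain Filter Topology

noncomputable section

namespace Pool.Agent.U360.AS

open Pool.Agent.K3h30.RS Pool.Agent.U360.RS Pool.Agent.K3h8.RS Pool.Agent.K3h25.RS
  Pool.Agent.K3h62.RS Pool.Agent.K3h3.RS

theorem det_contract {R : Type} [CommRing R] {r : ℕ} (h t : R)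
    (M : Matrix (Fin (r + 1)) (Fin (r + 1)) R) (X : Fin r → Fin (r + 1) → R)
    (o : Fin (r + 1) → R) (E : Fin r → R) (hM1 : ∀ a b, M a.castSucc b = X a b)
    (hM2 : ∀ b, M (Fin.last r) b = t * o b) :
    h ^ r * M.det = t * ∑ b : Fin (r + 1), (-1) ^ (r + (b : ℕ)) * o b *
      Matrix.det (Matrix.of fun a c : Fin r => h * X a (b.succAbove c) -
        E a * o (b.succAbove c)) := by
  obtain ⟨W, hW⟩ : ∃ W : Matrix (Fin (r + 1)) (Fin (r + 1)) R,
    W = Matrix.of (Fin.snoc (α := fun _ => Fin (r + 1) → R) X o) := ⟨_, rfl⟩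
  have hW1 : ∀ a b, W (Fin.castSucc a) b = X a b := by
    intro a b
    rw [hW, Matrix.of_apply, Fin.snoc_castSucc]
  have hW2 : ∀ b, W (Fin.last r) b = o b := by
    intro b
    rw [hW, Matrix.of_apply, Fin.snoc_last]
  have h1 : M.det = t * W.det := by
    have h2 := Matrix.det_mul_column (Fin.snoc (α := fun _ => R) (fun _ : Fin r => 1) t) W
    rw [Fin.prod_univ_castSucc] at h2
    simp only [Fin.snoc_castSucc, Fin.snoc_last, Finset.prod_const_one, one_mul] at h2
    rw [← h2]
    congr 1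
    ext i j : 1
    revert i
    refine Fin.lastCases ?_ (fun i => ?_)
    · rw [Matrix.of_apply, Fin.snoc_last, hM2, hW2]
    · rw [Matrix.of_apply, Fin.snoc_castSucc, hM1, hW1, one_mul]
  obtain ⟨B, hB⟩ : ∃ B : Matrix (Fin (r + 1)) (Fin (r + 1)) R,
    B = Matrix.of fun i j => Fin.snoc (α := fun _ => R) (fun _ : Fin r => h) 1 i * W i j :=
    ⟨_, rfl⟩
  have hBdet : B.det = h ^ r * W.det := by
    rw [hB, Matrix.det_mul_column, Fin.prod_univ_castSucc]
    simp only [Fin.snoc_castSucc, Fin.snoc_last, Finset.prod_const, Finset.card_univ,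
      Fintype.card_fin, mul_one]
  have hB1 : ∀ a b, B (Fin.castSucc a) b = h * X a b := by
    intro a b
    rw [hB, Matrix.of_apply, Fin.snoc_castSucc, hW1]
  have hB2 : ∀ b, B (Fin.last r) b = o b := by
    intro b
    rw [hB, Matrix.of_apply, Fin.snoc_last, hW2, one_mul]
  obtain ⟨N, hN⟩ : ∃ N : Matrix (Fin (r + 1)) (Fin (r + 1)) R,
    N = Matrix.of fun i j => B i j + Fin.snoc (α := fun _ => R) (fun a : Fin r => -E a) 0 i *
      B (Fin.last r) j := ⟨_, rfl⟩
  have hNdet : N.det = B.det := by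
    refine Matrix.det_eq_of_forall_row_eq_smul_add_const
      (Fin.snoc (α := fun _ => R) (fun a : Fin r => -E a) 0) (Fin.last r) (Fin.snoc_last _ _) ?_
    intro i j
    rw [hN, Matrix.of_apply]
  rw [h1, mul_left_comm, ← hBdet, ← hNdet, Matrix.det_succ_row N (Fin.last r)]
  congr 1
  refine Finset.sum_congr rfl fun b _ => ?_
  have e1 : N (Fin.last r) b = o b := by
    rw [hN, Matrix.of_apply, Fin.snoc_last, zero_mul, add_zero, hB2]
  rw [e1, Fin.val_last]
  congr 1
  congr 1
  ext a c : 1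
  rw [Matrix.submatrix_apply, Fin.succAbove_last, Matrix.of_apply, hN, Matrix.of_apply,
    Fin.snoc_castSucc, hB1, hB2]
  ring

section gp

variable {H G : Type} [Field H] [NumberField H] [CommGroup G] [Finite G] [MulSemiringAction G H]

/-- the element `x ^ a` for `a` in `ℤ[G]` -/
def gpow (a : MonoidAlgebra ℤ G) (x : Hˣ) : Hˣ :=
  letI := Fintype.ofFinite G
  ∏ γ : G, (act γ x) ^ (a.coeff γ)

theorem hom_gpow {R : Type} [CommRing R] (L : Additive Hˣ →+ MonoidAlgebra R G)
    (hL : ∀ (γ : G) (x : Hˣ), L (Additive.ofMul (act γ x)) =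
      MonoidAlgebra.single γ 1 * L (Additive.ofMul x)) (a : MonoidAlgebra ℤ G) (x : Hˣ) :
    L (Additive.ofMul (gpow a x)) =
      MonoidAlgebra.mapRingHom G (Int.castRingHom R) a * L (Additive.ofMul x) := by
  classical
  let _ := Fintype.ofFinite G
  have ha : MonoidAlgebra.mapRingHom G (Int.castRingHom R) a =
      ∑ γ : G, MonoidAlgebra.single γ ((a.coeff γ : ℤ) : R) := by
    ext γ'
    rw [MonoidAlgebra.coeff_sum, Finsupp.finsetSum_apply, Finset.sum_eq_single γ']
    · rw [MonoidAlgebra.coeff_single, Finsupp.single_eq_same, MonoidAlgebra.coeff_mapRingHom]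
      rfl
    · intro g _ hg
      rw [MonoidAlgebra.coeff_single, Finsupp.single_apply, if_neg hg]
    · intro h; exact absurd (Finset.mem_univ _) h
  unfold gpow
  rw [ofMul_prod, map_sum, ha, Finset.sum_mul]
  refine Finset.sum_congr rfl fun γ _ => ?_
  rw [ofMul_zpow, map_zsmul, hL, ← smul_mul_assoc, MonoidAlgebra.smul_single, zsmul_eq_mul,
    mul_one]

/-- the map `x ↦ OG x` -/
def OGL (P : HeightOneSpectrum (𝓞 H)) : Additive Hˣ →+ MonoidAlgebra ℤ G where
  toFun x := OG G P (Additive.toMul x)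
  map_zero' := OG_one P
  map_add' x y := OG_mul P _ _

theorem OG_gpow (P : HeightOneSpectrum (𝓞 H)) (a : MonoidAlgebra ℤ G) (x : Hˣ) :
    OG G P (gpow a x) = a * OG G P x := by
  have h := hom_gpow (OGL (G := G) P) (fun γ x => OG_act P γ x) a x
  have h2 : MonoidAlgebra.mapRingHom G (Int.castRingHom ℤ) a = a := by
    ext γ
    rw [MonoidAlgebra.coeff_mapRingHom]
    rfl
  rw [h2] at h
  exact h

theorem reg_mul (w : Place H) (x y : Hˣ) : reg G w (x * y) = reg G w x + reg G w y := by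
  unfold reg
  rw [← Finset.sum_add_distrib]
  refine Finset.sum_congr rfl fun γ _ => ?_
  rw [act_map_mul, ← MonoidAlgebra.single_add]
  congr 1
  have h1 : ∀ z : Hˣ, av w (z : H) ≠ 0 := fun z => by
    rcases w with w | w
    · exact (pow_pos (InfinitePlace.pos_iff.2 z.ne_zero) _).ne'
    · exact ((HeightOneSpectrum.adicAbv H w).pos z.ne_zero).ne'
  rw [← Real.log_mul (h1 _) (h1 _)]
  congr 1
  rw [Units.val_mul]
  rcases w with w | w
  · simp only [av, map_mul, mul_pow]
  · simp only [av, map_mul]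

/-- the map `x ↦ reg x` -/
def regL (w : Place H) : Additive Hˣ →+ MonoidAlgebra ℝ G :=
  AddMonoidHom.mk' (fun x => reg G w (Additive.toMul x)) fun x y => reg_mul w _ _

theorem reg_act (w : Place H) (γ : G) (x : Hˣ) :
    reg G w (act γ x) = MonoidAlgebra.single γ 1 * reg G w x := by
  let _ := Fintype.ofFinite G
  unfold reg
  rw [Finset.mul_sum]
  symm
  refine Fintype.sum_equiv (Equiv.mulLeft γ) _ _ fun δ => ?_
  rw [MonoidAlgebra.single_mul_single, one_mul]
  change MonoidAlgebra.single (γ * δ) _ = MonoidAlgebra.single (γ * δ) _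
  congr 4
  rw [Equiv.coe_mulLeft, ← act_mul, mul_inv_rev, mul_assoc, inv_mul_cancel, mul_one]

theorem reg_gpow (w : Place H) (a : MonoidAlgebra ℤ G) (x : Hˣ) :
    reg G w (gpow a x) = toR (toQ a) * reg G w x := by
  have h := hom_gpow (regL (G := G) w) (fun γ x => reg_act w γ x) a x
  have h2 : MonoidAlgebra.mapRingHom G (Int.castRingHom ℝ) a = toR (toQ a) := by
    ext γ
    rw [MonoidAlgebra.coeff_mapRingHom, toR, MonoidAlgebra.coeff_mapRingHom, coeff_toQ]
    simp
  rw [h2] at h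
  exact h

/-- the projection -/
def tau (P : HeightOneSpectrum (𝓞 H)) (h : ℕ) (ε : Hˣ) (x : Hˣ) : Hˣ :=
  x ^ h * gpow (-OG G P x) ε

theorem OG_pow (P : HeightOneSpectrum (𝓞 H)) (x : Hˣ) (n : ℕ) :
    OG G P (x ^ n) = (n : MonoidAlgebra ℤ G) * OG G P x := by
  have h := map_nsmul (OGL (G := G) P) n (Additive.ofMul x)
  rw [nsmul_eq_mul] at h
  exact h

theorem OG_tau (P : HeightOneSpectrum (𝓞 H)) (h : ℕ) (ε : Hˣ)
    (hO : OG G P ε = (h : MonoidAlgebra ℤ G)) (x : Hˣ) : OG G P (tau (G := G) P h ε x) = 0 := by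
  unfold tau
  rw [OG_mul, OG_gpow, OG_pow, hO]
  ring

theorem reg_tau (P : HeightOneSpectrum (𝓞 H)) (h : ℕ) (ε : Hˣ) (w : Place H) (x : Hˣ) :
    reg G w (tau (G := G) P h ε x) =
      (h : MonoidAlgebra ℝ G) * reg G w x - reg G w ε * toR (toQ (OG G P x)) := by
  unfold tau
  rw [reg_mul, reg_gpow, reg_pow, map_neg, map_neg]
  ring

end gp

end Pool.Agent.U360.AS
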