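import Pool.Agent.U360.AS.Down1

/-!
# Removing a prime ideal which splits completely: the Stark element, continued
-/

set_option autoImplicit false
set_option linter.unusedSectionVars false

open NumberField IsDedekindDomain Filter Topology

noncomputable section

namespace Pool.Agent.U360.AS

open Pool.Agent.K3h30.RS Pool.Agent.U360.RS Pool.Agent.K3h8.RS Pool.Agent.K3h25.RS
  Pool.Agent.K3h62.RS Pool.Agent.K3h3.RS

section fam

variable {H G : Type} [Field H] [NumberField H] [CommGroup G] [Finite G] [MulSemiringAction G H]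

/-- the element given by a family -/
def famWedge {ι : Type} [Fintype ι] {r : ℕ} {U : Subgroup Hˣ} (c : ι → MonoidAlgebra ℚ G)
    (x : ι → Fin r → U) : Wedge G r U where
  n := Fintype.card ι
  c k := c ((Fintype.equivFin ι).symm k)
  x k := x ((Fintype.equivFin ι).symm k)

theorem famWedge_regulator {ι : Type} [Fintype ι] {r : ℕ} {U : Subgroup Hˣ}
    (c : ι → MonoidAlgebra ℚ G) (x : ι → Fin r → U) (w : Fin r → Place H) :
    (famWedge c x).regulator w =
      ∑ i, toR (c i) * Matrix.det (Matrix.of fun a b => reg G (w a) (x i b : Hˣ)) :=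
  Equiv.sum_comp (Fintype.equivFin ι).symm
    (fun i => toR (c i) * Matrix.det (Matrix.of fun a b => reg G (w a) (x i b : Hˣ)))

theorem ordP_pow_ideal {P P' : HeightOneSpectrum (𝓞 H)} (n : ℕ) :
    cnt P' (P.asIdeal ^ n) = n * cnt P' P.asIdeal := by
  induction n with
  | zero =>
    rw [pow_zero, zero_mul]
    have h := cnt_mul P' (I := P.asIdeal) (J := 1) P.ne_bot (by
      rw [Ideal.one_eq_top]; exact top_ne_bot)
    rw [mul_one] at h
    omega
  | succ n ih =>
    rw [pow_succ, cnt_mul P' (pow_ne_zero n P.ne_bot) P.ne_bot, ih]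
    ring

end fam

variable {F H G : Type} [Field F] [NumberField F] [Field H] [NumberField H] [Algebra F H]
  [CommGroup G] [Finite G] [MulSemiringAction G H]

section

variable [hG : IsGaloisGroup G F H] (D : RubinData F H G) (v : HeightOneSpectrum (𝓞 F))
  (hv : v ∉ D.S) (hσ : D.σ v = 1) (P : HeightOneSpectrum (𝓞 H)) (hP : Above {v} P)

/-- a generator of a power of `P` -/
theorem exists_eps_pow : ∃ (h : ℕ) (ε : Hˣ), 0 < h ∧ ε ∈ US (addS D v hv hσ P hP) ∧
    OG G P ε = (h : MonoidAlgebra ℤ G) := by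
  classical
  obtain ⟨m, hm⟩ : ∃ m : ClassGroup (𝓞 H),
    m = ClassGroup.mk0 ⟨P.asIdeal, mem_nonZeroDivisors_of_ne_zero P.ne_bot⟩ := ⟨_, rfl⟩
  obtain ⟨h, hh⟩ : ∃ h : ℕ, h = orderOf m := ⟨_, rfl⟩
  have hh0 : 0 < h := by
    rw [hh]
    exact orderOf_pos m
  have h1 : m ^ h = 1 := by rw [hh, pow_orderOf_eq_one]
  have h2 : ClassGroup.mk0 (⟨P.asIdeal, mem_nonZeroDivisors_of_ne_zero P.ne_bot⟩ ^ h :
      nonZeroDivisors (Ideal (𝓞 H))) = 1 := by
    rw [map_pow, ← hm, h1]
  rw [ClassGroup.mk0_eq_one_iff] at h2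
  obtain ⟨a, ha⟩ := h2.principal
  have ha' : P.asIdeal ^ h = Ideal.span {a} := ha
  have ha0 : a ≠ 0 := by
    rintro rfl
    rw [Ideal.span_singleton_eq_bot.2 rfl] at ha'
    exact pow_ne_zero h P.ne_bot ha'
  have haH : (a : H) ≠ 0 := by exact_mod_cast ha0
  obtain ⟨ε, hε⟩ : ∃ ε : Hˣ, ε = Units.mk0 (a : H) haH := ⟨_, rfl⟩
  have hord : ∀ P' : HeightOneSpectrum (𝓞 H), ordP P' ε = h * (cnt P' P.asIdeal : ℤ) := by
    intro P'
    rw [ordP_unit P' a ha0 ε (by rw [hε]; rfl), ← ha', ordP_pow_ideal]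
    push_cast
    ring
  refine ⟨h, ε, hh0, ⟨fun w hw => ?_, fun w hw => ?_⟩, ?_⟩
  · rw [← ordP_eq_zero_iff, hord, cnt_ne, Nat.cast_zero, mul_zero]
    rintro rfl
    apply hw
    rw [above_iff hP]
    exact Finset.mem_coe.2 (Finset.mem_cons_self (h := hv) v D.S)
  · obtain ⟨u, hu, -⟩ := hw
    exact absurd hu (by simp)
  · ext γ
    have e1 : ((h : MonoidAlgebra ℤ G)).coeff γ = if (1 : G) = γ then (h : ℤ) else 0 := by
      rw [← nsmul_one, MonoidAlgebra.one_def, MonoidAlgebra.smul_single,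
        MonoidAlgebra.coeff_single, Finsupp.single_apply, nsmul_one]
    rw [coeff_OG, e1]
    by_cases hγ : (1 : G) = γ
    · rw [if_pos hγ, ← hγ, inv_one, act_one, hord, cnt_self, Nat.cast_one, mul_one]
    · rw [if_neg hγ]
      obtain ⟨w', hw', h3⟩ := (t_TRANS F H G v P hP).1 γ⁻¹
      have h4 : ordP P (act γ⁻¹ ε) = ordP w' ε := by
        apply ordP_eq_of_val
        rw [h3, act_val]
      rw [h4, hord, cnt_ne, Nat.cast_zero, mul_zero]
      rintro rfl
      apply hγ
      have h5 := dec_trivial (D.unramified v hv) (hσ ▸ D.frob v hv) hP γ⁻¹ fun z => by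
        exact (av_eq_of_val (h3 z)).symm
      rw [inv_eq_one] at h5
      exact h5.symm

theorem gpow_mem {S : Set (HeightOneSpectrum (𝓞 F))} {x : Hˣ}
    (hx : x ∈ unitGroup (H := H) S ∅) (a : MonoidAlgebra ℤ G) :
    gpow a x ∈ unitGroup (H := H) S ∅ := by
  unfold gpow
  refine Subgroup.prod_mem _ fun γ _ => Subgroup.zpow_mem _ ?_ _
  exact act_mem (F := F) t_TRANS S ∅ γ hx

theorem tau_mem (h : ℕ) (ε : Hˣ) (hε : ε ∈ US (addS D v hv hσ P hP))
    (hO : OG G P ε = (h : MonoidAlgebra ℤ G)) {x : Hˣ} (hx : x ∈ US (addS D v hv hσ P hP)) :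
    tau (G := G) P h ε x ∈ US D := by
  refine mem_of_OG D v hv hσ P hP ?_ (OG_tau P h ε hO x)
  exact Subgroup.mul_mem _ (Subgroup.pow_mem _ hx _) (gpow_mem hε _)

/-- **Stark's conjecture for `S` from `S ∪ {v}`.** -/
theorem stark_down (hSt : (addS D v hv hσ P hP).Stark ∅) : D.Stark ∅ := by
  obtain ⟨h, ε, hh, hε, hO⟩ := exists_eps_pow D v hv hσ P hP
  obtain ⟨u', e', s'⟩ := hSt
  have hNP := (split_res (hσ ▸ D.frob v hv : IsFrob (H := H) v (1 : G)) hP).1
  have hx' : ∀ (k : Fin u'.n) (b : Fin (D.r + 1)),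
      (u'.x k b : Hˣ) ∈ US (addS D v hv hσ P hP) := fun k b => U_le _ ∅ (u'.x k b).2
  let c : Fin u'.n × Fin (D.r + 1) → MonoidAlgebra ℚ G := fun i =>
    (-(((h : ℚ) ^ D.r)⁻¹ * (-1) ^ (D.r + (i.2 : ℕ)))) • (u'.c i.1 * toQ (OG G P (u'.x i.1 i.2)))
  let x : Fin u'.n × Fin (D.r + 1) → Fin D.r → D.U ∅ := fun i b =>
    ⟨tau (G := G) P h ε (u'.x i.1 (i.2.succAbove b)),
      mem_U_empty _ (tau_mem D v hv hσ P hP h ε hε hO (hx' i.1 (i.2.succAbove b)))⟩
  refine ⟨famWedge c x, ?_, ?_⟩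
  · intro χ hχ k
    rw [← active_addS D v hv hσ P hP] at hχ
    obtain ⟨i, hi⟩ : ∃ i, i = (Fintype.equivFin (Fin u'.n × Fin (D.r + 1))).symm k := ⟨_, rfl⟩
    change charValue χ (toR (c ((Fintype.equivFin (Fin u'.n × Fin (D.r + 1))).symm k))) = 0
    rw [← hi]
    have e1 : c i = MonoidAlgebra.single 1 (-(((h : ℚ) ^ D.r)⁻¹ * (-1) ^ (D.r + (i.2 : ℕ)))) *
        (u'.c i.1 * toQ (OG G P (u'.x i.1 i.2))) := by
      have e2 : (MonoidAlgebra.single (1 : G)
          (-(((h : ℚ) ^ D.r)⁻¹ * (-1) ^ (D.r + (i.2 : ℕ)))) : MonoidAlgebra ℚ G) =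
          (-(((h : ℚ) ^ D.r)⁻¹ * (-1) ^ (D.r + (i.2 : ℕ)))) • 1 := by
        rw [MonoidAlgebra.one_def, MonoidAlgebra.smul_single, smul_eq_mul, mul_one]
      rw [e2, smul_mul_assoc, one_mul]
    rw [e1, charValue_toR_mul, charValue_toR_mul, e' χ hχ i.1, zero_mul, mul_zero]
  · have hreg : u'.regulator (addS D v hv hσ P hP).w =
        (Real.log (Ideal.absNorm v.asIdeal : ℝ)) • (famWedge c x).regulator D.w := by
      rw [famWedge_regulator, Fintype.sum_prod_type, Finset.smul_sum]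
      unfold Wedge.regulator
      refine Finset.sum_congr rfl fun k _ => ?_
      have e := det_contract (R := MonoidAlgebra ℝ G) (r := D.r) (h : MonoidAlgebra ℝ G)
        ((-Real.log (Ideal.absNorm P.asIdeal : ℝ)) • 1)
        (Matrix.of fun a b => reg G ((addS D v hv hσ P hP).w a) (u'.x k b : Hˣ))
        (fun a b => reg G (D.w a) (u'.x k b : Hˣ)) (fun b => toR (toQ (OG G P (u'.x k b))))
        (fun a => reg G (D.w a) ε)
        (fun a b => congrArg (fun w => reg G w (u'.x k b : Hˣ)) (addS_w_castSucc D v hv hσ P hP a))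
        (fun b => by
          refine (congrArg (fun w => reg G w (u'.x k b : Hˣ)) (addS_w_last D v hv hσ P hP)).trans ?_
          rw [reg_inr, smul_mul_assoc, one_mul])
      have hh' : ((h : ℝ) ^ D.r) ≠ 0 := pow_ne_zero _ (by exact_mod_cast hh.ne')
      have e3 : Matrix.det (Matrix.of fun a b => reg G ((addS D v hv hσ P hP).w a)
          (u'.x k b : Hˣ)) = ((h : ℝ) ^ D.r)⁻¹ • ((h : MonoidAlgebra ℝ G) ^ D.r *
          Matrix.det (Matrix.of fun a b => reg G ((addS D v hv hσ P hP).w a)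
            (u'.x k b : Hˣ))) := by
        have e4 : (h : MonoidAlgebra ℝ G) ^ D.r = ((h : ℝ) ^ D.r) • 1 := by
          rw [← nsmul_one, ← Nat.cast_smul_eq_nsmul ℝ, smul_pow, one_pow]
        rw [e4, smul_mul_assoc, one_mul, smul_smul, inv_mul_cancel₀ hh', one_smul]
      refine (congrArg (fun z => toR (u'.c k) * z) e3).trans ?_
      refine (congrArg (fun z => toR (u'.c k) * (((h : ℝ) ^ D.r)⁻¹ • z)) e).trans ?_
      rw [hNP, smul_mul_assoc, one_mul, smul_smul, mul_smul_comm, Finset.mul_sum,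
        Finset.smul_sum, Finset.smul_sum]
      refine Finset.sum_congr rfl fun b _ => ?_
      have e5 : toR (c (k, b)) = (-(((h : ℝ) ^ D.r)⁻¹ * (-1) ^ (D.r + (b : ℕ)))) •
          (toR (u'.c k) * toR (toQ (OG G P (u'.x k b)))) := by
        change toR ((-(((h : ℚ) ^ D.r)⁻¹ * (-1) ^ (D.r + (b : ℕ)))) •
          (u'.c k * toQ (OG G P (u'.x k b)))) = _
        have e6 : ∀ (q : ℚ) (z : MonoidAlgebra ℚ G), toR (q • z) = (q : ℝ) • toR z := by
          intro q z
          ext γ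
          rw [toR, MonoidAlgebra.coeff_mapRingHom, MonoidAlgebra.coeff_smul,
            MonoidAlgebra.coeff_smul]
          simp [MonoidAlgebra.coeff_mapRingHom]
        rw [e6, map_mul]
        push_cast
        rfl
      have e7 : (Matrix.of fun a b' => reg G (D.w a) (x (k, b) b' : Hˣ)) =
          Matrix.of fun a c : Fin D.r => (h : MonoidAlgebra ℝ G) *
            reg G (D.w a) (u'.x k (b.succAbove c) : Hˣ) -
            reg G (D.w a) ε * toR (toQ (OG G P (u'.x k (b.succAbove c)))) := by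
        ext a b' : 1
        exact reg_tau P h ε (D.w a) _
      rw [e5, e7]
      have e8 : ((-1 : MonoidAlgebra ℝ G)) ^ (D.r + (b : ℕ)) =
          ((-1 : ℝ) ^ (D.r + (b : ℕ))) • 1 := by
        rw [show (-1 : MonoidAlgebra ℝ G) = (-1 : ℝ) • 1 by rw [neg_one_smul], smul_pow, one_pow]
      rw [e8]
      simp only [smul_mul_assoc, mul_smul_comm, one_mul, smul_smul, mul_assoc]
      congr 1
      ring
    intro χ
    have h1 := s' χ
    rw [hreg, charValue_smul] at h1
    exact (stark_addS_iff D v hv hσ P hP χ _).1 h1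

end

end Pool.Agent.U360.AS
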