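import Pool.Agent.U360.AS.Down2

/-!
# Removing a prime ideal which splits completely: integrality
-/

set_option autoImplicit false
set_option linter.unusedSectionVars false

open NumberField IsDedekindDomain Filter Topology

noncomputable section

namespace Pool.Agent.U360.AS

open Pool.Agent.K3h30.RS Pool.Agent.U360.RS Pool.Agent.K3h8.RS Pool.Agent.K3h25.RS
  Pool.Agent.K3h62.RS Pool.Agent.K3h3.RS

attribute [local instance] instA

/-- a retraction to the kernel of a homomorphism to a free group -/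
theorem exists_retract {G B : Type} [CommGroup G] [Finite G] [AddCommGroup B]
    (o : B →+ MonoidAlgebra ℤ G) :
    ∃ ρ : B →+ B, (∀ b, o (ρ b) = 0) ∧ ∀ b, o b = 0 → ρ b = b := by
  let c : MonoidAlgebra ℤ G →+ (G → ℤ) :=
    AddMonoidHom.mk' (fun z γ => z.coeff γ) fun x y => by
      funext γ
      rw [MonoidAlgebra.coeff_add]
      rfl
  let φ : B →ₗ[ℤ] (G → ℤ) := (c.comp o).toIntLinearMap
  have hφ : ∀ b, φ b = fun γ => (o b).coeff γ := fun b => rfl
  obtain ⟨s, hs⟩ := Module.projective_lifting_property φ.rangeRestrict LinearMap.id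
    φ.surjective_rangeRestrict
  have hs' : ∀ y, φ (s y) = (y : G → ℤ) := by
    intro y
    have h := LinearMap.congr_fun hs y
    exact congrArg Subtype.val h
  refine ⟨(LinearMap.id - s.comp φ.rangeRestrict).toAddMonoidHom, ?_, ?_⟩
  · intro b
    change o (b - s (φ.rangeRestrict b)) = 0
    have h1 : φ (b - s (φ.rangeRestrict b)) = 0 := by
      rw [map_sub, hs']
      exact sub_self _
    ext γ
    exact congrFun h1 γ
  · intro b hb
    change b - s (φ.rangeRestrict b) = b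
    have h1 : φ.rangeRestrict b = 0 := by
      apply Subtype.ext
      change φ b = 0
      rw [hφ, hb]
      rfl
    rw [h1, map_zero, sub_zero]

variable {F H G : Type} [Field F] [NumberField F] [Field H] [NumberField H] [Algebra F H]
  [CommGroup G] [Finite G] [MulSemiringAction G H]

variable [hG : IsGaloisGroup G F H] (D : RubinData F H G) (v : HeightOneSpectrum (𝓞 F))
  (hv : v ∉ D.S) (hσ : D.σ v = 1) (P : HeightOneSpectrum (𝓞 H)) (hP : Above {v} P)

/-- extension of the homomorphisms -/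
theorem exists_extend (t : HeightOneSpectrum (𝓞 F)) (ht : t ∉ D.S) (htv : t ≠ v)
    (f : Additive (US D) →+ MonoidAlgebra ℚ G) (hf : IsEquiv D f) (hi : IntOn D {t} f) :
    ∃ f' : Additive (US (addS D v hv hσ P hP)) →+ MonoidAlgebra ℚ G,
      IsEquiv (addS D v hv hσ P hP) f' ∧ IntOn (addS D v hv hσ P hP) {t} f' ∧
      ∀ a, f' (inc D v hv hσ P hP a) = f a := by
  obtain ⟨D', hD'⟩ : ∃ D' : RubinData F H G, D' = addS D v hv hσ P hP := ⟨_, rfl⟩
  have ht' : t ∉ (addS D v hv hσ P hP).S := by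
    intro h
    rcases (Finset.mem_cons (h := hv)).1 h with h | h
    · exact htv h
    · exact ht h
  obtain ⟨χ, m, hm0, hm, -, hker, -⟩ := exists_char (G := G) Pool.Agent.K3h44.RS.t_DLOG
    Pool.Agent.K3h44.RS.t_FROBU t_TRANS t_OVER (addS D v hv hσ P hP).S t ht' (D.σ t)
    (D.frob t ht)
  obtain ⟨B, hB⟩ : ∃ B : AddSubgroup (Additive (US (addS D v hv hσ P hP))),
    B = BL (addS D v hv hσ P hP) t := ⟨_, rfl⟩
  have hBm : ∀ a : Additive (US (addS D v hv hσ P hP)), m • a ∈ B := by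
    intro a
    obtain ⟨x, rfl⟩ : ∃ x, Additive.ofMul x = a := ⟨Additive.toMul a, rfl⟩
    rw [hB, ← ofMul_pow]
    refine ⟨(x ^ m).2.1, fun w hw => ?_⟩
    rw [Finset.coe_singleton] at hw
    refine (hker (x ^ m)).1 (fun γ => ?_) w hw
    rw [ofMul_pow]
    have h1 := map_nsmul (DistribSMul.toAddMonoidHom
      (Additive (US (addS D v hv hσ P hP))) γ) m (Additive.ofMul x)
    change χ (DistribSMul.toAddMonoidHom
      (Additive (US (addS D v hv hσ P hP))) γ (m • Additive.ofMul x)) = 0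
    rw [h1, map_nsmul, hm]
  let o : B →+ MonoidAlgebra ℤ G := ((OGL P).comp
    (MonoidHom.toAdditive (US (addS D v hv hσ P hP)).subtype)).comp B.subtype
  have ho : ∀ b : B, o b = OG G P ((Additive.toMul b.1 : US (addS D v hv hσ P hP)) : Hˣ) :=
    fun b => rfl
  obtain ⟨ρ, hρ1, hρ2⟩ := exists_retract o
  let ρ' : B →+ Additive (US D) := AddMonoidHom.mk' (fun b => Additive.ofMul
    ⟨((Additive.toMul (ρ b).1 : US (addS D v hv hσ P hP)) : Hˣ),
      mem_of_OG D v hv hσ P hP (Additive.toMul (ρ b).1).2 (hρ1 b)⟩) (by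
    intro a b
    apply Additive.toMul.injective
    apply Subtype.ext
    change ((Additive.toMul (ρ (a + b)).1 : US (addS D v hv hσ P hP)) : Hˣ) =
      ((Additive.toMul (ρ a).1 : US (addS D v hv hσ P hP)) : Hˣ) *
        ((Additive.toMul (ρ b).1 : US (addS D v hv hσ P hP)) : Hˣ)
    rw [map_add]
    rfl)
  have hρ' : ∀ b : B, ((Additive.toMul (ρ' b) : US D) : Hˣ) =
    ((Additive.toMul (ρ b).1 : US (addS D v hv hσ P hP)) : Hˣ) := fun b => rfl
  let κ : Additive (US D) →+ ℚ := AddMonoidHom.mk' (fun a => (f a).coeff 1) (by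
    intro a b
    rw [map_add, MonoidAlgebra.coeff_add]
    rfl)
  let κ' : Additive (US (addS D v hv hσ P hP)) →+ ℚ := AddMonoidHom.mk'
    (fun a => (m : ℚ)⁻¹ * κ (ρ' ⟨m • a, hBm a⟩)) (by
    intro a b
    have e : (⟨m • (a + b), hBm (a + b)⟩ : B) = ⟨m • a, hBm a⟩ + ⟨m • b, hBm b⟩ :=
      Subtype.ext (nsmul_add a b m)
    rw [← mul_add, ← map_add, ← map_add, ← e])
  have hm' : (m : ℚ) ≠ 0 := by exact_mod_cast hm0.ne'
  have hκ1 : ∀ b : B, κ' b.1 = κ (ρ' b) := by
    intro b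
    change (m : ℚ)⁻¹ * κ (ρ' ⟨m • b.1, hBm b.1⟩) = κ (ρ' b)
    have h1 : (⟨m • b.1, hBm b.1⟩ : B) = m • b := Subtype.ext rfl
    rw [h1, map_nsmul, map_nsmul, nsmul_eq_mul, ← mul_assoc, inv_mul_cancel₀ hm', one_mul]
  have hκ2 : ∀ a : Additive (US D), κ' (inc D v hv hσ P hP a) = κ a := by
    intro a
    change (m : ℚ)⁻¹ * κ (ρ' ⟨m • inc D v hv hσ P hP a, hBm _⟩) = κ a
    have h1 : ρ' ⟨m • inc D v hv hσ P hP a, hBm _⟩ = m • a := by
      apply Additive.toMul.injective
      apply Subtype.ext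
      rw [hρ', hρ2]
      · rfl
      · rw [ho]
        change OG G P (((Additive.toMul a : US D) : Hˣ) ^ m) = 0
        exact OG_of_mem D v hv P hP ((US D).pow_mem (Additive.toMul a).2 m)
    rw [h1, map_nsmul, nsmul_eq_mul, ← mul_assoc, inv_mul_cancel₀ hm', one_mul]
  refine ⟨toGQ κ', isEquiv_of_isEq _ (fun γ a => toGQ_smul κ' γ a), ?_, ?_⟩
  · intro x hx
    rw [mem_range_toQ]
    intro γ
    rw [coeff_toGQ]
    have h1 : γ⁻¹ • Additive.ofMul x ∈ B := by
      rw [hB]
      exact bl_smul (addS D v hv hσ P hP) t γ⁻¹ _ hx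
    rw [hκ1 ⟨γ⁻¹ • Additive.ofMul x, h1⟩]
    have h2 : f (ρ' ⟨γ⁻¹ • Additive.ofMul x, h1⟩) ∈ (toQ (G := G)).range := by
      refine hi (Additive.toMul (ρ' ⟨γ⁻¹ • Additive.ofMul x, h1⟩)) ?_
      have h3 : (ρ ⟨γ⁻¹ • Additive.ofMul x, h1⟩).1 ∈ BL (addS D v hv hσ P hP) t := by
        rw [← hB]
        exact (ρ ⟨γ⁻¹ • Additive.ofMul x, h1⟩).2
      exact ⟨(Additive.toMul (ρ' ⟨γ⁻¹ • Additive.ofMul x, h1⟩)).2.1, h3.2⟩
    rw [mem_range_toQ] at h2
    exact h2 1
  · intro a
    ext γ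
    rw [coeff_toGQ, ← inc_smul, hκ2, (isEq_of_isEquiv D hf).coeff]
    rfl

/-- the order functional -/
def ordF : Additive (US (addS D v hv hσ P hP)) →+ MonoidAlgebra ℚ G :=
  (toQ (G := G)).toAddMonoidHom.comp ((OGL P).comp
    (MonoidHom.toAdditive (US (addS D v hv hσ P hP)).subtype))

theorem ordF_apply (x : US (addS D v hv hσ P hP)) :
    ordF D v hv hσ P hP (Additive.ofMul x) = toQ (OG G P (x : Hˣ)) := rfl

/-- **Integrality for `S` from `S ∪ {v}`.** -/
theorem intAt_down (h : ℕ) (hh : 0 < h) (ε : Hˣ) (hε : ε ∈ US (addS D v hv hσ P hP))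
    (hO : OG G P ε = (h : MonoidAlgebra ℤ G)) (u₀ : Wedge G D.r (D.U ∅))
    (t : HeightOneSpectrum (𝓞 F)) (ht : t ∉ D.S) (htv : t ≠ v)
    (hI : IntAt (addS D v hv hσ P hP) (U_le _ ∅) (wedgeUp D v hv hσ P hP h ε hε u₀) {t}) :
    IntAt D (U_le D ∅) u₀ {t} := by
  intro f hf hi
  choose f' hf1 hf2 hf3 using fun i => exists_extend D v hv hσ P hP t ht htv (f i) (hf i) (hi i)
  let E : Fin (D.r + 1) → Additive (US (addS D v hv hσ P hP)) →+ MonoidAlgebra ℚ G :=
    Fin.snoc (α := fun _ => Additive (US (addS D v hv hσ P hP)) →+ MonoidAlgebra ℚ G) f'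
      (ordF D v hv hσ P hP)
  have hE1 : ∀ i, E (Fin.castSucc i) = f' i := fun i => Fin.snoc_castSucc
    (α := fun _ => Additive (US (addS D v hv hσ P hP)) →+ MonoidAlgebra ℚ G) _ _ i
  have hE2 : E (Fin.last D.r) = ordF D v hv hσ P hP := Fin.snoc_last
    (α := fun _ => Additive (US (addS D v hv hσ P hP)) →+ MonoidAlgebra ℚ G) _ _
  have h1 := hI E (fun i => by
    refine Fin.lastCases ?_ (fun i => ?_) i
    · rw [hE2]
      intro γ x y hxy
      rw [ordF_apply, ordF_apply, hxy, OG_act, map_mul]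
      congr 1
      simp [toQ]
    · rw [hE1]
      exact hf1 i) (fun i => by
    refine Fin.lastCases ?_ (fun i => ?_) i
    · rw [hE2]
      intro x _
      exact ⟨_, rfl⟩
    · rw [hE1]
      exact hf2 i)
  have h2 : wval (addS D v hv hσ P hP) (U_le _ ∅) E (wedgeUp D v hv hσ P hP h ε hε u₀) =
      -wval D (U_le D ∅) f u₀ := by
    rw [wval_wedgeUp, Y_apply]
    unfold wval
    rw [← Finset.sum_neg_distrib]
    refine Finset.sum_congr rfl fun k _ => ?_
    rw [det_block (R := MonoidAlgebra ℚ G) (r := D.r) _ (Matrix.of fun i j => f i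
      (Additive.ofMul ⟨(u₀.x k j : Hˣ), U_le D ∅ (u₀.x k j).2⟩)) (h : MonoidAlgebra ℚ G)]
    · have e1 : (MonoidAlgebra.single (1 : G) (-((h : ℚ)⁻¹)) : MonoidAlgebra ℚ G) *
          (h : MonoidAlgebra ℚ G) = -1 := by
        have e2 : (h : MonoidAlgebra ℚ G) = MonoidAlgebra.single 1 (h : ℚ) := by
          rw [← nsmul_one, MonoidAlgebra.one_def, MonoidAlgebra.smul_single, nsmul_one]
        have hh' : (h : ℚ) ≠ 0 := by exact_mod_cast hh.ne'
        rw [e2, MonoidAlgebra.single_mul_single, one_mul, neg_mul, inv_mul_cancel₀ hh',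
          MonoidAlgebra.one_def, MonoidAlgebra.single_neg]
      linear_combination (u₀.c k * Matrix.det (Matrix.of fun i j => f i
        (Additive.ofMul ⟨(u₀.x k j : Hˣ), U_le D ∅ (u₀.x k j).2⟩))) * e1
    · intro b
      rw [Matrix.of_apply, row_castSucc, hE2]
      change toQ (OG G P (u₀.x k b : Hˣ)) = 0
      rw [OG_of_mem D v hv P hP (U_le D ∅ (u₀.x k b).2), map_zero]
    · rw [Matrix.of_apply, row_last, hE2, ordF_apply, hO, map_natCast]
    · intro a b
      rw [Matrix.of_apply, row_castSucc, Matrix.of_apply, hE1]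
      exact hf3 a _
  rw [h2, mul_neg] at h1
  have h3 := (toQ (G := G)).range.neg_mem h1
  rw [neg_neg] at h3
  exact h3

/-- **Removing a prime ideal which splits completely.** -/
theorem rubin_down (h₁ : ∀ T, (addS D v hv hσ P hP).Allowed T →
    (addS D v hv hσ P hP).Rubin T) : ∀ T, D.Allowed T → D.Rubin T := by
  classical
  rcases dich D with h0 | h0
  · exact h0
  exfalso
  obtain ⟨t, ⟨hta, htr⟩, htb⟩ := posProportion_exists h0 {v}
  rw [Finset.mem_singleton] at htb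
  have htS : t ∉ D.S := fun h' => Finset.disjoint_left.1 hta.1 h' (Finset.mem_singleton_self t)
  have hta' : (addS D v hv hσ P hP).Allowed {t} := by
    refine ⟨Finset.disjoint_singleton_right.2 fun h' => ?_, hta.2⟩
    rcases (Finset.mem_cons (h := hv)).1 h' with h' | h'
    · exact htb h'
    · exact htS h'
  have hR := h₁ {t} hta'
  have hS : (addS D v hv hσ P hP).Stark {t} := by
    obtain ⟨u, e, -, s⟩ := hR
    exact ⟨u, e, s⟩
  obtain ⟨u₀, e₀, s₀⟩ := stark_down D v hv hσ P hP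
    (stark_all _ hS ∅ (Finset.disjoint_empty_right _))
  obtain ⟨h, ε, hh, hε, hO⟩ := exists_eps_pow D v hv hσ P hP
  have hI := intAt_of_rubin t_UNIQ' (addS D v hv hσ P hP) (U_le _ ∅)
    (wedgeUp D v hv hσ P hP h ε hε u₀) (inER_wedgeUp D v hv hσ P hP h ε hε u₀ e₀)
    (isStark_wedgeUp D v hv hσ P hP h hh ε hε hO u₀ s₀) {t} hR
  exact htr (rubin_of_intAt D u₀ e₀ s₀ {t} hta.1
    (intAt_down D v hv hσ P hP h hh ε hε hO u₀ t htS htb hI))

end Pool.Agent.U360.AS
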