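import Pool.Agent.U360.AS.Up
import Pool.Agent.U360.AS.Down3

/-!
# Rubin's conjecture for all `S` and all `T` is decided by one `S`
-/

set_option autoImplicit false
set_option linter.unusedSectionVars false

open NumberField IsDedekindDomain Filter Topology

noncomputable section

namespace Pool.Agent.U360.AS

open Pool.Agent.K3h30.RS Pool.Agent.U360.RS Pool.Agent.K3h8.RS Pool.Agent.K3h25.RS

variable {F H G : Type} [Field F] [NumberField F] [Field H] [NumberField H] [Algebra F H]
  [CommGroup G] [Finite G] [MulSemiringAction G H]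

theorem fermat_mem (w : HeightOneSpectrum (𝓞 H)) (x : 𝓞 H) :
    x - x ^ Ideal.absNorm w.asIdeal ∈ w.asIdeal := by
  have hmax : w.asIdeal.IsMaximal := w.isMaximal
  let _ : Field (𝓞 H ⧸ w.asIdeal) := Ideal.Quotient.field w.asIdeal
  have hfin : Finite (𝓞 H ⧸ w.asIdeal) := Ideal.finiteQuotientOfFreeOfNeBot w.asIdeal w.ne_bot
  let _ : Fintype (𝓞 H ⧸ w.asIdeal) := Fintype.ofFinite _
  have hcard : Ideal.absNorm w.asIdeal = Fintype.card (𝓞 H ⧸ w.asIdeal) := by
    rw [← Nat.card_eq_fintype_card]
    rfl
  rw [← Ideal.Quotient.eq_zero_iff_mem, map_sub, map_pow, hcard, FiniteField.pow_card, sub_self]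

theorem spl_iff_splitsIn (v : HeightOneSpectrum (𝓞 F)) : Spl H G v ↔ SplitsIn H v := by
  constructor
  · intro h
    exact ⟨h.1, fun P hP => (split_res h.2 hP).1⟩
  · intro h
    refine ⟨h.1, fun w hw x => ?_⟩
    rw [one_smul, ← h.2 w hw]
    have h1 := fermat_mem w x
    rw [← HeightOneSpectrum.valuation_lt_one_iff_mem (K := H)] at h1
    exact h1

/-- Rubin's conjecture for `H / F`, all sets `S` which contain all prime ideals of the set of `D`
which do not split completely in `H`, all `r` and all `T`. -/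
def RubinAll (D : RubinData F H G) : Prop :=
  ∀ D' : RubinData F H G, (∀ v ∈ D.S, v ∉ D'.S → SplitsIn H v) →
    ∀ T : Finset (HeightOneSpectrum (𝓞 F)), D'.Allowed T → D'.Rubin T

/-- The classes of the prime ideals of `𝓞 H` over elements of `S` generate a group which contains
the classes of all prime ideals over prime ideals of `𝓞 F` which split completely in `H`. -/
def Generates (H : Type) [Field H] [NumberField H] [Algebra F H]
    (S : Finset (HeightOneSpectrum (𝓞 F))) : Prop :=
  ∀ v : HeightOneSpectrum (𝓞 F), SplitsIn H v → ∀ P : HeightOneSpectrum (𝓞 H), Above {v} P →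
    cls P ∈ Subgroup.closure (cls '' {Q : HeightOneSpectrum (𝓞 H) |
      Above (S : Set (HeightOneSpectrum (𝓞 F))) Q})

theorem good_iff (S : Finset (HeightOneSpectrum (𝓞 F))) : Good (F := F) H G S ↔
    Generates (F := F) H S :=
  forall_congr' fun v => by rw [spl_iff_splitsIn]

variable [hG : IsGaloisGroup G F H]

/-- there are data for `S ∪ E` -/
theorem exists_data (D : RubinData F H G) [DecidableEq (HeightOneSpectrum (𝓞 F))]
    (E : Finset (HeightOneSpectrum (𝓞 F))) : ∃ D₂ : RubinData F H G, D₂.S = D.S ∪ E := by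
  induction E using Finset.induction_on with
  | empty => exact ⟨D, by rw [Finset.union_empty]⟩
  | insert v E hvE ih =>
    obtain ⟨D₂, hS⟩ := ih
    by_cases hv : v ∈ D₂.S
    · refine ⟨D₂, ?_⟩
      rw [Finset.union_insert, ← hS, Finset.insert_eq_of_mem hv]
    · by_cases hσ : D₂.σ v = 1
      · obtain ⟨P, hP⟩ := (t_OVER F H v).1
        refine ⟨addS D₂ v hv hσ P hP, ?_⟩
        change Finset.cons v D₂.S hv = _
        rw [Finset.cons_eq_insert, hS, Finset.union_insert]
      · refine ⟨addN D₂ v hv hσ, ?_⟩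
        change Finset.cons v D₂.S hv = _
        rw [Finset.cons_eq_insert, hS, Finset.union_insert]

/-- **Removing prime ideals which split completely.** -/
theorem rubin_remove [DecidableEq (HeightOneSpectrum (𝓞 F))]
    (E : Finset (HeightOneSpectrum (𝓞 F))) : (∀ v ∈ E, Spl H G v) → ∀ D' : RubinData F H G,
    (∀ D₂ : RubinData F H G, D₂.S = D'.S ∪ E → ∀ T, D₂.Allowed T → D₂.Rubin T) →
    ∀ T, D'.Allowed T → D'.Rubin T := by
  induction E using Finset.induction_on with
  | empty =>
    intro _ D' h
    exact h D' (by rw [Finset.union_empty])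
  | insert v E hvE ih =>
    intro hE D' h
    have hE' : ∀ v ∈ E, Spl H G v := fun u hu => hE u (Finset.mem_insert_of_mem hu)
    by_cases hv : v ∈ D'.S
    · refine ih hE' D' fun D₂ hS => h D₂ ?_
      rw [hS, Finset.union_insert, Finset.insert_eq_of_mem (Finset.mem_union_left _ hv)]
    · have hσ : D'.σ v = 1 := (spl_iff D' hv).2 (hE v (Finset.mem_insert_self v E))
      obtain ⟨P, hP⟩ := (t_OVER F H v).1
      refine rubin_down D' v hv hσ P hP (ih hE' (addS D' v hv hσ P hP) fun D₂ hS => h D₂ ?_)
      rw [hS]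
      change Finset.cons v D'.S hv ∪ E = _
      rw [Finset.cons_eq_insert, Finset.insert_union, Finset.union_insert]

/-- **One `S` decides.** -/
theorem rubinAll_of (D₁ : RubinData F H G) (hV : Generates (F := F) H D₁.S)
    (h₁ : ∀ T, D₁.Allowed T → D₁.Rubin T) : RubinAll D₁ := by
  classical
  intro D' hD'
  refine rubin_remove (D₁.S \ D'.S) (fun v hv => ?_) D' fun D₂ hS => ?_
  · rw [Finset.mem_sdiff] at hv
    exact (spl_iff_splitsIn v).2 (hD' v hv.1 hv.2)
  · refine rubin_up D₁.S ((good_iff D₁.S).2 hV) D₁ subset_rfl h₁ D₂ ?_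
    rw [hS]
    intro v hv
    by_cases h : v ∈ D'.S
    · exact Finset.mem_union_left _ h
    · exact Finset.mem_union_right _ (Finset.mem_sdiff.2 ⟨hv, h⟩)

end Pool.Agent.U360.AS
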