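import Pool.Agent.U360.RS.Main
import Pool.Agent.U360.AS.Alg2

/-!
# Places: decomposition groups, orders
-/

set_option autoImplicit false
set_option linter.unusedSectionVars false

open NumberField IsDedekindDomain Filter Topology

noncomputable section

namespace Pool.Agent.U360.AS

open Pool.Agent.K3h30.RS Pool.Agent.U360.RS Pool.Agent.K3h8.RS Pool.Agent.K3h25.RS

section ord

variable {H G : Type} [Field H] [NumberField H] [CommGroup G] [Finite G] [MulSemiringAction G H]

/-- the order of `x` at `P` -/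
def ordP (P : HeightOneSpectrum (𝓞 H)) (x : Hˣ) : ℤ := -(P.valuationOfNeZero x).toAdd

theorem ordP_mul (P : HeightOneSpectrum (𝓞 H)) (x y : Hˣ) :
    ordP P (x * y) = ordP P x + ordP P y := by
  unfold ordP
  rw [map_mul, toAdd_mul]
  ring

theorem ordP_one (P : HeightOneSpectrum (𝓞 H)) : ordP P 1 = 0 := by
  unfold ordP
  rw [map_one, toAdd_one, neg_zero]

theorem ordP_zpow (P : HeightOneSpectrum (𝓞 H)) (x : Hˣ) (n : ℤ) :
    ordP P (x ^ n) = n * ordP P x := by
  unfold ordP
  rw [map_zpow, toAdd_zpow, smul_eq_mul]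
  ring

theorem ordP_eq_of_val {P P' : HeightOneSpectrum (𝓞 H)} {x y : Hˣ}
    (h : P.valuation H (x : H) = P'.valuation H (y : H)) : ordP P x = ordP P' y := by
  unfold ordP
  rw [← HeightOneSpectrum.valuationOfNeZero_eq, ← HeightOneSpectrum.valuationOfNeZero_eq,
    WithZero.coe_inj] at h
  rw [h]

theorem ordP_eq_zero_iff (P : HeightOneSpectrum (𝓞 H)) (x : Hˣ) :
    ordP P x = 0 ↔ P.valuation H (x : H) = 1 := by
  unfold ordP
  rw [neg_eq_zero, toAdd_eq_zero, ← HeightOneSpectrum.valuationOfNeZero_eq, ← WithZero.coe_one,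
    WithZero.coe_inj]

theorem log_adic (P : HeightOneSpectrum (𝓞 H)) (x : Hˣ) :
    Real.log (av (Sum.inr P) (x : H)) =
      -(ordP P x : ℝ) * Real.log (Ideal.absNorm P.asIdeal : ℝ) := by
  have hne : P.valuation H (x : H) ≠ 0 := (Valuation.ne_zero_iff _).2 x.ne_zero
  change Real.log (HeightOneSpectrum.adicAbv H P (x : H)) = _
  rw [HeightOneSpectrum.adicAbv_def, WithZeroMulInt.toNNReal_neg_apply _ hne]
  push_cast
  rw [Real.log_zpow]
  congr 1
  unfold ordP
  push_cast
  rw [neg_neg]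
  congr 2
  have h := HeightOneSpectrum.valuationOfNeZero_eq P x
  have h2 : (P.valuationOfNeZero x) = WithZero.unzero hne := by
    apply WithZero.coe_injective
    rw [WithZero.coe_unzero, h]
  rw [h2]

/-- the element of `ℤ[G]` with the orders of the conjugates as coefficients -/
def OG (G : Type) [CommGroup G] [Finite G] [MulSemiringAction G H] (P : HeightOneSpectrum (𝓞 H))
    (x : Hˣ) : MonoidAlgebra ℤ G :=
  MonoidAlgebra.ofCoeff (Finsupp.equivFunOnFinite.symm fun γ : G => ordP P (act γ⁻¹ x))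

theorem coeff_OG (P : HeightOneSpectrum (𝓞 H)) (x : Hˣ) (γ : G) :
    (OG G P x).coeff γ = ordP P (act γ⁻¹ x) := rfl

theorem OG_mul (P : HeightOneSpectrum (𝓞 H)) (x y : Hˣ) :
    OG G P (x * y) = OG G P x + OG G P y := by
  ext γ
  rw [MonoidAlgebra.coeff_add, Finsupp.add_apply, coeff_OG, coeff_OG, coeff_OG, act_map_mul,
    ordP_mul]

theorem OG_one (P : HeightOneSpectrum (𝓞 H)) : OG G P 1 = 0 := by
  ext γ
  rw [coeff_OG, act_map_one, ordP_one]
  rfl

theorem OG_act (P : HeightOneSpectrum (𝓞 H)) (γ : G) (x : Hˣ) :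
    OG G P (act γ x) = MonoidAlgebra.single γ 1 * OG G P x := by
  ext γ'
  rw [MonoidAlgebra.coeff_single_mul_apply, coeff_OG, coeff_OG, one_mul, ← act_mul]
  congr 2
  rw [mul_inv_rev, inv_inv, mul_comm]

theorem OG_eq_zero_iff (P : HeightOneSpectrum (𝓞 H)) (x : Hˣ) :
    OG G P x = 0 ↔ ∀ γ : G, P.valuation H (γ • (x : H)) = 1 := by
  constructor
  · intro h γ
    have h1 := coeff_OG P x γ⁻¹
    rw [h, inv_inv] at h1
    exact (ordP_eq_zero_iff P (act γ x)).1 h1.symm
  · intro h
    ext γ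
    rw [coeff_OG]
    exact (ordP_eq_zero_iff P (act γ⁻¹ x)).2 (h γ⁻¹)

/-- the regulator map at a prime ideal -/
theorem reg_inr (P : HeightOneSpectrum (𝓞 H)) (x : Hˣ) :
    reg G (Sum.inr P) x = (-Real.log (Ideal.absNorm P.asIdeal : ℝ)) • toR (toQ (OG G P x)) := by
  classical
  let _ := Fintype.ofFinite G
  ext γ
  unfold reg
  rw [MonoidAlgebra.coeff_sum, Finsupp.finsetSum_apply, Finset.sum_eq_single γ]
  · rw [MonoidAlgebra.coeff_single, Finsupp.single_eq_same, MonoidAlgebra.coeff_smul,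
      Finsupp.smul_apply, toR, MonoidAlgebra.coeff_mapRingHom, coeff_toQ, coeff_OG, log_adic,
      smul_eq_mul]
    simp
    ring
  · intro g _ hg
    rw [MonoidAlgebra.coeff_single, Finsupp.single_apply, if_neg hg]
  · intro h; exact absurd (Finset.mem_univ _) h

end ord

section dec

variable {F H G : Type} [Field F] [NumberField F] [Field H] [NumberField H] [Algebra F H]
  [CommGroup G] [Finite G] [MulSemiringAction G H]

theorem av_eq_of_val {P : HeightOneSpectrum (𝓞 H)} {x y : H}
    (h : P.valuation H x = P.valuation H y) : av (Sum.inr P) x = av (Sum.inr P) y := by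
  change HeightOneSpectrum.adicAbv H P x = HeightOneSpectrum.adicAbv H P y
  rw [HeightOneSpectrum.adicAbv_def, HeightOneSpectrum.adicAbv_def, h]

theorem val_one_iff (P : HeightOneSpectrum (𝓞 H)) (x : Hˣ) :
    P.valuation H (x : H) = 1 ↔ av (Sum.inr P) (x : H) = 1 := by
  constructor
  · intro h
    change HeightOneSpectrum.adicAbv H P (x : H) = 1
    rw [HeightOneSpectrum.adicAbv_def, h, map_one]
    rfl
  · intro h
    apply Pool.Agent.K3h40.RS.val_eq_one_of_lg P x
    rw [Pool.Agent.K3h40.RS.lg_apply]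
    change Real.log (av (Sum.inr P) (x : H)) = 0
    rw [h, Real.log_one]

theorem lt_iff (P : HeightOneSpectrum (𝓞 H)) (x : H) :
    P.valuation H x < 1 ↔ av (Sum.inr P) x < 1 := by
  by_cases hx : x = 0
  · subst hx
    constructor
    · intro _
      change HeightOneSpectrum.adicAbv H P 0 < 1
      rw [map_zero]; exact zero_lt_one
    · intro _
      rw [map_zero]; exact zero_lt_one
  · have hne : P.valuation H x ≠ 0 := (Valuation.ne_zero_iff _).2 hx
    change _ ↔ HeightOneSpectrum.adicAbv H P x < 1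
    rw [HeightOneSpectrum.adicAbv_def, WithZeroMulInt.toNNReal_neg_apply _ hne]
    have hN : (1 : ℝ) < Ideal.absNorm P.asIdeal := by
      exact_mod_cast HeightOneSpectrum.one_lt_absNorm P
    push_cast
    rw [zpow_lt_one_iff_right₀ hN]
    obtain ⟨m, hm⟩ : ∃ m : Multiplicative ℤ, m = WithZero.unzero hne := ⟨_, rfl⟩
    have hm' : P.valuation H x = ((m : Multiplicative ℤ) : WithZero (Multiplicative ℤ)) := by
      rw [hm, WithZero.coe_unzero]
    rw [← hm, hm', ← WithZero.coe_one, WithZero.coe_lt_coe]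
    exact Iff.rfl

/-- the action of `γ` on the integers -/
theorem smul_int (γ : G) (x : 𝓞 H) : ((γ • x : 𝓞 H) : H) = γ • (x : H) := rfl

/-- the Frobenius automorphism is in the decomposition group -/
theorem val_frob {v : HeightOneSpectrum (𝓞 F)} {γ : G} (h : IsFrob (H := H) v γ)
    {P : HeightOneSpectrum (𝓞 H)} (hP : Above {v} P) (x : H) :
    P.valuation H x = P.valuation H (γ • x) := by
  refine val_aut P P γ (fun y => ?_) x
  have h1 := h P hP y
  have hq : Ideal.absNorm v.asIdeal ≠ 0 := by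
    have := Pool.Agent.K3h62.RS.two_le_absNorm v
    omega
  have h2 : (γ • y - y ^ Ideal.absNorm v.asIdeal : 𝓞 H) ∈ P.asIdeal := by
    rw [← HeightOneSpectrum.valuation_lt_one_iff_mem (K := H)]
    push_cast
    exact h1
  constructor
  · intro hy
    have h3 := P.asIdeal.add_mem h2 (Ideal.pow_mem_of_mem _ hy _ (Nat.pos_of_ne_zero hq))
    rwa [sub_add_cancel] at h3
  · intro hy
    have h3 := P.asIdeal.sub_mem hy h2
    rw [sub_sub_cancel] at h3
    exact P.isPrime.mem_of_pow_mem _ h3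

theorem fixes_of_frob {v : HeightOneSpectrum (𝓞 F)} {γ : G} (h : IsFrob (H := H) v γ)
    {P : HeightOneSpectrum (𝓞 H)} (hP : Above {v} P) : Fixes (Sum.inr P : Place H) γ :=
  fun x => (av_eq_of_val (val_frob h hP x)).symm

/-- the residue field is that of `v` if the Frobenius automorphism is trivial -/
theorem split_res {v : HeightOneSpectrum (𝓞 F)} (h : IsFrob (H := H) v (1 : G))
    {P : HeightOneSpectrum (𝓞 H)} (hP : Above {v} P) :
    Ideal.absNorm P.asIdeal = Ideal.absNorm v.asIdeal ∧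
      ∀ x : 𝓞 H, ∃ y : 𝓞 F, x - algebraMap (𝓞 F) (𝓞 H) y ∈ P.asIdeal := by
  classical
  have hPc := (above_singleton).1 hP
  let φ : 𝓞 F ⧸ v.asIdeal →+* 𝓞 H ⧸ P.asIdeal :=
    Ideal.quotientMap P.asIdeal (algebraMap (𝓞 F) (𝓞 H)) (by rw [hPc])
  have hφ : Function.Injective φ := Ideal.quotientMap_injective' (by rw [hPc])
  have hPmax : P.asIdeal.IsMaximal := P.isMaximal
  have hvmax : v.asIdeal.IsMaximal := v.isMaximal
  let _ := Ideal.Quotient.field P.asIdeal
  have hPfin : Finite (𝓞 H ⧸ P.asIdeal) := Ideal.finiteQuotientOfFreeOfNeBot P.asIdeal P.ne_bot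
  have hvfin : Finite (𝓞 F ⧸ v.asIdeal) := Ideal.finiteQuotientOfFreeOfNeBot v.asIdeal v.ne_bot
  have := Fintype.ofFinite (𝓞 H ⧸ P.asIdeal)
  have := Fintype.ofFinite (𝓞 F ⧸ v.asIdeal)
  have e1 : Ideal.absNorm P.asIdeal = Fintype.card (𝓞 H ⧸ P.asIdeal) := by
    rw [Ideal.absNorm_apply, Submodule.cardQuot_apply, Nat.card_eq_fintype_card]
  have e2 : Ideal.absNorm v.asIdeal = Fintype.card (𝓞 F ⧸ v.asIdeal) := by
    rw [Ideal.absNorm_apply, Submodule.cardQuot_apply, Nat.card_eq_fintype_card]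
  have hq := Pool.Agent.K3h62.RS.two_le_absNorm v
  have hpow : ∀ z : 𝓞 H ⧸ P.asIdeal, z ^ Ideal.absNorm v.asIdeal = z := by
    intro z
    obtain ⟨x, rfl⟩ := Ideal.Quotient.mk_surjective z
    have h1 := h P hP x
    rw [one_smul] at h1
    have h2 : (x - x ^ Ideal.absNorm v.asIdeal : 𝓞 H) ∈ P.asIdeal := by
      rw [← HeightOneSpectrum.valuation_lt_one_iff_mem (K := H)]
      push_cast
      exact h1
    rw [← map_pow]
    exact (Ideal.Quotient.eq.2 h2).symm
  have hle : Fintype.card (𝓞 H ⧸ P.asIdeal) ≤ Ideal.absNorm v.asIdeal := by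
    have hX : (Polynomial.X ^ Ideal.absNorm v.asIdeal - Polynomial.X :
        Polynomial (𝓞 H ⧸ P.asIdeal)) ≠ 0 := FiniteField.X_pow_card_sub_X_ne_zero _ hq
    have h3 : (Finset.univ : Finset (𝓞 H ⧸ P.asIdeal)).val ≤
        (Polynomial.X ^ Ideal.absNorm v.asIdeal - Polynomial.X :
          Polynomial (𝓞 H ⧸ P.asIdeal)).roots := by
      rw [Finset.val_le_iff_val_subset]
      intro z _
      rw [Polynomial.mem_roots hX, Polynomial.IsRoot.def, Polynomial.eval_sub,
        Polynomial.eval_pow, Polynomial.eval_X, hpow, sub_self]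
    have h4 := Multiset.card_le_card h3
    have h5 := Polynomial.card_roots' (Polynomial.X ^ Ideal.absNorm v.asIdeal - Polynomial.X :
      Polynomial (𝓞 H ⧸ P.asIdeal))
    rw [FiniteField.X_pow_card_sub_X_natDegree_eq _ hq] at h5
    exact h4.trans h5
  have hle' : Fintype.card (𝓞 F ⧸ v.asIdeal) ≤ Fintype.card (𝓞 H ⧸ P.asIdeal) :=
    Fintype.card_le_of_injective φ hφ
  have hcard : Fintype.card (𝓞 H ⧸ P.asIdeal) = Fintype.card (𝓞 F ⧸ v.asIdeal) := by omega
  refine ⟨by rw [e1, e2, hcard], fun x => ?_⟩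
  have hsurj : Function.Surjective φ := by
    have := (Fintype.bijective_iff_injective_and_card φ).2 ⟨hφ, hcard.symm⟩
    exact this.2
  obtain ⟨z, hz⟩ := hsurj (Ideal.Quotient.mk P.asIdeal x)
  obtain ⟨y, rfl⟩ := Ideal.Quotient.mk_surjective z
  refine ⟨y, ?_⟩
  rw [← Ideal.Quotient.eq, ← hz]
  rfl

/-- the decomposition group is trivial if the Frobenius automorphism is trivial -/
theorem dec_trivial [hG : IsGaloisGroup G F H] {v : HeightOneSpectrum (𝓞 F)}
    (hsq : Squarefree (v.asIdeal.map (algebraMap (𝓞 F) (𝓞 H)))) (h : IsFrob (H := H) v (1 : G))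
    {P : HeightOneSpectrum (𝓞 H)} (hP : Above {v} P) (γ : G)
    (hγ : Fixes (Sum.inr P : Place H) γ) : γ = 1 := by
  refine Pool.Agent.K3h23.RS.t_FROBUNIQ F H G v hsq γ 1 (fun w hw x => ?_) h
  obtain ⟨y, hy⟩ := (split_res h hw).2 x
  obtain ⟨g, hg⟩ := (t_TRANS F H G v P hP).2 w hw
  have hγw : ∀ z : H, w.valuation H z < 1 → w.valuation H (γ • z) < 1 := by
    intro z hz
    rw [hg, ← mul_smul, mul_comm, mul_smul, lt_iff, hγ, ← lt_iff, ← hg]
    exact hz
  have h1 : w.valuation H ((x : H) - algebraMap F H (y : F)) < 1 := by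
    rw [← HeightOneSpectrum.valuation_lt_one_iff_mem (K := H)] at hy
    push_cast at hy
    exact hy
  have h2 := hγw _ h1
  have h3 := h w hw x
  rw [one_smul] at h3
  have hFy : γ • algebraMap F H (y : F) = algebraMap F H (y : F) := by
    have := hG.commutes
    exact smul_algebraMap γ (y : F)
  have h4 : γ • (x : H) - (x : H) ^ Ideal.absNorm v.asIdeal =
      γ • ((x : H) - algebraMap F H (y : F)) + ((-((x : H) - algebraMap F H (y : F))) +
        ((x : H) - (x : H) ^ Ideal.absNorm v.asIdeal)) := by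
    rw [smul_sub, hFy]
    ring
  rw [h4]
  refine lt_of_le_of_lt (Valuation.map_add _ _ _) (max_lt h2 ?_)
  refine lt_of_le_of_lt (Valuation.map_add _ _ _) (max_lt ?_ h3)
  rw [Valuation.map_neg]
  exact h1

/-- conjugate prime ideals over a split prime ideal -/
theorem conj_of_split [hG : IsGaloisGroup G F H] {v : HeightOneSpectrum (𝓞 F)}
    (h : IsFrob (H := H) v (1 : G)) {P P' : HeightOneSpectrum (𝓞 H)} (hP : Above {v} P)
    (hP' : Above {v} P') : Conj G (Sum.inr P' : Place H) (Sum.inr P : Place H) := by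
  obtain ⟨g, hg⟩ := (t_TRANS F H G v P hP).2 P' hP'
  refine ⟨g, fun x => ?_⟩
  have hN : Ideal.absNorm P'.asIdeal = Ideal.absNorm P.asIdeal := by
    rw [(split_res h hP').1, (split_res h hP).1]
  by_cases hx : x = 0
  · subst hx
    rw [smul_zero]
    change HeightOneSpectrum.adicAbv H P' 0 = HeightOneSpectrum.adicAbv H P 0
    rw [map_zero, map_zero]
  · have h1 := log_adic P' (Units.mk0 x hx)
    have h2 := log_adic P (act g (Units.mk0 x hx))
    have h3 : ordP P' (Units.mk0 x hx) = ordP P (act g (Units.mk0 x hx)) :=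
      ordP_eq_of_val (hg x)
    rw [h3, hN, ← h2] at h1
    exact Real.log_injOn_pos (Pool.Agent.K3h40.RS.av_pos _ _)
      (Pool.Agent.K3h40.RS.av_pos _ _) h1

/-- conjugate places lie over the same prime ideal of `F` -/
theorem conj_above {S : Set (HeightOneSpectrum (𝓞 F))} {v : HeightOneSpectrum (𝓞 F)}
    {P : HeightOneSpectrum (𝓞 H)} (hP : Above {v} P) {w : Place H} (hw : InS S w) (g : G)
    (hF : ∀ x : F, g • algebraMap F H x = algebraMap F H x)
    (h : ∀ x : H, av w x = av (Sum.inr P) (g • x)) : v ∈ S := by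
  rcases w with w | w
  · exfalso
    have h1 := h 2
    have h2 : g • (2 : H) = 2 := by
      have := hF 2
      rwa [map_ofNat] at this
    rw [h2] at h1
    have h3 : av (Sum.inr P : Place H) (2 : H) ≤ 1 := by
      change HeightOneSpectrum.adicAbv H P 2 ≤ 1
      have := HeightOneSpectrum.adicAbv_natCast_le_one H P 2
      simpa using this
    have h4 : (1 : ℝ) < av (Sum.inl w : Place H) (2 : H) := by
      change (1 : ℝ) < w 2 ^ w.mult
      have h5 : w (2 : H) = 2 := by
        rw [← InfinitePlace.norm_embedding_eq, map_ofNat]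
        simp
      rw [h5]
      exact one_lt_pow₀ one_lt_two (InfinitePlace.mult_pos).ne'
    linarith
  · obtain ⟨u, hu, huw⟩ := above_mem (hw : Above S w)
    have hPc := above_singleton.1 hP
    have hwc := above_singleton.1 huw
    have : u = v := by
      apply HeightOneSpectrum.ext
      rw [← hPc, ← hwc]
      ext y
      rw [Ideal.mem_comap, Ideal.mem_comap, ← HeightOneSpectrum.valuation_lt_one_iff_mem (K := H),
        ← HeightOneSpectrum.valuation_lt_one_iff_mem (K := H), lt_iff, lt_iff, h]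
      have e : g • ((algebraMap (𝓞 F) (𝓞 H) y : 𝓞 H) : H) = (algebraMap (𝓞 F) (𝓞 H) y : 𝓞 H) :=
        hF (y : F)
      rw [e]
    rw [← this]
    exact hu

end dec

end Pool.Agent.U360.AS
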