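import Pool.Agent.U360.AS.Add

/-!
# Adding a prime ideal which does not split completely
-/

set_option autoImplicit false
set_option linter.unusedSectionVars false

open NumberField IsDedekindDomain Filter Topology

noncomputable section

namespace Pool.Agent.U360.AS

open Pool.Agent.K3h30.RS Pool.Agent.U360.RS Pool.Agent.K3h8.RS Pool.Agent.K3h25.RS
  Pool.Agent.K3h62.RS Pool.Agent.K3h3.RS

variable {F H G : Type} [Field F] [NumberField F] [Field H] [NumberField H] [Algebra F H]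
  [CommGroup G] [Finite G] [MulSemiringAction G H]

theorem charValue_toR_mul (χ : G →* ℂˣ) (a b : MonoidAlgebra ℚ G) :
    charValue χ (toR (a * b)) = charValue χ (toR a) * charValue χ (toR b) := by
  rw [← cvQ_apply, map_mul, cvQ_apply, cvQ_apply]

theorem charValue_toR_single (χ : G →* ℂˣ) (g : G) (a : ℚ) :
    charValue χ (toR (MonoidAlgebra.single g a)) = a * (χ g : ℂ) := by
  rw [toR_single, charValue_eq, cvHom_single]
  push_cast
  rfl

theorem charValue_one_sub (χ : G →* ℂˣ) (g : G) :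
    charValue χ (toR (1 - MonoidAlgebra.single g 1)) = 1 - (χ g : ℂ) := by
  rw [← cvQ_apply, map_sub, map_one, cvQ_apply, charValue_toR_single]
  push_cast
  ring

theorem U_mono {S S' : Finset (HeightOneSpectrum (𝓞 F))} (h : S ⊆ S')
    (T : Set (HeightOneSpectrum (𝓞 F))) :
    unitGroup (H := H) (S : Set (HeightOneSpectrum (𝓞 F))) T ≤
      unitGroup (H := H) (S' : Set (HeightOneSpectrum (𝓞 F))) T := by
  intro x hx
  refine ⟨fun w hw => hx.1 w fun h' => hw ?_, hx.2⟩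
  obtain ⟨u, hu, hu'⟩ := h'
  exact ⟨u, Finset.mem_coe.2 (h (Finset.mem_coe.1 hu)), hu'⟩

theorem subset_cons' {S : Finset (HeightOneSpectrum (𝓞 F))} {v : HeightOneSpectrum (𝓞 F)}
    (hv : v ∉ S) : S ⊆ Finset.cons v S hv := fun _ hu => Finset.mem_cons_of_mem hu

/-- restriction of a `G`-homomorphism to a smaller group -/
def GHom.restr {U U' : Subgroup Hˣ} (h : U ≤ U') (ψ : GHom G U') : GHom G U where
  f := ψ.f.comp (MonoidHom.toAdditive (Subgroup.inclusion h))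
  equiv := by
    intro γ x y hxy
    exact ψ.equiv γ (Subgroup.inclusion h x) (Subgroup.inclusion h y) hxy

theorem LT_addN [hG : IsGaloisGroup G F H] (D : RubinData F H G)
    (v : HeightOneSpectrum (𝓞 F)) (hv : v ∉ D.S) (hσ : D.σ v ≠ 1)
    (T : Finset (HeightOneSpectrum (𝓞 F))) (χ : G →* ℂˣ) (s : ℂ) :
    (addN D v hv hσ).LT T χ s =
      (1 - ((χ (D.σ v) : ℂˣ) : ℂ) * (Ideal.absNorm v.asIdeal : ℂ) ^ (-s)) * D.LT T χ s := by
  change (∏ v ∈ T, (1 - ((χ (D.σ v) : ℂˣ) : ℂ) * (Ideal.absNorm v.asIdeal : ℂ) ^ (1 - s))) *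
    ((1 - ((χ (D.σ v) : ℂˣ) : ℂ) * (Ideal.absNorm v.asIdeal : ℂ) ^ (-s)) * D.L χ s) =
    (1 - ((χ (D.σ v) : ℂˣ) : ℂ) * (Ideal.absNorm v.asIdeal : ℂ) ^ (-s)) *
    ((∏ v ∈ T, (1 - ((χ (D.σ v) : ℂˣ) : ℂ) * (Ideal.absNorm v.asIdeal : ℂ) ^ (1 - s))) * D.L χ s)
  ring

theorem LT_addS [hG : IsGaloisGroup G F H] (D : RubinData F H G)
    (v : HeightOneSpectrum (𝓞 F)) (hv : v ∉ D.S) (hσ : D.σ v = 1)
    (P : HeightOneSpectrum (𝓞 H)) (hP : Above {v} P)
    (T : Finset (HeightOneSpectrum (𝓞 F))) (χ : G →* ℂˣ) (s : ℂ) :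
    (addS D v hv hσ P hP).LT T χ s =
      (1 - (Ideal.absNorm v.asIdeal : ℂ) ^ (-s)) * D.LT T χ s := by
  have h1 : ((χ (D.σ v) : ℂˣ) : ℂ) = 1 := by rw [hσ, map_one, Units.val_one]
  have h2 : (addS D v hv hσ P hP).LT T χ s =
      (∏ v ∈ T, (1 - ((χ (D.σ v) : ℂˣ) : ℂ) * (Ideal.absNorm v.asIdeal : ℂ) ^ (1 - s))) *
      ((1 - ((χ (D.σ v) : ℂˣ) : ℂ) * (Ideal.absNorm v.asIdeal : ℂ) ^ (-s)) * D.L χ s) := rfl
  have h3 : D.LT T χ s =
      (∏ v ∈ T, (1 - ((χ (D.σ v) : ℂˣ) : ℂ) * (Ideal.absNorm v.asIdeal : ℂ) ^ (1 - s))) *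
      D.L χ s := rfl
  rw [h2, h3, h1]
  ring

/-- **Adding a prime ideal which does not split completely.** -/
theorem rubin_addN [hG : IsGaloisGroup G F H] (D : RubinData F H G)
    (v : HeightOneSpectrum (𝓞 F)) (hv : v ∉ D.S) (hσ : D.σ v ≠ 1)
    (T : Finset (HeightOneSpectrum (𝓞 F))) (h : D.Rubin T) : (addN D v hv hσ).Rubin T := by
  obtain ⟨u, hE, hI, hS⟩ := h
  have hle : D.U T ≤ (addN D v hv hσ).U T := U_mono (subset_cons' hv) _
  let u' : Wedge G (addN D v hv hσ).r ((addN D v hv hσ).U T) :=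
    { n := u.n
      c := fun k => (1 - MonoidAlgebra.single (D.σ v)⁻¹ 1) * u.c k
      x := fun k i => ⟨(u.x k i : Hˣ), hle (u.x k i).2⟩ }
  refine ⟨u', ?_, ?_, ?_⟩
  · intro χ hχ k
    change charValue χ (toR ((1 - MonoidAlgebra.single (D.σ v)⁻¹ 1) * u.c k)) = 0
    rw [charValue_toR_mul, charValue_one_sub]
    by_cases h1 : χ (D.σ v) = 1
    · rw [map_inv, h1, inv_one, Units.val_one, sub_self, zero_mul]
    · rw [hE χ ?_ k, mul_zero]
      intro hact
      apply hχ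
      rcases hact with hact | ⟨h2, -⟩
      · left
        intro w hw hw'
        rcases inS_cons hv hw with h3 | ⟨P, hP, rfl⟩
        · exact hact w h3 hw'
        · exact ⟨D.σ v, fixes_of_frob (D.frob v hv) hP, h1⟩
      · exact absurd (by rw [h2]; rfl) h1
  · intro ψ
    obtain ⟨z, hz⟩ := hI fun i => GHom.restr hle (ψ i)
    refine ⟨(1 - MonoidAlgebra.single (D.σ v)⁻¹ 1) * z, ?_⟩
    have e1 : u'.value ψ = (1 - MonoidAlgebra.single (D.σ v)⁻¹ 1) *
        u.value (fun i => GHom.restr hle (ψ i)) := by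
      unfold Wedge.value
      rw [Finset.mul_sum]
      refine Finset.sum_congr rfl fun k _ => ?_
      rw [← mul_assoc]
      rfl
    rw [e1, hz, map_mul, map_sub, map_one]
    congr 2
    simp [toQ]
  · intro χ
    have h1 := hS χ
    have hreg : u'.regulator (addN D v hv hσ).w =
        toR (1 - MonoidAlgebra.single (D.σ v)⁻¹ 1) * u.regulator D.w := by
      unfold Wedge.regulator
      rw [Finset.mul_sum]
      refine Finset.sum_congr rfl fun k _ => ?_
      change toR ((1 - MonoidAlgebra.single (D.σ v)⁻¹ 1) * u.c k) * _ = _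
      rw [map_mul, ← mul_assoc]
      rfl
    rw [hreg, charValue_mul, charValue_one_sub]
    have hN : (Ideal.absNorm v.asIdeal : ℂ) ≠ 0 := by
      have := two_le_absNorm v
      exact_mod_cast (show Ideal.absNorm v.asIdeal ≠ 0 by omega)
    have h2 : Tendsto (fun s : ℂ => 1 - ((χ⁻¹ (D.σ v) : ℂˣ) : ℂ) *
        (Ideal.absNorm v.asIdeal : ℂ) ^ (-s)) (𝓝[≠] 0)
        (𝓝 (1 - ((χ (D.σ v)⁻¹ : ℂˣ) : ℂ))) := by
      have hc : Continuous fun s : ℂ => 1 - ((χ⁻¹ (D.σ v) : ℂˣ) : ℂ) *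
          (Ideal.absNorm v.asIdeal : ℂ) ^ (-s) :=
        continuous_const.sub (continuous_const.mul
          (Continuous.const_cpow continuous_neg (Or.inl hN)))
      have h3 := (hc.tendsto 0).mono_left (nhdsWithin_le_nhds (s := {0}ᶜ))
      rw [neg_zero, Complex.cpow_zero, mul_one] at h3
      have h4 : χ⁻¹ (D.σ v) = χ (D.σ v)⁻¹ := by rw [MonoidHom.inv_apply, map_inv]
      rw [← h4]
      exact h3
    refine (h2.mul h1).congr fun s => ?_
    rw [LT_addN]
    change _ = (s ^ D.r)⁻¹ * _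
    ring

end Pool.Agent.U360.AS
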