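import Pool.Agent.U360.AS.Wed
import Pool.Agent.U360.AS.Bl

/-!
# Adding a prime ideal which splits completely and whose prime ideals are principal over `S`
-/

set_option autoImplicit false
set_option linter.unusedSectionVars false

open NumberField IsDedekindDomain Filter Topology

noncomputable section

namespace Pool.Agent.U360.AS

open Pool.Agent.K3h30.RS Pool.Agent.U360.RS Pool.Agent.K3h8.RS Pool.Agent.K3h25.RS

attribute [local instance] instA

variable {F H G : Type} [Field F] [NumberField F] [Field H] [NumberField H] [Algebra F H]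
  [CommGroup G] [Finite G] [MulSemiringAction G H]

variable [hG : IsGaloisGroup G F H] (D : RubinData F H G) (v : HeightOneSpectrum (𝓞 F))
  (hv : v ∉ D.S) (hσ : D.σ v = 1) (P : HeightOneSpectrum (𝓞 H)) (hP : Above {v} P)

/-- the inclusion of the `S`-units in the `S ∪ {v}`-units -/
def inc : Additive (US D) →+ Additive (US (addS D v hv hσ P hP)) :=
  MonoidHom.toAdditive (Subgroup.inclusion (US_le_addS D v hv hσ P hP))

theorem inc_smul (γ : G) (u : Additive (US D)) :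
    inc D v hv hσ P hP (γ • u) = γ • inc D v hv hσ P hP u := rfl

theorem wval_wedgeUp (h : ℕ) (ε : Hˣ) (hε : ε ∈ US (addS D v hv hσ P hP))
    (u : Wedge G D.r (D.U ∅))
    (f : Fin (D.r + 1) → Additive (US (addS D v hv hσ P hP)) →+ MonoidAlgebra ℚ G) :
    wval (addS D v hv hσ P hP) (U_le _ ∅) f (wedgeUp D v hv hσ P hP h ε hε u) =
      Y (fun k => MonoidAlgebra.single 1 (-((h : ℚ)⁻¹)) * u.c k)
        (fun k j => (Additive.ofMul ⟨(u.x k j : Hˣ), U_le D ∅ (u.x k j).2⟩ : Additive (US D)))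
        (fun i => (⇑((f i).comp (inc D v hv hσ P hP)), f i (Additive.ofMul ⟨ε, hε⟩))) := by
  rw [Y_apply]
  unfold wval
  refine Finset.sum_congr rfl fun k _ => ?_
  refine congrArg (fun z => MonoidAlgebra.single 1 (-((h : ℚ)⁻¹)) * u.c k * z) ?_
  refine congrArg Matrix.det ?_
  ext i j : 1
  revert j
  refine Fin.lastCases ?_ (fun j => ?_)
  · refine (congrArg (f i) (congrArg Additive.ofMul
      (Subtype.ext (a2 := (⟨ε, hε⟩ : US (addS D v hv hσ P hP)))
        (wedgeUp_x_last D v hv hσ P hP h ε hε u k)))).trans ?_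
    exact (row_last (R := MonoidAlgebra ℚ G)
      (fun j => (Additive.ofMul ⟨(u.x k j : Hˣ), U_le D ∅ (u.x k j).2⟩ : Additive (US D)))
      (⇑((f i).comp (inc D v hv hσ P hP)), f i (Additive.ofMul ⟨ε, hε⟩))).symm
  · refine (congrArg (f i) (congrArg Additive.ofMul
      (Subtype.ext (a2 := (⟨(u.x k j : Hˣ), US_le_addS D v hv hσ P hP
        (U_le D ∅ (u.x k j).2)⟩ : US (addS D v hv hσ P hP)))
        (wedgeUp_x_castSucc D v hv hσ P hP h ε hε u k j)))).trans ?_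
    exact (row_castSucc (R := MonoidAlgebra ℚ G)
      (fun j => (Additive.ofMul ⟨(u.x k j : Hˣ), U_le D ∅ (u.x k j).2⟩ : Additive (US D)))
      (⇑((f i).comp (inc D v hv hσ P hP)), f i (Additive.ofMul ⟨ε, hε⟩)) j).symm

theorem neg_sum_mem {n : ℕ} (δ : MonoidAlgebra ℚ G) (c d : Fin n → MonoidAlgebra ℚ G)
    (h : δ * ∑ k, c k * d k ∈ ZG G) :
    δ * ∑ k, (MonoidAlgebra.single 1 (-(((1 : ℕ) : ℚ)⁻¹)) * c k) * d k ∈ ZG G := by
  have e : ∀ k, (MonoidAlgebra.single 1 (-(((1 : ℕ) : ℚ)⁻¹)) * c k) * d k = -(c k * d k) := by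
    intro k
    have h1 : (MonoidAlgebra.single (1 : G) (-(((1 : ℕ) : ℚ)⁻¹)) : MonoidAlgebra ℚ G) = -1 := by
      rw [Nat.cast_one, inv_one, MonoidAlgebra.one_def, ← MonoidAlgebra.single_neg]
    rw [h1]
    ring
  simp only [e]
  rw [Finset.sum_neg_distrib, mul_neg]
  exact (ZG G).neg_mem h

/-- **Integrality at `t` for `S ∪ {v}`.** -/
theorem intAt_addS (ε : Hˣ) (hε : ε ∈ US (addS D v hv hσ P hP))
    (u₀ : Wedge G D.r (D.U ∅)) (bad : Finset (HeightOneSpectrum (𝓞 F)))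
    (hbad : ∀ l, l ∉ bad → l ∉ D.S ∧ Module.finrank ℚ F + 1 < ringChar (𝓞 F ⧸ l.asIdeal))
    (hI : ∀ l, l ∉ bad → IntAt D (U_le D ∅) u₀ {l})
    (n : ℕ) (hn : 0 < n) (hnI : ((n : ℤ) : MonoidAlgebra ℤ G) ∈ annI D bad) (τ : Hˣ)
    (hτ : orderOf τ = n)
    (hk : ∀ a : MonoidAlgebra ℤ G, ∃ k : ℤ, a - (k : MonoidAlgebra ℤ G) ∈ annI D bad)
    (t : HeightOneSpectrum (𝓞 F)) (ht : t ∉ bad) (htv : t ≠ v)
    (htn : ∀ w : HeightOneSpectrum (𝓞 H), Above {t} w → w.valuation H (n : H) = 1) :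
    IntAt (addS D v hv hσ P hP) (U_le _ ∅) (wedgeUp D v hv hσ P hP 1 ε hε u₀) {t} := by
  intro f hf hi
  have htS : t ∉ D.S := (hbad t ht).1
  have ht' : t ∉ (addS D v hv hσ P hP).S := by
    intro h
    rcases (Finset.mem_cons (h := hv)).1 h with h | h
    · exact htv h
    · exact htS h
  obtain ⟨χ, m, hm0, hm, hfr, hker, -⟩ := exists_char (G := G) Pool.Agent.K3h44.RS.t_DLOG
    Pool.Agent.K3h44.RS.t_FROBU t_TRANS t_OVER (addS D v hv hσ P hP).S t ht' (D.σ t)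
    (D.frob t htS)
  obtain ⟨e, he⟩ := exists_isLift (G := G) χ
  have hcomb : ∀ i, ∃ b : MonoidAlgebra ℤ G, ∀ u, f i u - toQ b * e u ∈ ZG G := by
    intro i
    refine exists_comb χ e he m hm0 hm (f i) (isEq_of_isEquiv _ (hf i)) ?_
    intro a ha
    obtain ⟨x, rfl⟩ : ∃ x, Additive.ofMul x = a := ⟨Additive.toMul a, rfl⟩
    refine hi i x ⟨x.2.1, fun w hw => ?_⟩
    rw [Finset.coe_singleton] at hw
    exact (hker x).1 ha w hw
  choose b hb using hcomb
  obtain ⟨ε', hε'⟩ : ∃ ε' : Additive (US (addS D v hv hσ P hP)), ε' = Additive.ofMul ⟨ε, hε⟩ :=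
    ⟨_, rfl⟩
  have hdel : (addS D v hv hσ P hP).delta {t} =
      1 - MonoidAlgebra.single (D.σ t)⁻¹ (Ideal.absNorm t.asIdeal : ℚ) := by
    unfold RubinData.delta
    rw [Finset.prod_singleton]
    rfl
  have hdelD : ∀ l, D.delta {l} =
      1 - MonoidAlgebra.single (D.σ l)⁻¹ (Ideal.absNorm l.asIdeal : ℚ) := by
    intro l
    unfold RubinData.delta
    rw [Finset.prod_singleton]
  rw [hdel]
  refine Eq.subst (motive := fun z => (1 - MonoidAlgebra.single (D.σ t)⁻¹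
    (Ideal.absNorm t.asIdeal : ℚ)) * z ∈ (toQ (G := G)).range)
    (wval_wedgeUp D v hv hσ P hP 1 ε hε u₀ f).symm ?_
  rw [← hε']
  have hresEq : ∀ i, IsEq ((f i).comp (inc D v hv hσ P hP)) := by
    intro i γ a
    exact isEq_of_isEquiv _ (hf i) γ (inc D v hv hσ P hP a)
  -- the restricted character
  let χ' : Additive (US D) →+ QZ := χ.comp (inc D v hv hσ P hP)
  let e' : Additive (US D) → MonoidAlgebra ℚ G := fun a => e (inc D v hv hσ P hP a)
  have he' : IsLift χ' e' := fun u γ => he (inc D v hv hσ P hP u) γ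
  have hfg : AddGroup.FG (Additive (US D)) := fgA t_OVER D.S
  have hint : ∀ l, l ∉ bad → ∀ ρ : Fin D.r → Additive (US D) →+ MonoidAlgebra ℚ G,
      (∀ i, IsEq (ρ i)) → (∀ i, ∀ u ∈ BL D l, ρ i u ∈ ZG G) →
      (1 - MonoidAlgebra.single (D.σ l)⁻¹ (Ideal.absNorm l.asIdeal : ℚ)) *
        ∑ k, (MonoidAlgebra.single 1 (-(((1 : ℕ) : ℚ)⁻¹)) * u₀.c k) *
          Matrix.det (Matrix.of fun i j => ρ i
            (Additive.ofMul ⟨(u₀.x k j : Hˣ), U_le D ∅ (u₀.x k j).2⟩)) ∈ ZG G := by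
    intro l hl ρ hρ hρ'
    apply neg_sum_mem
    rw [← hdelD]
    exact hI l hl ρ (fun i => isEquiv_of_isEq D (hρ i)) (fun i x hx => hρ' i (Additive.ofMul x) hx)
  have hY : Y (fun k => MonoidAlgebra.single 1 (-(((1 : ℕ) : ℚ)⁻¹)) * u₀.c k)
      (fun k j => (Additive.ofMul ⟨(u₀.x k j : Hˣ), U_le D ∅ (u₀.x k j).2⟩ : Additive (US D)))
      (fun i => (⇑((f i).comp (inc D v hv hσ P hP)), toQ (b i))) ∈ ZG G := by
    refine up_alg (G := G) (A := Additive (US D)) _ _ χ' e' he' {l // l ∉ bad}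
      (fun l => Ideal.absNorm l.1.asIdeal) (fun l => D.σ l.1) (fun l => BL D l.1)
      (fun l γ u hu => bl_smul D l.1 γ u hu)
      (fun l b hb ho => bl_tors D l.1 (hbad l.1 l.2).1 (hbad l.1 l.2).2 b hb ho)
      (fun l u => bl_delta D l.1 (hbad l.1 l.2).1 u)
      (fun l ρ hρ hρ' => hint l.1 l.2 ρ hρ hρ')
      (fun a ha => hid D bad hbad n hn hnI τ hτ hk χ' e' he' ?_ a ha) _ hresEq b
      (fun i u => hb i (inc D v hv hσ P hP u))
    intro x hx hxn
    obtain ⟨w, hw⟩ := (t_OVER F H t).1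
    have h1 := (hker ⟨(x : Hˣ), US_le_addS D v hv hσ P hP x.2⟩).1 hx w hw
    exact root_eq_one w n (htn w hw) (x : Hˣ) hxn h1
  have h1 := target (fun k => MonoidAlgebra.single 1 (-(((1 : ℕ) : ℚ)⁻¹)) * u₀.c k)
    (fun k j => (Additive.ofMul ⟨(u₀.x k j : Hˣ), U_le D ∅ (u₀.x k j).2⟩ : Additive (US D)))
    (ZG G) (1 - MonoidAlgebra.single (D.σ t)⁻¹ (Ideal.absNorm t.asIdeal : ℚ)) (e ε')
    (fun i => ⇑((f i).comp (inc D v hv hσ P hP))) (fun i => toQ (b i))
    (fun i => f i ε' - toQ (b i) * e ε') (frob_e χ e he _ _ hfr ε') (fun i => hb i ε') hY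
    (fun i => hint t ht (fun j => (f (i.succAbove j)).comp (inc D v hv hσ P hP))
      (fun j => hresEq _) (fun j u hu => hi _ ⟨((Additive.toMul u : US D) : Hˣ),
        US_le_addS D v hv hσ P hP (Additive.toMul u).2⟩ ⟨(US_le_addS D v hv hσ P hP
          (Additive.toMul u).2).1, hu.2⟩))
  simpa only [add_sub_cancel] using h1

/-- **Adding a prime ideal which splits completely and whose prime ideals in `H` are principal over
`S`.** -/
theorem rubin_addS (ε : Hˣ) (hε : ε ∈ US (addS D v hv hσ P hP)) (hO : OG G P ε = 1)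
    (h : ∀ T, D.Allowed T → D.Rubin T) :
    ∀ T, (addS D v hv hσ P hP).Allowed T → (addS D v hv hσ P hP).Rubin T := by
  classical
  rcases dich (addS D v hv hσ P hP) with h0 | h0
  · exact h0
  exfalso
  have hfin : {l : HeightOneSpectrum (𝓞 F) | ringChar (𝓞 F ⧸ l.asIdeal) ≤
      Module.finrank ℚ F + 1}.Finite := finite_small F _
  obtain ⟨bad, hbaddef⟩ : ∃ bad : Finset (HeightOneSpectrum (𝓞 F)),
    bad = D.S ∪ hfin.toFinset := ⟨_, rfl⟩
  have hbad : ∀ l, l ∉ bad → l ∉ D.S ∧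
      Module.finrank ℚ F + 1 < ringChar (𝓞 F ⧸ l.asIdeal) := by
    intro l hl
    rw [hbaddef, Finset.mem_union, not_or, Set.Finite.mem_toFinset, Set.mem_ofPred_eq,
      not_le] at hl
    exact hl
  have hall : ∀ l, l ∉ bad → D.Allowed {l} := by
    intro l hl
    refine ⟨Finset.disjoint_singleton_right.2 (hbad l hl).1, Or.inr ⟨l, ?_, (hbad l hl).2⟩⟩
    exact Finset.mem_singleton_self l
  obtain ⟨n, hn, hnI, ⟨τ, hτ⟩, hk⟩ := exists_root D bad
  have hfinN : {w : HeightOneSpectrum (𝓞 F) | w.valuation F ((n : ℕ) : F) < 1}.Finite :=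
    Pool.Agent.K3h43.RS.finite_lt (H := F) ((n : ℕ) : F) (Nat.cast_ne_zero.2 hn.ne')
  obtain ⟨t, ⟨hta, htr⟩, htb⟩ := posProportion_exists h0 (bad ∪ {v} ∪ hfinN.toFinset)
  simp only [Finset.mem_union, not_or, Finset.mem_singleton, Set.Finite.mem_toFinset,
    Set.mem_ofPred_eq, not_lt] at htb
  obtain ⟨⟨ht, htv⟩, htn⟩ := htb
  have htn' : t.valuation F ((n : ℕ) : F) = 1 := by
    refine le_antisymm ?_ htn
    have e : (((n : ℕ) : 𝓞 F) : F) = ((n : ℕ) : F) := map_natCast (algebraMap (𝓞 F) F) n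
    rw [← e]
    exact t.valuation_le_one (K := F) ((n : ℕ) : 𝓞 F)
  have hS : D.Stark {t} := by
    obtain ⟨u, e, -, s⟩ := h {t} (hall t ht)
    exact ⟨u, e, s⟩
  obtain ⟨u₀, e₀, s₀⟩ := stark_all D hS ∅ (Finset.disjoint_empty_right _)
  apply htr
  refine rubin_of_intAt (addS D v hv hσ P hP) (wedgeUp D v hv hσ P hP 1 ε hε u₀)
    (inER_wedgeUp D v hv hσ P hP 1 ε hε u₀ e₀)
    (isStark_wedgeUp D v hv hσ P hP 1 one_pos ε hε (by rw [hO, Nat.cast_one]) u₀ s₀) {t}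
    hta.1 ?_
  refine intAt_addS D v hv hσ P hP ε hε u₀ bad hbad (fun l hl => ?_) n hn hnI τ hτ hk t ht htv ?_
  · exact intAt_of_rubin t_UNIQ' D (U_le D ∅) u₀ e₀ s₀ {l} (h {l} (hall l hl))
  · intro w hw
    have h1 := val_eq t w (above_singleton.1 hw) ((n : ℕ) : F) htn'
    rwa [map_natCast] at h1

end Pool.Agent.U360.AS
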