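import Pool.Agent.U360.AS.Cl
import Pool.Agent.U360.AS.Indep

/-!
# Enlarging `S`
-/

set_option autoImplicit false
set_option linter.unusedSectionVars false

open NumberField IsDedekindDomain Filter Topology

noncomputable section

namespace Pool.Agent.U360.AS

open Pool.Agent.K3h30.RS Pool.Agent.U360.RS Pool.Agent.K3h8.RS Pool.Agent.K3h25.RS

variable {F H G : Type} [Field F] [NumberField F] [Field H] [NumberField H] [Algebra F H]
  [CommGroup G] [Finite G] [MulSemiringAction G H]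

variable [hG : IsGaloisGroup G F H]

theorem allowed_mono {D D' : RubinData F H G} (h : D.S ⊆ D'.S)
    {T : Finset (HeightOneSpectrum (𝓞 F))} (hT : D'.Allowed T) : D.Allowed T :=
  ⟨Finset.disjoint_of_subset_left h hT.1, hT.2⟩

theorem exists_add (V₀ : Finset (HeightOneSpectrum (𝓞 F))) (hV : Good (F := F) H G V₀)
    (D₁ : RubinData F H G) (hVS : V₀ ⊆ D₁.S) (h₁ : ∀ T, D₁.Allowed T → D₁.Rubin T)
    [DecidableEq (HeightOneSpectrum (𝓞 F))] (E : Finset (HeightOneSpectrum (𝓞 F))) :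
    ∃ D₂ : RubinData F H G, D₂.S = D₁.S ∪ E ∧ ∀ T, D₂.Allowed T → D₂.Rubin T := by
  induction E using Finset.induction_on with
  | empty => exact ⟨D₁, by rw [Finset.union_empty], h₁⟩
  | insert v E hvE ih =>
    obtain ⟨D₂, hS, h₂⟩ := ih
    by_cases hv : v ∈ D₂.S
    · refine ⟨D₂, ?_, h₂⟩
      rw [Finset.union_insert, ← hS, Finset.insert_eq_of_mem hv]
    · by_cases hσ : D₂.σ v = 1
      · obtain ⟨P, hP⟩ := (t_OVER F H v).1
        obtain ⟨ε, hε, hO⟩ := exists_gen_eps D₂ V₀ hV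
          (hVS.trans (by rw [hS]; exact Finset.subset_union_left)) v hv hσ P hP
        refine ⟨addS D₂ v hv hσ P hP, ?_, rubin_addS D₂ v hv hσ P hP ε hε hO h₂⟩
        change Finset.cons v D₂.S hv = _
        rw [Finset.cons_eq_insert, hS, Finset.union_insert]
      · refine ⟨addN D₂ v hv hσ, ?_, fun T hT => rubin_addN D₂ v hv hσ T (h₂ T ?_)⟩
        · change Finset.cons v D₂.S hv = _
          rw [Finset.cons_eq_insert, hS, Finset.union_insert]
        · exact allowed_mono (D' := addN D₂ v hv hσ) (subset_cons' hv) hT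

/-- **Enlarging `S`.** -/
theorem rubin_up (V₀ : Finset (HeightOneSpectrum (𝓞 F))) (hV : Good (F := F) H G V₀)
    (D₁ : RubinData F H G) (hVS : V₀ ⊆ D₁.S) (h₁ : ∀ T, D₁.Allowed T → D₁.Rubin T)
    (D' : RubinData F H G) (hsub : D₁.S ⊆ D'.S) :
    ∀ T, D'.Allowed T → D'.Rubin T := by
  classical
  obtain ⟨D₂, hS, h₂⟩ := exists_add V₀ hV D₁ hVS h₁ D'.S
  rw [Finset.union_eq_right.2 hsub] at hS
  intro T hT
  have hT₂ : D₂.Allowed T := allowed_mono (by rw [hS]) hT
  exact rubin_indep D₂ D' hS T hT₂.1 (h₂ T hT₂)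

end Pool.Agent.U360.AS
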