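import Pool.Agent.U360.AS.StepN

/-!
# Adding a prime ideal which splits completely: the Stark elements
-/

set_option autoImplicit false
set_option linter.unusedSectionVars false

open NumberField IsDedekindDomain Filter Topology

noncomputable section

namespace Pool.Agent.U360.AS

open Pool.Agent.K3h30.RS Pool.Agent.U360.RS Pool.Agent.K3h8.RS Pool.Agent.K3h25.RS
  Pool.Agent.K3h62.RS Pool.Agent.K3h3.RS

theorem det_block {R : Type} [CommRing R] {r : ℕ} (M : Matrix (Fin (r + 1)) (Fin (r + 1)) R)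
    (N : Matrix (Fin r) (Fin r) R) (t : R)
    (h1 : ∀ b : Fin r, M (Fin.last r) b.castSucc = 0) (h2 : M (Fin.last r) (Fin.last r) = t)
    (h3 : ∀ a b : Fin r, M a.castSucc b.castSucc = N a b) : M.det = t * N.det := by
  rw [Matrix.det_succ_row M (Fin.last r), Finset.sum_eq_single (Fin.last r)]
  · rw [h2, ← two_mul, pow_mul, neg_one_sq, one_pow, one_mul]
    congr 2
    ext a b
    rw [Matrix.submatrix_apply, Fin.succAbove_last, h3]
  · intro b _ hb
    obtain ⟨b', rfl⟩ := Fin.exists_castSucc_eq.2 hb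
    rw [h1, mul_zero, zero_mul]
  · intro h; exact absurd (Finset.mem_univ _) h

theorem tendsto_log (N : ℕ) (hN : 2 ≤ N) :
    Tendsto (fun s : ℂ => s⁻¹ * (1 - (N : ℂ) ^ (-s))) (𝓝[≠] 0) (𝓝 ((Real.log N : ℝ) : ℂ)) := by
  have hN0 : (N : ℂ) ≠ 0 := by exact_mod_cast (show N ≠ 0 by omega)
  have h1 : HasDerivAt (fun s : ℂ => (N : ℂ) ^ (-s)) ((N : ℂ) ^ (-(0 : ℂ)) * Complex.log N * (-1)) 0 :=
    HasDerivAt.const_cpow (hasDerivAt_neg (0 : ℂ)) (Or.inl hN0)
  have h2 : HasDerivAt (fun s : ℂ => 1 - (N : ℂ) ^ (-s)) (Complex.log N) 0 := by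
    have h3 := h1.const_sub 1
    rw [neg_zero, Complex.cpow_zero, one_mul, mul_neg, mul_one, neg_neg] at h3
    exact h3
  have h4 := h2.tendsto_slope_zero
  have h5 : Complex.log N = ((Real.log N : ℝ) : ℂ) := by
    rw [← Complex.natCast_log]
  rw [← h5]
  refine h4.congr fun s => ?_
  rw [zero_add, neg_zero, Complex.cpow_zero, sub_self, sub_zero, smul_eq_mul]

variable {F H G : Type} [Field F] [NumberField F] [Field H] [NumberField H] [Algebra F H]
  [CommGroup G] [Finite G] [MulSemiringAction G H]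

theorem mem_U_empty (D : RubinData F H G) {x : Hˣ} (hx : x ∈ US D) : x ∈ D.U ∅ := by
  refine ⟨hx.1, fun w hw => ?_⟩
  obtain ⟨u, hu, -⟩ := hw
  exact absurd hu (by simp)

section

variable [hG : IsGaloisGroup G F H] (D : RubinData F H G) (v : HeightOneSpectrum (𝓞 F))
  (hv : v ∉ D.S) (hσ : D.σ v = 1) (P : HeightOneSpectrum (𝓞 H)) (hP : Above {v} P)

theorem US_le_addS : US D ≤ US (addS D v hv hσ P hP) := U_mono (subset_cons' hv) _

include hv hP in
theorem OG_of_mem {x : Hˣ} (hx : x ∈ US D) : OG G P x = 0 := by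
  rw [OG_eq_zero_iff]
  intro γ
  have h := act_mem (F := F) t_TRANS (D.S : Set (HeightOneSpectrum (𝓞 F))) ∅ γ hx
  refine h.1 P fun h' => hv ?_
  exact Finset.mem_coe.1 ((above_iff hP).1 h')

theorem mem_of_OG {x : Hˣ} (hx : x ∈ US (addS D v hv hσ P hP)) (h : OG G P x = 0) :
    x ∈ US D := by
  rw [OG_eq_zero_iff] at h
  refine ⟨fun w hw => ?_, fun w hw => ?_⟩
  · by_cases hwv : Above {v} w
    · obtain ⟨γ, hγ⟩ := (t_TRANS F H G v P hP).2 w hwv
      rw [hγ]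
      exact h γ
    · refine hx.1 w fun h' => ?_
      rcases inS_cons hv (w := Sum.inr w) h' with h1 | ⟨P', hP', h1⟩
      · exact hw h1
      · rw [Sum.inr.inj h1] at hwv
        exact hwv hP'
  · obtain ⟨u, hu, -⟩ := hw
    exact absurd hu (by simp)

/-- the element `-(1 / h) u ∧ ε` -/
def wedgeUp (h : ℕ) (ε : Hˣ) (hε : ε ∈ US (addS D v hv hσ P hP)) (u : Wedge G D.r (D.U ∅)) :
    Wedge G (addS D v hv hσ P hP).r ((addS D v hv hσ P hP).U ∅) where
  n := u.n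
  c k := MonoidAlgebra.single 1 (-((h : ℚ)⁻¹)) * u.c k
  x k := Fin.snoc (α := fun _ => (addS D v hv hσ P hP).U ∅)
    (fun j : Fin D.r => ⟨(u.x k j : Hˣ), mem_U_empty _
      (US_le_addS D v hv hσ P hP (U_le D ∅ (u.x k j).2))⟩)
    ⟨ε, mem_U_empty _ hε⟩

theorem wedgeUp_x_castSucc (h : ℕ) (ε : Hˣ) (hε : ε ∈ US (addS D v hv hσ P hP))
    (u : Wedge G D.r (D.U ∅)) (k : Fin u.n) (j : Fin D.r) :
    (((wedgeUp D v hv hσ P hP h ε hε u).x k j.castSucc : (addS D v hv hσ P hP).U ∅) : Hˣ) =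
      (u.x k j : Hˣ) := by
  unfold wedgeUp
  dsimp only
  rw [Fin.snoc_castSucc]

theorem wedgeUp_x_last (h : ℕ) (ε : Hˣ) (hε : ε ∈ US (addS D v hv hσ P hP))
    (u : Wedge G D.r (D.U ∅)) (k : Fin u.n) :
    (((wedgeUp D v hv hσ P hP h ε hε u).x k (Fin.last D.r) : (addS D v hv hσ P hP).U ∅) : Hˣ) =
      ε := by
  unfold wedgeUp
  dsimp only
  rw [Fin.snoc_last]

theorem addS_w_castSucc (j : Fin D.r) : (addS D v hv hσ P hP).w j.castSucc = D.w j := by
  unfold addS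
  dsimp only
  rw [Fin.snoc_castSucc]

theorem addS_w_last : (addS D v hv hσ P hP).w (Fin.last D.r) = Sum.inr P := by
  unfold addS
  dsimp only
  rw [Fin.snoc_last]

theorem regulator_wedgeUp (h : ℕ) (hh : 0 < h) (ε : Hˣ)
    (hε : ε ∈ US (addS D v hv hσ P hP)) (hO : OG G P ε = (h : MonoidAlgebra ℤ G))
    (u : Wedge G D.r (D.U ∅)) :
    (wedgeUp D v hv hσ P hP h ε hε u).regulator (addS D v hv hσ P hP).w =
      (Real.log (Ideal.absNorm v.asIdeal : ℝ)) • u.regulator D.w := by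
  have hNP := (split_res (hσ ▸ D.frob v hv : IsFrob (H := H) v (1 : G)) hP).1
  unfold Wedge.regulator
  rw [Finset.smul_sum]
  refine Finset.sum_congr rfl fun k _ => ?_
  have e := det_block (R := MonoidAlgebra ℝ G) (r := D.r)
    (Matrix.of fun a b => reg G ((addS D v hv hσ P hP).w a)
      (((wedgeUp D v hv hσ P hP h ε hε u).x k b : (addS D v hv hσ P hP).U ∅) : Hˣ))
    (Matrix.of fun a b => reg G (D.w a) (u.x k b : Hˣ))
    ((-Real.log (Ideal.absNorm P.asIdeal : ℝ)) • ((h : ℝ) • (1 : MonoidAlgebra ℝ G)))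
    (by
      intro b
      refine (congrArg₂ (reg G) (addS_w_last D v hv hσ P hP)
        (wedgeUp_x_castSucc D v hv hσ P hP h ε hε u k b)).trans ?_
      rw [reg_inr, OG_of_mem D v hv P hP (U_le D ∅ (u.x k b).2), map_zero, map_zero, smul_zero])
    (by
      refine (congrArg₂ (reg G) (addS_w_last D v hv hσ P hP)
        (wedgeUp_x_last D v hv hσ P hP h ε hε u k)).trans ?_
      rw [reg_inr, hO, map_natCast, map_natCast]
      congr 1
      rw [← nsmul_one, ← Nat.cast_smul_eq_nsmul ℝ])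
    (by
      intro a b
      exact congrArg₂ (reg G) (addS_w_castSucc D v hv hσ P hP a)
        (wedgeUp_x_castSucc D v hv hσ P hP h ε hε u k b))
  refine (congrArg (fun z => toR (MonoidAlgebra.single 1 (-((h : ℚ)⁻¹)) * u.c k) * z) e).trans ?_
  rw [map_mul, toR_single, hNP]
  have e1 : (MonoidAlgebra.single (1 : G) ((-((h : ℚ)⁻¹) : ℚ) : ℝ) : MonoidAlgebra ℝ G) =
      (-((h : ℝ)⁻¹)) • (1 : MonoidAlgebra ℝ G) := by
    rw [MonoidAlgebra.one_def, MonoidAlgebra.smul_single, smul_eq_mul, mul_one]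
    push_cast
    rfl
  have hh' : (h : ℝ) ≠ 0 := by exact_mod_cast hh.ne'
  rw [e1]
  simp only [smul_mul_assoc, mul_smul_comm, one_mul, smul_smul]
  congr 1
  field_simp

theorem charValue_smul (χ : G →* ℂˣ) (t : ℝ) (z : MonoidAlgebra ℝ G) :
    charValue χ (t • z) = (t : ℂ) * charValue χ z := by
  rw [charValue_eq, charValue_eq, map_smul]
  rfl

/-- the limits for `S` and for `S ∪ {v}` -/
theorem stark_addS_iff (χ : G →* ℂˣ) (l : ℂ) :
    Tendsto (fun s : ℂ => (s ^ (D.r + 1))⁻¹ * (addS D v hv hσ P hP).LT ∅ χ⁻¹ s) (𝓝[≠] 0)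
      (𝓝 (((Real.log (Ideal.absNorm v.asIdeal : ℝ) : ℝ) : ℂ) * l)) ↔
    Tendsto (fun s : ℂ => (s ^ D.r)⁻¹ * D.LT ∅ χ⁻¹ s) (𝓝[≠] 0) (𝓝 l) := by
  have hN := two_le_absNorm v
  have h1 := tendsto_log _ hN
  have hlog : (((Real.log (Ideal.absNorm v.asIdeal : ℝ) : ℝ) : ℂ)) ≠ 0 := by
    have : 0 < Real.log (Ideal.absNorm v.asIdeal : ℝ) :=
      Real.log_pos (by exact_mod_cast (by omega : 1 < Ideal.absNorm v.asIdeal))
    exact_mod_cast this.ne'
  have e : ∀ s : ℂ, (s ^ (D.r + 1))⁻¹ * (addS D v hv hσ P hP).LT ∅ χ⁻¹ s =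
      (s⁻¹ * (1 - (Ideal.absNorm v.asIdeal : ℂ) ^ (-s))) * ((s ^ D.r)⁻¹ * D.LT ∅ χ⁻¹ s) := by
    intro s
    rw [LT_addS, pow_succ, mul_inv]
    ring
  constructor
  · intro h2
    have h3 := h2.div h1 hlog
    rw [mul_div_cancel_left₀ _ hlog] at h3
    refine h3.congr' ?_
    have h4 : ∀ᶠ s : ℂ in 𝓝[≠] 0, s⁻¹ * (1 - (Ideal.absNorm v.asIdeal : ℂ) ^ (-s)) ≠ 0 :=
      h1.eventually_ne hlog
    filter_upwards [h4] with s hs
    rw [Pi.div_apply, e, mul_div_cancel_left₀ _ hs]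
  · intro h2
    refine (h1.mul h2).congr fun s => ?_
    rw [e]

theorem isStark_wedgeUp (h : ℕ) (hh : 0 < h) (ε : Hˣ)
    (hε : ε ∈ US (addS D v hv hσ P hP)) (hO : OG G P ε = (h : MonoidAlgebra ℤ G))
    (u : Wedge G D.r (D.U ∅)) (hS : D.IsStark ∅ u) :
    (addS D v hv hσ P hP).IsStark ∅ (wedgeUp D v hv hσ P hP h ε hε u) := by
  intro χ
  rw [regulator_wedgeUp D v hv hσ P hP h hh ε hε hO, charValue_smul]
  exact (stark_addS_iff D v hv hσ P hP χ _).2 (hS χ)

/-- the active characters -/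
theorem active_addS (χ : G →* ℂˣ) : (addS D v hv hσ P hP).Active χ ↔ D.Active χ := by
  have h1 : ∀ w : Place H, InS (D.S : Set (HeightOneSpectrum (𝓞 F))) w →
      (∀ i, ¬ Conj G w (D.w i)) → ∀ i : Fin (D.r + 1), ¬ Conj G w ((addS D v hv hσ P hP).w i) := by
    intro w hw h i
    refine Fin.lastCases ?_ (fun i => ?_) i
    · rw [addS_w_last]
      exact fun h' => hv (Finset.mem_coe.1 (conj_inr hP hw h'))
    · rw [addS_w_castSucc]
      exact h i
  have h2 : ∀ w : Place H, InS ((addS D v hv hσ P hP).S : Set (HeightOneSpectrum (𝓞 F))) w →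
      (∀ i : Fin (D.r + 1), ¬ Conj G w ((addS D v hv hσ P hP).w i)) →
      InS (D.S : Set (HeightOneSpectrum (𝓞 F))) w ∧ ∀ i, ¬ Conj G w (D.w i) := by
    intro w hw h
    rcases inS_cons hv hw with h3 | ⟨P', hP', rfl⟩
    · refine ⟨h3, fun i => ?_⟩
      have := h i.castSucc
      rwa [addS_w_castSucc] at this
    · exfalso
      apply h (Fin.last _)
      rw [addS_w_last]
      exact conj_of_split (hσ ▸ D.frob v hv) hP hP'
  have hS : ∀ w : Place H, InS (D.S : Set (HeightOneSpectrum (𝓞 F))) w →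
      InS ((addS D v hv hσ P hP).S : Set (HeightOneSpectrum (𝓞 F))) w := fun w hw =>
    inS_mono (fun u hu => Finset.mem_coe.2 (subset_cons' hv (Finset.mem_coe.1 hu))) hw
  constructor
  · rintro (h | ⟨hχ, h⟩)
    · exact Or.inl fun w hw hw' => h w (hS w hw) (h1 w hw hw')
    · exact Or.inr ⟨hχ, fun w w' hw hw' g g' =>
        h w w' (hS w hw) (hS w' hw') (h1 w hw g) (h1 w' hw' g')⟩
  · rintro (h | ⟨hχ, h⟩)
    · exact Or.inl fun w hw hw' => h w (h2 w hw hw').1 (h2 w hw hw').2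
    · exact Or.inr ⟨hχ, fun w w' hw hw' g g' =>
        h w w' (h2 w hw g).1 (h2 w' hw' g').1 (h2 w hw g).2 (h2 w' hw' g').2⟩

theorem inER_wedgeUp (h : ℕ) (ε : Hˣ) (hε : ε ∈ US (addS D v hv hσ P hP))
    (u : Wedge G D.r (D.U ∅)) (hE : D.InER u) :
    (addS D v hv hσ P hP).InER (wedgeUp D v hv hσ P hP h ε hε u) := by
  intro χ hχ k
  rw [active_addS] at hχ
  change charValue χ (toR (MonoidAlgebra.single 1 (-((h : ℚ)⁻¹)) * u.c k)) = 0
  rw [charValue_toR_mul, hE χ hχ k, mul_zero]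

end

end Pool.Agent.U360.AS
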